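import Pool.Agent.R521.IS.Stm

set_option autoImplicit false

open Finset

namespace Pool.Agent.R521.IS.Chain

open Pool.Agent.R521.IS
open Classical

theorem key {V : Type} [Fintype V] (G : SimpleGraph V) (x y : V) (f : V → V) (hf : f ∈ Tre G y)
    (A : Finset V) (hx : x ∈ A) (hy : y ∉ A) (hc : crs A f = 1) :
    ∃ i : ℕ, ∀ u, u ∈ A ↔ ∃ k : ℕ, f^[k] u = f^[i] x := by
  have hf' := (Finset.mem_filter.1 hf).2
  obtain ⟨d, hd⟩ := hf'.2.2
  obtain ⟨v, hv⟩ := Finset.card_eq_one.1 hc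
  have hcross : ∀ w, w ≠ v → (w ∈ A ↔ f w ∈ A) := by
    intro w hw
    by_contra h
    have h1 : w ∈ (univ.filter (fun v => ¬ (v ∈ A ↔ f v ∈ A))) :=
      Finset.mem_filter.2 ⟨Finset.mem_univ _, h⟩
    have h2 : w ∈ ({v} : Finset V) := by
      rw [← hv]
      convert h1
    exact hw (Finset.mem_singleton.1 h2)
  have reach : ∀ n : ℕ, ∀ u, d u ≤ n → ∃ k : ℕ, f^[k] u = y := by
    intro n
    induction n with
    | zero =>
      intro u hu
      by_cases h : u = y
      · exact ⟨0, h⟩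
      · have := hd u h
        omega
    | succ n ih =>
      intro u hu
      by_cases h : u = y
      · exact ⟨0, h⟩
      · have := hd u h
        obtain ⟨k, hk⟩ := ih (f u) (by omega)
        exact ⟨k + 1, by rw [Function.iterate_succ_apply]; exact hk⟩
  have const : ∀ (k : ℕ) (u : V), (∀ m, m < k → f^[m] u ≠ v) → (u ∈ A ↔ f^[k] u ∈ A) := by
    intro k u
    induction k with
    | zero => intro _; exact Iff.rfl
    | succ k ih =>
      intro h
      rw [Function.iterate_succ_apply']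
      exact (ih fun m hm => h m (by omega)).trans (hcross _ (h k (by omega)))
  have hit : ∀ u, u ∈ A → ∃ k : ℕ, f^[k] u = v := by
    intro u hu
    by_contra h
    push Not at h
    obtain ⟨k, hk⟩ := reach (d u) u le_rfl
    have h1 := (const k u fun m _ => h m).1 hu
    rw [hk] at h1
    exact hy h1
  have back : ∀ u, (∃ k : ℕ, f^[k] u = v) → (u ∈ A ↔ v ∈ A) := by
    intro u h
    have h1 := const (Nat.find h) u fun m hm => Nat.find_min h hm
    rwa [Nat.find_spec h] at h1
  have hvA : v ∈ A := (back x (hit x hx)).1 hx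
  obtain ⟨i, hi⟩ := hit x hx
  refine ⟨i, fun u => ⟨fun hu => ?_, fun h => ?_⟩⟩
  · rw [hi]
    exact hit u hu
  · rw [hi] at h
    exact (back u h).2 hvA

theorem sub_of {V : Type} {f : V → V} {x : V} {A B : Finset V} {i j : ℕ} (hij : i ≤ j)
    (hA : ∀ u, u ∈ A ↔ ∃ k : ℕ, f^[k] u = f^[i] x)
    (hB : ∀ u, u ∈ B ↔ ∃ k : ℕ, f^[k] u = f^[j] x) : A ⊆ B := by
  intro u hu
  obtain ⟨k, hk⟩ := (hA u).1 hu
  refine (hB u).2 ⟨(j - i) + k, ?_⟩
  rw [Function.iterate_add_apply, hk, ← Function.iterate_add_apply]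
  congr 1
  congr 1
  omega

theorem chain : StmtChain := by
  intro V _ G x y f hf A B hxA hxB hyA hyB hcA hcB
  obtain ⟨i, hi⟩ := key G x y f hf A hxA hyA hcA
  obtain ⟨j, hj⟩ := key G x y f hf B hxB hyB hcB
  rcases le_total i j with h | h
  · exact Or.inl (sub_of h hi hj)
  · exact Or.inr (sub_of h hj hi)

end Pool.Agent.R521.IS.Chain
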