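import Mathlib

/-!
Project IS (helper521): MP_364654_pr (w = 1), the case N = 1 (Ising) of Q1:
bounded maximal effective resistance implies long range order, uniformly.
Statements only.  Proofs: NOTES.md.
-/

set_option autoImplicit false
set_option linter.unusedVariables false

open Finset Matrix

namespace Pool.Agent.R521.IS

noncomputable section
open Classical

/-- Dirichlet energy of `f`. -/
def En {V : Type} [Fintype V] (G : SimpleGraph V) (f : V → ℝ) : ℝ :=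
  (1 / 2) * ∑ u, ∑ v, if G.Adj u v then (f u - f v) ^ 2 else 0

/-- all effective resistances are at most `M` (Dirichlet principle). -/
def ResLe {V : Type} [Fintype V] (G : SimpleGraph V) (M : ℝ) : Prop :=
  ∀ (x y : V) (f : V → ℝ), (f x - f y) ^ 2 ≤ M * En G f

/-- number of edges between `A` and its complement. -/
def bd {V : Type} [Fintype V] (G : SimpleGraph V) (A : Finset V) : ℕ :=
  (univ.filter (fun p : V × V => p.1 ∈ A ∧ p.2 ∉ A ∧ G.Adj p.1 p.2)).card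

/-- minimal cut between `x` and `y`. -/
def IsCut {V : Type} [Fintype V] (G : SimpleGraph V) (x y : V) (A : Finset V) : Prop :=
  x ∈ A ∧ y ∉ A ∧ (G.induce (A : Set V)).Connected ∧ (G.induce ((Aᶜ : Finset V) : Set V)).Connected

/-! ### weighted Laplacians -/

/-- weighted Laplacian matrix (diagonal entries of `c` are irrelevant). -/
def Lap {W : Type} [Fintype W] (c : W → W → ℝ) : Matrix W W ℝ :=
  fun i j => (if i = j then ∑ k, c i k else 0) - c i j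

/-- weighted energy. -/
def Ew {W : Type} [Fintype W] (c : W → W → ℝ) (f : W → ℝ) : ℝ :=
  (1 / 2) * ∑ u, ∑ v, c u v * (f u - f v) ^ 2

/-- `Lap c + diag κ`. -/
def MK {W : Type} [Fintype W] (c : W → W → ℝ) (κ : W → ℝ) : Matrix W W ℝ :=
  Lap c + Matrix.diagonal κ

/-- indicator of `r`. -/
def one {W : Type} (r : W) : W → ℝ := fun i => if i = r then 1 else 0

/-- merging `b` into `a`: push the matrix `M` forward to the type without `b`. -/
def mrg {W : Type} [Fintype W] (M : Matrix W W ℝ) (a b : W) : Matrix {i : W // i ≠ b} {i : W // i ≠ b} ℝ :=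
  fun i j => M i j + (if (i : W) = a then M b j else 0) + (if (j : W) = a then M i b else 0)
    + (if (i : W) = a ∧ (j : W) = a then M b b else 0)

/-- Piece IS-MERGE. -/
def StmtMerge : Prop := ∀ (W : Type) [Fintype W] (M : Matrix W W ℝ) (a b : W), a ≠ b → M.det ≠ 0 →
  (mrg M a b).det = M.det * (M⁻¹ a a - M⁻¹ a b - M⁻¹ b a + M⁻¹ b b)

/-- Piece IS-POS: positive definiteness. -/
def StmtPos : Prop := ∀ (W : Type) [Fintype W] (c : W → W → ℝ), (∀ i j, 0 ≤ c i j) → (∀ i j, c i j = c j i) →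
  (∀ f : W → ℝ, Ew c f = 0 → ∀ u v, f u = f v) →
  ∀ κ : W → ℝ, (∀ i, 0 ≤ κ i) → (∃ i, 0 < κ i) → (MK c κ).PosDef

/-- effective distance `(e_a - e_b)ᵀ M⁻¹ (e_a - e_b)`. -/
def qf {W : Type} [Fintype W] (M : Matrix W W ℝ) (a b : W) : ℝ := M⁻¹ a a - M⁻¹ a b - M⁻¹ b a + M⁻¹ b b

/-- cut condition. -/
def Cut0 {W : Type} [Fintype W] (c : W → W → ℝ) (c0 : ℝ) : Prop :=
  ∀ f : W → ℝ, (∀ b, f b = 0 ∨ f b = 1) → (∃ b, f b = 0) → (∃ b, f b = 1) → c0 ≤ Ew c f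

/-- Piece IS-INV (from POS): diagonal of the inverse. -/
def StmtInv : Prop := ∀ c0 : ℝ, 0 < c0 → ∀ (W : Type) [Fintype W] (c : W → W → ℝ), (∀ i j, 0 ≤ c i j) →
  (∀ i j, c i j = c j i) → 2 ≤ Fintype.card W → Cut0 c c0 → ∀ κ : W → ℝ, (∀ i, 1 ≤ κ i) →
  ∀ i, (MK c κ)⁻¹ i i ≤ 1 / (κ i + c0 / (1 + c0))

/-- Piece IS-PAIR (from POS, INV): a good pair to merge. -/
def StmtPair : Prop := ∀ c0 : ℝ, 0 < c0 → ∀ (W : Type) [Fintype W] (c : W → W → ℝ), (∀ i j, 0 ≤ c i j) →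
  (∀ i j, c i j = c j i) → 2 ≤ Fintype.card W → Cut0 c c0 → ∀ (κ : W → ℝ) (r : W), (∀ i, 1 ≤ κ i) →
  ∃ a b : W, a ≠ b ∧ b ≠ r ∧ 0 < qf (MK c (one r)) a b ∧
    qf (MK c (one r)) a b ≤ (1 + (∑ i, κ i) / ((c0 / (1 + c0)) * Fintype.card W)) * qf (MK c κ) a b

/-- Piece IS-IND (from MERGE, PAIR, POS): induction over the number of vertices. -/
def StmtInd : Prop := ∀ c0 : ℝ, 0 < c0 → ∀ (W : Type) [Fintype W] (c : W → W → ℝ), (∀ i j, 0 ≤ c i j) →
  (∀ i j, c i j = c j i) → Cut0 c c0 → ∀ (κ : W → ℝ) (r : W), (∀ i, 1 ≤ κ i) →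
  (MK c κ).det ≤ (∑ i, κ i) * (∏ j ∈ Finset.Icc 2 (Fintype.card W), (1 + (∑ i, κ i) / ((c0 / (1 + c0)) * j)))
    * (MK c (one r)).det

/-- Piece IS-CORE (from IND, POS and a numerical estimate). -/
def StmtCore : Prop := ∀ c0 : ℝ, 0 < c0 → ∃ K : ℝ, 1 ≤ K ∧
  ∀ (W : Type) [Fintype W] (c : W → W → ℝ), (∀ i j, 0 ≤ c i j) → (∀ i j, c i j = c j i) →
  ∀ (κ : W → ℕ) (r : W), (∀ i, 1 ≤ κ i) →
  (∀ f : W → ℝ, (∀ b, f b = 0 ∨ f b = 1) → (∃ b, f b = 0) → (∃ b, f b = 1) → c0 ≤ Ew c f) →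
  (MK c (fun i => (κ i : ℝ))).det ≤ K ^ (∑ i, κ i) * (MK c (one r)).det

/-- Piece IS-DET (from IS-CORE by eliminating the vertices with `κ = 0`). -/
def StmtDet : Prop := ∀ c0 : ℝ, 0 < c0 → ∃ K : ℝ, 1 ≤ K ∧
  ∀ (W : Type) [Fintype W] (c : W → W → ℝ), (∀ i j, 0 ≤ c i j) → (∀ i j, c i j = c j i) →
  (∀ f : W → ℝ, Ew c f = 0 → ∀ u v, f u = f v) →
  ∀ (κ : W → ℕ) (r : W), 1 ≤ κ r →
  (∀ f : W → ℝ, (∀ b, 1 ≤ κ b → (f b = 0 ∨ f b = 1)) → (∃ b, 1 ≤ κ b ∧ f b = 0) →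
     (∃ b, 1 ≤ κ b ∧ f b = 1) → c0 ≤ Ew c f) →
  (MK c (fun i => (κ i : ℝ))).det ≤ K ^ (∑ i, κ i) * (MK c (one r)).det

/-! ### rooted spanning trees -/

/-- spanning trees rooted at `y`, as parent functions. -/
def Tre {V : Type} [Fintype V] (G : SimpleGraph V) (y : V) : Finset (V → V) :=
  univ.filter (fun f => f y = y ∧ (∀ v, v ≠ y → G.Adj v (f v)) ∧ ∃ d : V → ℕ, ∀ v, v ≠ y → d (f v) < d v)

/-- number of tree edges crossing `A`. -/
def crs {V : Type} [Fintype V] (A : Finset V) (f : V → V) : ℕ :=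
  (univ.filter (fun v => ¬ (v ∈ A ↔ f v ∈ A))).card

/-- 0-1 weights of `G` on a subset. -/
def cG {V : Type} (G : SimpleGraph V) (A : Finset V) : {v : V // v ∈ A} → {v : V // v ∈ A} → ℝ :=
  fun u v => if G.Adj u v then 1 else 0

/-- number of neighbours outside `A`. -/
def kG {V : Type} [Fintype V] (G : SimpleGraph V) (A : Finset V) (u : V) : ℕ :=
  (univ.filter (fun v => v ∉ A ∧ G.Adj u v)).card

/-- ghost trees: parent functions to `Option W`, rooted at `none`. -/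
def GT {W : Type} [Fintype W] : Finset (W → Option W) :=
  univ.filter (fun g => ∃ d : W → ℕ, ∀ v w, g v = some w → d w < d v)

/-- Piece IS-MT: matrix tree theorem with a ghost root. -/
def StmtMT : Prop := ∀ (W : Type) [Fintype W] (c : W → W → ℝ) (κ : W → ℝ),
  (MK c κ).det = ∑ g ∈ (GT : Finset (W → Option W)), ∏ i, (match g i with | none => κ i | some j => c i j)

/-- Piece IS-TUP (from IS-MT): upper bound for the number of trees. -/
def StmtTup : Prop := ∀ (V : Type) [Fintype V] (G : SimpleGraph V) (A : Finset V) (y : V), y ∉ A →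
  ((Tre G y).card : ℝ) ≤ (MK (cG G A) (fun u => (kG G A u : ℝ))).det *
    (MK (cG G Aᶜ) (fun u => ((kG G Aᶜ u + if (u : V) = y then 1 else 0 : ℕ) : ℝ))).det

/-- Piece IS-TLOW (from IS-MT): trees crossing exactly once. -/
def StmtTlow : Prop := ∀ (V : Type) [Fintype V] (G : SimpleGraph V) (A : Finset V) (y : V) (hy : y ∈ (Aᶜ : Finset V))
  (a : V) (ha : a ∈ A) (b : V), b ∉ A → G.Adj a b →
  (MK (cG G A) (one ⟨a, ha⟩)).det * (MK (cG G Aᶜ) (one ⟨y, hy⟩)).det ≤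
    (((Tre G y).filter (fun f => crs A f = 1)).card : ℝ)

/-- Piece IS-RES. -/
def StmtRes : Prop := ∀ M : ℝ, 0 < M → ∃ c0 : ℝ, 0 < c0 ∧ ∀ (V : Type) [Fintype V] (G : SimpleGraph V), ResLe G M →
  ∀ (A : Finset V) (z : V), z ∉ A → (G.induce (A : Set V)).Connected →
  ∀ (B : Finset V), B ⊆ A → (∀ u ∈ A, ∀ v, v ∉ A → G.Adj u v → u ∈ B) →
  ∀ (f : V → ℝ), (∀ b ∈ B, f b = 0 ∨ f b = 1) → (∃ b ∈ B, f b = 0) → (∃ b ∈ B, f b = 1) →
    c0 ≤ (1 / 2) * ∑ u ∈ A, ∑ v ∈ A, if G.Adj u v then (f u - f v) ^ 2 else 0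

/-- Piece IS-RATIO (from DET, TUP, TLOW, RES). -/
def StmtRatio : Prop := ∀ M : ℝ, 0 < M → ∃ K : ℝ, 1 ≤ K ∧ ∀ (V : Type) [Fintype V] (G : SimpleGraph V), G.Connected →
  ResLe G M → ∀ (x y : V) (A : Finset V), IsCut G x y A →
  ((Tre G y).card : ℝ) ≤ K ^ (bd G A) * (((Tre G y).filter (fun f => crs A f = 1)).card : ℝ)

/-- Piece IS-NEST. -/
def StmtNest : Prop := ∀ M : ℝ, 0 < M → ∃ K : ℕ, 1 ≤ K ∧ ∀ (V : Type) [Fintype V] (G : SimpleGraph V), ResLe G M →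
  ∀ (x y : V) (n : ℕ), 1 ≤ n → ∀ (S : Finset (Finset V)), (∀ A ∈ S, x ∈ A ∧ y ∉ A ∧ bd G A ≤ n) →
   (∀ A ∈ S, ∀ B ∈ S, A ⊆ B ∨ B ⊆ A) → S.card ≤ K ^ n

/-- Piece IS-CHAIN: cuts crossed exactly once by one tree form a chain. -/
def StmtChain : Prop := ∀ (V : Type) [Fintype V] (G : SimpleGraph V) (x y : V), ∀ f ∈ Tre G y,
  ∀ (A B : Finset V), x ∈ A → x ∈ B → y ∉ A → y ∉ B → crs A f = 1 → crs B f = 1 → A ⊆ B ∨ B ⊆ A

/-- Piece IS-COUNT (from RATIO, NEST, CHAIN). -/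
def StmtCount : Prop := ∀ M : ℝ, 0 < M → ∃ K : ℝ, 1 ≤ K ∧ ∀ (V : Type) [Fintype V] (G : SimpleGraph V), G.Connected →
  ResLe G M → ∀ (x y : V) (n : ℕ), 1 ≤ n →
  ((univ.filter (fun A : Finset V => IsCut G x y A ∧ bd G A ≤ n)).card : ℝ) ≤ K ^ n

/-! ### Ising model -/

/-- spin. -/
def sp (b : Bool) : ℝ := if b then 1 else -1

/-- Boltzmann weight: `exp (β ∑_{edges} σ_u σ_v)` (each edge is counted twice in the double sum). -/
def wt {V : Type} [Fintype V] (G : SimpleGraph V) (β : ℝ) (σ : V → Bool) : ℝ :=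
  Real.exp (β * ((1 / 2) * ∑ u, ∑ v, if G.Adj u v then sp (σ u) * sp (σ v) else 0))

/-- two point function of the Ising model. -/
def corr {V : Type} [Fintype V] (G : SimpleGraph V) (β : ℝ) (x y : V) : ℝ :=
  (∑ σ : V → Bool, sp (σ x) * sp (σ y) * wt G β σ) / (∑ σ : V → Bool, wt G β σ)

/-- Piece IS-SEP: a spin configuration with `σ x ≠ σ y` has a minimal cut of disagreeing edges. -/
def StmtSep : Prop := ∀ (V : Type) [Fintype V] (G : SimpleGraph V), G.Connected → ∀ (x y : V) (σ : V → Bool), σ x ≠ σ y →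
  ∃ A : Finset V, IsCut G x y A ∧ ∀ u ∈ A, ∀ v, v ∉ A → G.Adj u v → σ u ≠ σ v

/-- Piece IS-FLIP: flipping the spins in `A`. -/
def StmtFlip : Prop := ∀ (V : Type) [Fintype V] (G : SimpleGraph V) (β : ℝ) (A : Finset V),
  (∑ σ ∈ (univ.filter (fun σ : V → Bool => ∀ u ∈ A, ∀ v, v ∉ A → G.Adj u v → σ u ≠ σ v)), wt G β σ)
    ≤ Real.exp (-(2 * β * (bd G A : ℝ))) * ∑ σ : V → Bool, wt G β σ

/-- Piece IS-PEI (from SEP, FLIP): Peierls bound. -/
def StmtPei : Prop := ∀ (V : Type) [Fintype V] (G : SimpleGraph V), G.Connected → ∀ (β : ℝ) (x y : V),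
  1 - 2 * ∑ A ∈ univ.filter (fun A : Finset V => IsCut G x y A), Real.exp (-(2 * β * (bd G A : ℝ))) ≤ corr G β x y

/-! ### Green's function -/

/-- `u` satisfies the first step equations of the expected number of visits to `i` before hitting `j`:
`u j = 0` and, for `s ≠ j`, `u s = [s = i] + (1 / d(s)) ∑_{v ~ s} u v`. -/
def IsGreen {V : Type} [Fintype V] (G : SimpleGraph V) (i j : V) (u : V → ℝ) : Prop :=
  u j = 0 ∧ ∀ s, s ≠ j → u s = (if s = i then 1 else 0) +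
    (∑ v, if G.Adj s v then u v else 0) / (∑ v, if G.Adj s v then (1 : ℝ) else 0)

/-- Piece IS-GEX: existence and uniqueness. -/
def StmtGex : Prop := ∀ (V : Type) [Fintype V] (G : SimpleGraph V), G.Connected → ∀ i j : V, i ≠ j →
  ∃! u : V → ℝ, IsGreen G i j u

/-- Piece IS-GRE (from GEX): a bound for the Green's function gives `ResLe`. -/
def StmtGre : Prop := ∀ (V : Type) [Fintype V] (G : SimpleGraph V), G.Connected → ∀ M : ℝ, 0 < M →
  (∀ i j : V, i ≠ j → ∀ u : V → ℝ, IsGreen G i j u → u i / (∑ v, if G.Adj i v then (1 : ℝ) else 0) ≤ M) → ResLe G M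

end

end Pool.Agent.R521.IS
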