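import Mathlib
import Pool.Agent.R521.IS.Stm

set_option autoImplicit false
set_option linter.unusedVariables false

open Finset Matrix

namespace Pool.Agent.R521.IS.Core

open Pool.Agent.R521.IS

noncomputable section
open Classical

lemma prod_bound (c1 : ℝ) (h0 : 0 < c1) (h1 : c1 ≤ 1) (m : ℕ) : ∀ k : ℕ,
    ∏ j ∈ Finset.Icc 2 k, (1 + (m : ℝ) / (c1 * (j : ℝ))) ≤ (1 / c1) ^ k * ((m + k).choose k : ℝ) := by
  intro k
  induction k with
  | zero => simp
  | succ k ih =>
    have hc : 1 ≤ 1 / c1 := by rw [le_div_iff₀ h0]; linarith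
    rcases Nat.eq_zero_or_pos k with hk | hk
    · subst hk
      have : (Finset.Icc 2 (0 + 1)) = ∅ := by decide
      rw [this]
      simp only [Finset.prod_empty, zero_add, pow_one, Nat.choose_one_right]
      push_cast
      have : (0 : ℝ) ≤ m := Nat.cast_nonneg m
      nlinarith
    · have hI : Finset.Icc 2 (k + 1) = insert (k + 1) (Finset.Icc 2 k) := by
        ext x; simp only [Finset.mem_Icc, Finset.mem_insert]; omega
      rw [hI, Finset.prod_insert (by simp)]
      have hk1 : (0 : ℝ) < ((k + 1 : ℕ) : ℝ) := by positivity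
      have hm : (0 : ℝ) ≤ m := Nat.cast_nonneg m
      have e1 : 1 + (m : ℝ) / (c1 * ((k + 1 : ℕ) : ℝ)) ≤ (1 / c1) * (1 + (m : ℝ) / ((k + 1 : ℕ) : ℝ)) := by
        have : (m : ℝ) / (c1 * ((k + 1 : ℕ) : ℝ)) = (1 / c1) * ((m : ℝ) / ((k + 1 : ℕ) : ℝ)) := by
          field_simp
        rw [this]; linarith
      have e2 : (((m + (k + 1)).choose (k + 1) : ℕ) : ℝ) = (1 + (m : ℝ) / ((k + 1 : ℕ) : ℝ)) * ((m + k).choose k : ℝ) := by
        have := Nat.add_one_mul_choose_eq (m + k) k
        have h2 : (((m + k).succ * (m + k).choose k : ℕ) : ℝ) = (((m + k).succ.choose k.succ * k.succ : ℕ) : ℝ) := by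
          rw [this]
        push_cast at h2
        have h3 : (m + (k + 1)) = (m + k).succ := by omega
        rw [h3]
        push_cast at hk1 ⊢
        have h4 : (1 + (m : ℝ) / ((k : ℝ) + 1)) = ((m : ℝ) + k + 1) / ((k : ℝ) + 1) := by
          field_simp; ring
        rw [h4, div_mul_eq_mul_div, eq_div_iff hk1.ne']
        exact h2.symm
      have hP : 0 ≤ ∏ j ∈ Finset.Icc 2 k, (1 + (m : ℝ) / (c1 * (j : ℝ))) := by
        apply Finset.prod_nonneg
        intro j hj; positivity
      calc (1 + (m : ℝ) / (c1 * ((k + 1 : ℕ) : ℝ))) * ∏ j ∈ Finset.Icc 2 k, (1 + (m : ℝ) / (c1 * (j : ℝ)))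
          ≤ ((1 / c1) * (1 + (m : ℝ) / ((k + 1 : ℕ) : ℝ))) * ((1 / c1) ^ k * ((m + k).choose k : ℝ)) := by
            apply mul_le_mul e1 ih hP
            positivity
        _ = (1 / c1) ^ (k + 1) * (((m + (k + 1)).choose (k + 1) : ℕ) : ℝ) := by
            rw [e2, pow_succ]; ring

lemma conn_of_cut {W : Type} [Fintype W] (c : W → W → ℝ) (hc : ∀ i j, 0 ≤ c i j) (c0 : ℝ) (h0 : 0 < c0)
    (hcut : Cut0 c c0) (f : W → ℝ) (hf : Ew c f = 0) : ∀ u v, f u = f v := by
  intro u v
  by_contra hne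
  have hz : ∀ a b, c a b * (f a - f b) ^ 2 = 0 := by
    have h1 : ∑ a, ∑ b, c a b * (f a - f b) ^ 2 = 0 := by
      unfold Ew at hf; linarith
    have h2 : ∀ a ∈ (univ : Finset W), ∑ b, c a b * (f a - f b) ^ 2 = 0 := by
      rw [← Finset.sum_eq_zero_iff_of_nonneg]
      · exact h1
      · intro a _
        exact Finset.sum_nonneg (fun b _ => mul_nonneg (hc a b) (sq_nonneg _))
    intro a b
    have h3 := h2 a (mem_univ a)
    rw [Finset.sum_eq_zero_iff_of_nonneg (fun b _ => mul_nonneg (hc a b) (sq_nonneg _))] at h3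
    exact h3 b (mem_univ b)
  have := hcut (fun a => if f a = f u then 1 else 0) (fun b => by by_cases h : f b = f u <;> simp [h])
    ⟨v, by simp [Ne.symm hne]⟩ ⟨u, by simp⟩
  have hE : Ew c (fun a => if f a = f u then (1 : ℝ) else 0) = 0 := by
    unfold Ew
    have : ∀ a b, c a b * ((if f a = f u then (1 : ℝ) else 0) - (if f b = f u then (1 : ℝ) else 0)) ^ 2 = 0 := by
      intro a b
      rcases mul_eq_zero.1 (hz a b) with h | h
      · rw [h, zero_mul]
      · have : f a = f b := by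
          have := pow_eq_zero_iff (two_ne_zero) |>.1 h
          linarith
        rw [this]; simp
    simp [this]
  rw [hE] at this
  linarith

theorem core (h1 : StmtInd) (h2 : StmtPos) : StmtCore := by
  intro c0 h0
  set c1 : ℝ := c0 / (1 + c0) with hc1
  have hc1p : 0 < c1 := by positivity
  have hc1l : c1 ≤ 1 := by
    rw [hc1, div_le_one (by linarith)]; linarith
  have hK : (1 : ℝ) ≤ 8 / c1 := by
    rw [le_div_iff₀ hc1p]; linarith
  refine ⟨8 / c1, hK, ?_⟩
  intro W _ c hc hs κ r hκ hcut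
  have hconn := conn_of_cut c hc c0 h0 hcut
  have hT : 0 < (MK c (one r)).det := by
    apply Matrix.PosDef.det_pos
    apply h2 W c hc hs hconn
    · intro i; unfold one; split_ifs <;> norm_num
    · exact ⟨r, by simp [one]⟩
  have hI := h1 c0 h0 W c hc hs hcut (fun i => (κ i : ℝ)) r (fun i => by exact_mod_cast hκ i)
  refine hI.trans ?_
  apply mul_le_mul_of_nonneg_right _ hT.le
  set m : ℕ := ∑ i, κ i with hm
  have hmc : (∑ i, (κ i : ℝ)) = (m : ℝ) := by rw [hm]; push_cast; rfl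
  simp only [hmc]
  have hcard : Fintype.card W ≤ m := by
    rw [hm]
    calc Fintype.card W = ∑ i : W, 1 := by simp
      _ ≤ ∑ i, κ i := Finset.sum_le_sum (fun i _ => hκ i)
  set k := Fintype.card W with hk
  have hpb := prod_bound c1 hc1p hc1l m k
  have hch : ((m + k).choose k : ℝ) ≤ 4 ^ m := by
    have a1 : (m + k).choose k ≤ 2 ^ (m + k) := Nat.choose_le_two_pow _ _
    have a2 : 2 ^ (m + k) ≤ 2 ^ (m + m) := Nat.pow_le_pow_right (by norm_num) (by omega)
    have a3 : 2 ^ (m + m) = 4 ^ m := by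
      rw [← two_mul, pow_mul]; norm_num
    have : (m + k).choose k ≤ 4 ^ m := by rw [← a3]; exact a1.trans a2
    exact_mod_cast this
  have hcc : 1 ≤ 1 / c1 := by rw [le_div_iff₀ hc1p]; linarith
  have hck : (1 / c1) ^ k ≤ (1 / c1) ^ m := pow_le_pow_right₀ hcc hcard
  have hmm : (m : ℝ) ≤ 2 ^ m := by
    have : m ≤ 2 ^ m := (Nat.lt_two_pow_self).le
    exact_mod_cast this
  have hP0 : 0 ≤ ∏ j ∈ Finset.Icc 2 k, (1 + (m : ℝ) / (c1 * (j : ℝ))) := by
    apply Finset.prod_nonneg
    intro j hj; positivity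
  calc (m : ℝ) * ∏ j ∈ Finset.Icc 2 k, (1 + (m : ℝ) / (c1 * (j : ℝ)))
      ≤ 2 ^ m * ((1 / c1) ^ m * 4 ^ m) := by
        apply mul_le_mul hmm _ hP0 (by positivity)
        refine hpb.trans ?_
        apply mul_le_mul hck hch (by positivity) (by positivity)
    _ = (8 / c1) ^ m := by
        rw [← mul_pow, ← mul_pow]; congr 1; field_simp; norm_num

end

end Pool.Agent.R521.IS.Core
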