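import Pool.Agent.R521.IS.Stm

/-!
Project IS, piece COUNT: double counting.
-/

set_option autoImplicit false
set_option linter.all false

open Finset

namespace Pool.Agent.R521.IS.Count

noncomputable section
open Classical

theorem tre_nonempty {V : Type} [Fintype V] (G : SimpleGraph V) (hG : G.Connected) (y : V) :
    (Tre G y).Nonempty := by
  have h : ∀ v, ∃ u, (v = y → u = y) ∧ (v ≠ y → G.Adj v u ∧ G.dist u y < G.dist v y) := by
    intro v
    by_cases hv : v = y
    · exact ⟨y, fun _ => rfl, fun h => absurd hv h⟩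
    · obtain ⟨p, hp⟩ := (hG v y).exists_walk_length_eq_dist
      cases p with
      | nil => exact absurd rfl hv
      | @cons _ u _ h q =>
        refine ⟨u, fun h' => absurd h' hv, fun _ => ⟨h, ?_⟩⟩
        have h4 := SimpleGraph.dist_le q
        rw [← hp, SimpleGraph.Walk.length_cons]
        omega
  choose f hf1 hf2 using h
  refine ⟨f, ?_⟩
  unfold Tre
  rw [Finset.mem_filter]
  exact ⟨Finset.mem_univ _, hf1 y rfl, fun v hv => (hf2 v hv).1, fun v => G.dist v y,
    fun v hv => (hf2 v hv).2⟩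

theorem count (h1 : StmtRatio) (h2 : StmtNest) (h3 : StmtChain) : StmtCount := by
  intro M hM
  obtain ⟨K1, hK1, H1⟩ := h1 M hM
  obtain ⟨K2, hK2, H2⟩ := h2 M hM
  have hK2' : (1 : ℝ) ≤ K2 := by exact_mod_cast hK2
  refine ⟨K1 * K2, one_le_mul_of_one_le_of_one_le hK1 hK2', ?_⟩
  intro V _ G hG hR x y n hn
  set S := univ.filter (fun A : Finset V => IsCut G x y A ∧ bd G A ≤ n) with hS
  set T := Tre G y with hT
  have hTpos : (0 : ℝ) < T.card := by exact_mod_cast (tre_nonempty G hG y).card_pos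
  have e1 : ∀ A ∈ S, (T.card : ℝ) ≤ K1 ^ n * ((T.filter (fun f => crs A f = 1)).card : ℝ) := by
    intro A hA
    obtain ⟨hA1, hA2⟩ := (Finset.mem_filter.1 hA).2
    refine (H1 V G hG hR x y A hA1).trans ?_
    exact mul_le_mul_of_nonneg_right (pow_le_pow_right₀ hK1 hA2) (Nat.cast_nonneg _)
  have e2 : (S.card : ℝ) * T.card ≤
      K1 ^ n * ∑ A ∈ S, ((T.filter (fun f => crs A f = 1)).card : ℝ) := by
    rw [Finset.mul_sum, ← nsmul_eq_mul]
    exact Finset.card_nsmul_le_sum _ _ _ e1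
  have e3 : ∑ A ∈ S, (T.filter (fun f => crs A f = 1)).card =
      ∑ f ∈ T, (S.filter (fun A => crs A f = 1)).card :=
    Finset.sum_card_bipartiteAbove_eq_sum_card_bipartiteBelow (fun A f => crs A f = 1)
  have e4 : ∀ f ∈ T, (S.filter (fun A => crs A f = 1)).card ≤ K2 ^ n := by
    intro f hf
    refine H2 V G hR x y n hn _ ?_ ?_
    · intro A hA
      obtain ⟨hA, _⟩ := Finset.mem_filter.1 hA
      obtain ⟨hA1, hA2⟩ := (Finset.mem_filter.1 hA).2
      exact ⟨hA1.1, hA1.2.1, hA2⟩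
    · intro A hA B hB
      obtain ⟨hA, hAf⟩ := Finset.mem_filter.1 hA
      obtain ⟨hA1, hA2⟩ := (Finset.mem_filter.1 hA).2
      obtain ⟨hB, hBf⟩ := Finset.mem_filter.1 hB
      obtain ⟨hB1, hB2⟩ := (Finset.mem_filter.1 hB).2
      exact h3 V G x y f hf A B hA1.1 hB1.1 hA1.2.1 hB1.2.1 hAf hBf
  have e5 : ∑ A ∈ S, (T.filter (fun f => crs A f = 1)).card ≤ T.card * K2 ^ n := by
    rw [e3, ← smul_eq_mul]
    exact Finset.sum_le_card_nsmul _ _ _ e4
  have e6 : ∑ A ∈ S, ((T.filter (fun f => crs A f = 1)).card : ℝ) ≤ T.card * (K2 : ℝ) ^ n := by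
    exact_mod_cast e5
  have e7 : (S.card : ℝ) * T.card ≤ (K1 * K2) ^ n * T.card := by
    refine e2.trans ((mul_le_mul_of_nonneg_left e6 (by positivity)).trans (le_of_eq ?_))
    rw [mul_pow]
    ring
  exact le_of_mul_le_mul_right e7 hTpos

end

end Pool.Agent.R521.IS.Count
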