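import Pool.Agent.R521.IS.Stm

/-!
Project IS, piece DET: elimination of the vertices with `κ = 0` (star-mesh transformation).
-/

set_option autoImplicit false

open Finset Matrix

namespace Pool.Agent.R521.IS.Det

noncomputable section
open Classical

variable {W : Type} [Fintype W]

/-- total weight at `v` -/
def dd (c : W → W → ℝ) (v : W) : ℝ := ∑ u : {i : W // i ≠ v}, c v u

/-- new weights -/
def cc (c : W → W → ℝ) (v : W) : {i : W // i ≠ v} → {i : W // i ≠ v} → ℝ :=
  fun i j => c i j + c i v * c v j / dd c v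

/-- harmonic extension -/
def ff (c : W → W → ℝ) (v : W) (f : {i : W // i ≠ v} → ℝ) : W → ℝ := fun i =>
  if h : i = v then (∑ u : {i : W // i ≠ v}, c v u * f u) / dd c v else f ⟨i, h⟩

lemma ff_self (c : W → W → ℝ) (v : W) (f : {i : W // i ≠ v} → ℝ) :
    ff c v f v = (∑ u : {i : W // i ≠ v}, c v u * f u) / dd c v := by
  unfold ff; rw [dif_pos rfl]

lemma ff_ne (c : W → W → ℝ) (v : W) (f : {i : W // i ≠ v} → ℝ) (u : {i : W // i ≠ v}) :
    ff c v f u = f u := by
  unfold ff; rw [dif_neg u.2]

lemma split (v : W) (g : W → ℝ) : ∑ i, g i = g v + ∑ i : {i : W // i ≠ v}, g i :=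
  Fintype.sum_eq_add_sum_subtype_ne g v

lemma dbl {U : Type} [Fintype U] (p f : U → ℝ) :
    ∑ u, ∑ w, p u * p w * (f u - f w) ^ 2 =
      2 * ((∑ u, p u) * (∑ w, p w * f w ^ 2) - (∑ u, p u * f u) * (∑ w, p w * f w)) := by
  have h1 : (∑ u, p u) * (∑ w, p w * f w ^ 2) = ∑ u, ∑ w, p u * (p w * f w ^ 2) :=
    Finset.sum_mul_sum _ _ _ _
  have h2 : (∑ u, p u) * (∑ w, p w * f w ^ 2) = ∑ u, ∑ w, (p u * f u ^ 2) * p w := by
    rw [mul_comm, Finset.sum_mul_sum]
  have h3 : (∑ u, p u * f u) * (∑ w, p w * f w) = ∑ u, ∑ w, (p u * f u) * (p w * f w) :=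
    Finset.sum_mul_sum _ _ _ _
  have h4 : 2 * ((∑ u, p u) * (∑ w, p w * f w ^ 2) - (∑ u, p u * f u) * (∑ w, p w * f w)) =
      ((∑ u, p u) * (∑ w, p w * f w ^ 2) + (∑ u, p u) * (∑ w, p w * f w ^ 2)) -
        ((∑ u, p u * f u) * (∑ w, p w * f w) + (∑ u, p u * f u) * (∑ w, p w * f w)) := by ring
  rw [h4]
  nth_rewrite 1 [h1]
  rw [h2, h3]
  simp only [← Finset.sum_add_distrib, ← Finset.sum_sub_distrib]
  refine Finset.sum_congr rfl fun u _ => Finset.sum_congr rfl fun w _ => ?_
  ring

lemma sgl {U : Type} [Fintype U] (p f : U → ℝ) (m : ℝ) :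
    ∑ w, p w * (m - f w) ^ 2 = m ^ 2 * (∑ w, p w) - 2 * m * (∑ w, p w * f w) + ∑ w, p w * f w ^ 2 := by
  rw [Finset.mul_sum, Finset.mul_sum, ← Finset.sum_sub_distrib, ← Finset.sum_add_distrib]
  refine Finset.sum_congr rfl fun w _ => ?_
  ring

/-- the energy is preserved -/
lemma energy (c : W → W → ℝ) (hs : ∀ i j, c i j = c j i) (v : W) (hd : dd c v ≠ 0)
    (f : {i : W // i ≠ v} → ℝ) : Ew (cc c v) f = Ew c (ff c v f) := by
  unfold Ew
  congr 1
  rw [split v]
  have h1 : ∀ u : {i : W // i ≠ v}, ∑ w, c u w * (ff c v f u - ff c v f w) ^ 2 =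
      c v u * (ff c v f v - f u) ^ 2 + ∑ w : {i : W // i ≠ v}, c u w * (f u - f w) ^ 2 := by
    intro u
    rw [split v, ff_ne, hs u v]
    congr 1
    · ring
    · refine Finset.sum_congr rfl fun w _ => ?_
      rw [ff_ne]
  rw [Finset.sum_congr rfl fun u _ => h1 u, Finset.sum_add_distrib, split v]
  have h2 : ∑ w : {i : W // i ≠ v}, c v w * (ff c v f v - ff c v f w) ^ 2 =
      ∑ w : {i : W // i ≠ v}, c v w * (ff c v f v - f w) ^ 2 := by
    refine Finset.sum_congr rfl fun w _ => ?_
    rw [ff_ne]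
  rw [h2, sub_self, zero_pow two_ne_zero, mul_zero, zero_add]
  have h3 : ∀ u : {i : W // i ≠ v}, ∑ w : {i : W // i ≠ v}, cc c v u w * (f u - f w) ^ 2 =
      ∑ w : {i : W // i ≠ v}, c u w * (f u - f w) ^ 2 +
        (dd c v)⁻¹ * ∑ w : {i : W // i ≠ v}, c v u * c v w * (f u - f w) ^ 2 := by
    intro u
    rw [Finset.mul_sum, ← Finset.sum_add_distrib]
    refine Finset.sum_congr rfl fun w _ => ?_
    unfold cc
    rw [hs u v]
    field_simp
  rw [Finset.sum_congr rfl fun u _ => h3 u, Finset.sum_add_distrib, ← Finset.mul_sum,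
    dbl (fun u : {i : W // i ≠ v} => c v u) f, sgl (fun u : {i : W // i ≠ v} => c v u) f, ff_self]
  change _ + (dd c v)⁻¹ * (2 * (dd c v * _ - _)) = _
  have h4 : (∑ w : {i : W // i ≠ v}, c v w) = dd c v := rfl
  rw [h4]
  field_simp
  ring

lemma MK_apply (c : W → W → ℝ) (κ : W → ℝ) (i j : W) : MK c κ i j =
    (if i = j then ∑ k, c i k else 0) - c i j + (if i = j then κ i else 0) := by
  show (Lap c + diagonal κ) i j = _
  rw [Matrix.add_apply, Matrix.diagonal_apply]
  rfl

/-- splitting off `v` -/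
def eqv (v : W) : Unit ⊕ {i : W // i ≠ v} ≃ W where
  toFun := Sum.elim (fun _ => v) (fun i => i)
  invFun := fun i => if h : i = v then Sum.inl () else Sum.inr ⟨i, h⟩
  left_inv := by
    rintro (x | ⟨i, hi⟩)
    · simp
    · simp [hi]
  right_inv := by
    intro i
    by_cases h : i = v
    · simp [h]
    · simp [h]

/-- the determinant -/
lemma det_elim (c : W → W → ℝ) (κ : W → ℝ) (v : W) (hκ : κ v = 0) (hd : dd c v ≠ 0) :
    (MK c κ).det = dd c v * (MK (cc c v) (fun i : {i : W // i ≠ v} => κ i)).det := by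
  have hMvv : MK c κ v v = dd c v := by
    rw [MK_apply, if_pos rfl, if_pos rfl, hκ, split v]
    unfold dd
    ring
  let A : Matrix Unit Unit ℝ := Matrix.of fun _ _ => dd c v
  let Bm : Matrix Unit {i : W // i ≠ v} ℝ := Matrix.of fun _ j => MK c κ v j
  let C : Matrix {i : W // i ≠ v} Unit ℝ := Matrix.of fun i _ => MK c κ i v
  let D : Matrix {i : W // i ≠ v} {i : W // i ≠ v} ℝ := Matrix.of fun i j => MK c κ i j
  have h1 : (MK c κ).submatrix (eqv v) (eqv v) = Matrix.fromBlocks A Bm C D := by
    ext x y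
    rcases x with x | i <;> rcases y with y | j
    · exact hMvv
    · rfl
    · rfl
    · rfl
  rw [← Matrix.det_submatrix_equiv_self (eqv v) (MK c κ), h1]
  let hinv : Invertible A := ⟨Matrix.of fun _ _ => (dd c v)⁻¹, by
      ext a b
      rw [Matrix.mul_apply, Fintype.sum_unique, Subsingleton.elim a b, Matrix.one_apply_eq]
      exact inv_mul_cancel₀ hd, by
      ext a b
      rw [Matrix.mul_apply, Fintype.sum_unique, Subsingleton.elim a b, Matrix.one_apply_eq]
      exact mul_inv_cancel₀ hd⟩
  rw [Matrix.det_fromBlocks₁₁]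
  congr 1
  · rw [Matrix.det_unique]; rfl
  · congr 1
    ext i j
    rw [Matrix.sub_apply, Matrix.mul_apply, Fintype.sum_unique, Matrix.mul_apply, Fintype.sum_unique]
    change MK c κ i j - MK c κ i v * (dd c v)⁻¹ * MK c κ v j = _
    rw [MK_apply, MK_apply, MK_apply, MK_apply]
    rw [if_neg (i.2 : (i : W) ≠ v), if_neg (Ne.symm j.2), if_neg (i.2 : (i : W) ≠ v),
      if_neg (Ne.symm j.2)]
    have h5 : ∑ k : {i : W // i ≠ v}, cc c v i k = ∑ k, c i k := by
      rw [split v]
      unfold cc
      rw [Finset.sum_add_distrib, ← Finset.sum_div, ← Finset.mul_sum]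
      change _ + c i v * dd c v / dd c v = _
      rw [mul_div_cancel_right₀ _ hd, add_comm]
    rw [h5]
    by_cases h : i = j
    · subst h
      simp only [if_true]
      unfold cc
      field_simp
      ring
    · have h' : (i : W) ≠ (j : W) := fun e => h (Subtype.ext e)
      rw [if_neg h, if_neg h, if_neg h', if_neg h']
      unfold cc
      field_simp
      ring

theorem det (h1 : StmtCore) (h2 : StmtPos) : StmtDet := by
  intro c0 hc0
  obtain ⟨K, hK1, hK⟩ := h1 c0 hc0
  refine ⟨K, hK1, ?_⟩
  have main : ∀ (n : ℕ) (W : Type) [Fintype W] (c : W → W → ℝ), (∀ i j, 0 ≤ c i j) →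
      (∀ i j, c i j = c j i) → (∀ f : W → ℝ, Ew c f = 0 → ∀ u v, f u = f v) →
      ∀ (κ : W → ℕ) (r : W), 1 ≤ κ r → (univ.filter fun i => κ i = 0).card = n →
      (∀ f : W → ℝ, (∀ b, 1 ≤ κ b → (f b = 0 ∨ f b = 1)) → (∃ b, 1 ≤ κ b ∧ f b = 0) →
        (∃ b, 1 ≤ κ b ∧ f b = 1) → c0 ≤ Ew c f) →
      (MK c (fun i => (κ i : ℝ))).det ≤ K ^ (∑ i, κ i) * (MK c (one r)).det := by
    intro n
    induction n with
    | zero =>
      intro W _ c hc hs _ κ r hr hn hE
      have hκ : ∀ i, 1 ≤ κ i := by
        intro i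
        by_contra h
        have : i ∈ (univ.filter fun i => κ i = 0) := by simp; omega
        rw [Finset.card_eq_zero.1 hn] at this
        simp at this
      apply hK W c hc hs κ r hκ
      intro f hf h0 h1'
      obtain ⟨b, hb⟩ := h0
      obtain ⟨b', hb'⟩ := h1'
      exact hE f (fun b _ => hf b) ⟨b, hκ b, hb⟩ ⟨b', hκ b', hb'⟩
    | succ n ih =>
      intro W _ c hc hs hcon κ r hr hn hE
      obtain ⟨v, hv⟩ : ∃ v, v ∈ (univ.filter fun i => κ i = 0) := by
        apply Finset.Nonempty.exists_mem
        rw [← Finset.card_pos, hn]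
        omega
      have hκv : κ v = 0 := by simpa using hv
      have hvr : r ≠ v := by rintro rfl; omega
      have hd0 : 0 ≤ dd c v := Finset.sum_nonneg fun u _ => hc v u
      have hd : dd c v ≠ 0 := by
        intro h0
        have hz : ∀ u, u ≠ v → c v u = 0 := by
          intro u hu
          have := (Finset.sum_eq_zero_iff_of_nonneg (fun u _ => hc v _)).1 h0 (⟨u, hu⟩ : {i : W // i ≠ v}) (mem_univ _)
          exact this
        have h3 : Ew c (one v) = 0 := by
          unfold Ew
          have : ∀ u w, c u w * (one v u - one v w) ^ 2 = 0 := by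
            intro u w
            unfold one
            by_cases hu : u = v
            · by_cases hw : w = v
              · rw [if_pos hu, if_pos hw]; ring
              · rw [hu, hz w hw]; ring
            · by_cases hw : w = v
              · rw [hs u w, hw, hz u hu]; ring
              · rw [if_neg hu, if_neg hw]; ring
          simp [this]
        have h4 := hcon _ h3 v r
        unfold one at h4
        rw [if_pos rfl, if_neg hvr] at h4
        exact one_ne_zero h4
      have hdpos : 0 < dd c v := lt_of_le_of_ne hd0 (Ne.symm hd)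
      have e1 := det_elim c (fun i => (κ i : ℝ)) v (by simp [hκv]) hd
      have e2 := det_elim c (one r) v (by unfold one; rw [if_neg (Ne.symm hvr)]) hd
      have e3 : (fun i : {i : W // i ≠ v} => one r (i : W)) = one (⟨r, hvr⟩ : {i : W // i ≠ v}) := by
        funext i
        unfold one
        by_cases h : i = (⟨r, hvr⟩ : {i : W // i ≠ v})
        · rw [if_pos h, if_pos (by rw [h])]
        · rw [if_neg h, if_neg (fun e => h (Subtype.ext e))]
      rw [e3] at e2
      have e4 : ∑ i, κ i = ∑ i : {i : W // i ≠ v}, κ i := by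
        rw [Fintype.sum_eq_add_sum_subtype_ne κ v, hκv, zero_add]
      have A4 : (univ.filter fun i : {i : W // i ≠ v} => κ i = 0).card = n := by
        have : (univ.filter fun i : W => κ i = 0) =
            insert v ((univ.filter fun i : {i : W // i ≠ v} => κ i = 0).map (Function.Embedding.subtype _)) := by
          ext i
          simp only [mem_filter, mem_univ, true_and, mem_insert, mem_map,
            Function.Embedding.coe_subtype]
          constructor
          · intro h
            by_cases hi : i = v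
            · exact Or.inl hi
            · exact Or.inr ⟨⟨i, hi⟩, h, rfl⟩
          · rintro (rfl | ⟨a, ha, rfl⟩)
            · exact hκv
            · exact ha
        rw [this, Finset.card_insert_of_notMem, Finset.card_map] at hn
        · omega
        · simp
      have A5 : ∀ f : {i : W // i ≠ v} → ℝ, (∀ b : {i : W // i ≠ v}, 1 ≤ κ b → (f b = 0 ∨ f b = 1)) →
          (∃ b : {i : W // i ≠ v}, 1 ≤ κ b ∧ f b = 0) →
          (∃ b : {i : W // i ≠ v}, 1 ≤ κ b ∧ f b = 1) → c0 ≤ Ew (cc c v) f := by
        intro f hf h0 h1'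
        rw [energy c hs v hd]
        apply hE
        · intro b hb
          have hbv : b ≠ v := by rintro rfl; omega
          have := ff_ne c v f ⟨b, hbv⟩
          simp only at this
          rw [this]
          exact hf ⟨b, hbv⟩ hb
        · obtain ⟨b, hb, hfb⟩ := h0
          exact ⟨b, hb, by rw [ff_ne]; exact hfb⟩
        · obtain ⟨b, hb, hfb⟩ := h1'
          exact ⟨b, hb, by rw [ff_ne]; exact hfb⟩
      have A1 : ∀ i j, 0 ≤ cc c v i j := by
        intro i j
        unfold cc
        have := hc i j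
        have := hc i v
        have := hc v j
        positivity
      have A2 : ∀ i j, cc c v i j = cc c v j i := by
        intro i j
        unfold cc
        rw [hs i j, hs i v, hs v j]
        ring
      have A3 : ∀ f : {i : W // i ≠ v} → ℝ, Ew (cc c v) f = 0 → ∀ u w, f u = f w := by
        intro f hf u w
        rw [energy c hs v hd] at hf
        have := hcon _ hf u w
        rwa [ff_ne, ff_ne] at this
      have hfin := ih {i : W // i ≠ v} (cc c v) A1 A2 A3 (fun i => κ i) ⟨r, hvr⟩ hr A4 A5
      rw [e1, e2, e4, mul_left_comm]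
      apply mul_le_mul_of_nonneg_left _ hd0
      have hdet : ∀ κ' : {i : W // i ≠ v} → ℝ, (MK (cc c v) κ').det =
          @Matrix.det _ (fun a b => Classical.propDecidable (a = b)) _ _ _ (MK (cc c v) κ') :=
        fun κ' => by congr
      rw [hdet, hdet]
      exact hfin
  intro W _ c hc hs hcon κ r hr hE
  exact main _ W c hc hs hcon κ r hr rfl hE

end

end Pool.Agent.R521.IS.Det
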