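import Mathlib
import Pool.Agent.R521.IS.Stm

set_option autoImplicit false

open Finset Matrix

namespace Pool.Agent.R521.IS.Final

open Pool.Agent.R521.IS

open Classical in
/-- the main statement -/
def Main : Prop := ∀ ε : ℝ, 0 < ε → ∀ M : ℝ, 0 < M → ∃ βc : ℝ, ∀ (V : Type) [Fintype V] (G : SimpleGraph V),
  G.Connected →
  (∀ i j : V, i ≠ j → ∀ u : V → ℝ, IsGreen G i j u → u i / (∑ v, if G.Adj i v then (1 : ℝ) else 0) ≤ M) →
  ∀ x y : V, ∀ β : ℝ, βc < β → 1 - ε ≤ corr G β x y

open Classical in
theorem bd_pos {V : Type} [Fintype V] (G : SimpleGraph V) (hG : G.Connected) (x y : V) (A : Finset V)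
    (hx : x ∈ A) (hy : y ∉ A) : 1 ≤ bd G A := by
  obtain ⟨p⟩ := hG.preconnected x y
  obtain ⟨d, -, hd1, hd2⟩ := p.exists_boundary_dart (A : Set V) (by simpa using hx) (by simpa using hy)
  unfold bd
  rw [Nat.one_le_iff_ne_zero, Ne, Finset.card_eq_zero, Finset.filter_eq_empty_iff]
  intro h
  exact h (Finset.mem_univ (d.fst, d.snd)) ⟨by simpa using hd1, by simpa using hd2, d.adj⟩

open Classical in
theorem final (h1 : StmtGre) (h2 : StmtCount) (h3 : StmtPei) : Main := by
  intro ε hε M hM
  obtain ⟨K, hK1, hK⟩ := h2 M hM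
  set q0 : ℝ := min (1/2) (ε/8) with hq0
  have hq0pos : 0 < q0 := by
    rw [hq0]; exact lt_min (by norm_num) (by linarith)
  have hKpos : 0 < K := by linarith
  refine ⟨(1/2) * Real.log (K / q0), ?_⟩
  intro V _ G hG hgr x y β hβ
  have hRes : ResLe G M := h1 V G hG M hM hgr
  have hPei := h3 V G hG β x y
  set q : ℝ := K * Real.exp (-(2 * β)) with hq
  have hqpos : 0 < q := by positivity
  have hqle : q ≤ q0 := by
    have h4 : Real.log (K / q0) ≤ 2 * β := by linarith
    have h5 : K / q0 ≤ Real.exp (2 * β) := by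
      calc K / q0 = Real.exp (Real.log (K / q0)) := (Real.exp_log (by positivity)).symm
        _ ≤ Real.exp (2 * β) := Real.exp_le_exp.2 h4
    rw [div_le_iff₀ hq0pos] at h5
    rw [hq, Real.exp_neg]
    rw [← div_eq_mul_inv, div_le_iff₀ (Real.exp_pos _)]
    linarith
  have hqh : q ≤ 1/2 := le_trans hqle (min_le_left _ _)
  have hqe : q ≤ ε/8 := le_trans hqle (min_le_right _ _)
  set S : Finset (Finset V) := univ.filter (fun A : Finset V => IsCut G x y A) with hS
  set N : ℕ := S.sup (bd G) with hN
  have hmaps : ∀ A ∈ S, bd G A ∈ Finset.range (N + 1) := by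
    intro A hA
    rw [Finset.mem_range]
    exact Nat.lt_succ_of_le (Finset.le_sup (f := bd G) hA)
  have hsum : ∑ A ∈ S, Real.exp (-(2 * β * (bd G A : ℝ))) ≤ 2 * q := by
    rw [← Finset.sum_fiberwise_of_maps_to hmaps]
    have hb : ∀ n ∈ Finset.range (N + 1),
        ∑ A ∈ S.filter (fun A => bd G A = n), Real.exp (-(2 * β * (bd G A : ℝ))) ≤
          (if n = 0 then 0 else q ^ n) := by
      intro n _
      by_cases hn : n = 0
      · rw [if_pos hn]
        apply le_of_eq
        apply Finset.sum_eq_zero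
        intro A hA
        rw [Finset.mem_filter, hS, Finset.mem_filter] at hA
        have := bd_pos G hG x y A hA.1.2.1 hA.1.2.2.1
        omega
      · rw [if_neg hn]
        have hn1 : 1 ≤ n := Nat.one_le_iff_ne_zero.2 hn
        have e1 : ∑ A ∈ S.filter (fun A => bd G A = n), Real.exp (-(2 * β * (bd G A : ℝ))) =
            ((S.filter (fun A => bd G A = n)).card : ℝ) * Real.exp (-(2 * β * (n : ℝ))) := by
          rw [← nsmul_eq_mul, ← Finset.sum_const]
          apply Finset.sum_congr rfl
          intro A hA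
          rw [(Finset.mem_filter.1 hA).2]
        rw [e1]
        have e2 : ((S.filter (fun A => bd G A = n)).card : ℝ) ≤ K ^ n := by
          refine le_trans ?_ (hK V G hG hRes x y n hn1)
          exact_mod_cast Finset.card_le_card (by
            intro A hA
            rw [Finset.mem_filter, hS, Finset.mem_filter] at hA
            rw [Finset.mem_filter]
            exact ⟨Finset.mem_univ _, hA.1.2, hA.2.le⟩)
        have e3 : Real.exp (-(2 * β * (n : ℝ))) = Real.exp (-(2 * β)) ^ n := by
          rw [← Real.exp_nat_mul]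
          congr 1
          ring
        rw [e3, hq, mul_pow]
        exact mul_le_mul_of_nonneg_right e2 (by positivity)
    refine le_trans (Finset.sum_le_sum hb) ?_
    rw [Finset.sum_range_succ']
    simp only [Nat.succ_ne_zero, if_false, if_true, add_zero]
    have e4 : ∑ k ∈ Finset.range N, q ^ (k + 1) = q * ∑ k ∈ Finset.range N, q ^ k := by
      rw [Finset.mul_sum]
      apply Finset.sum_congr rfl
      intro k _
      ring
    have e5 : ∑ k ∈ Finset.range N, q ^ k ≤ 2 := by
      have e6 : ∀ k ∈ Finset.range N, q ^ k ≤ (1/2 : ℝ) ^ k := by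
        intro k _
        exact pow_le_pow_left₀ hqpos.le hqh k
      refine le_trans (Finset.sum_le_sum e6) ?_
      have e7 := sum_geometric_two_le N
      simpa using e7
    rw [e4]
    nlinarith [e5, hqpos]
  have hfin : 1 - ε ≤ 1 - 2 * ∑ A ∈ S, Real.exp (-(2 * β * (bd G A : ℝ))) := by linarith
  exact le_trans hfin hPei

end Pool.Agent.R521.IS.Final
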