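import Mathlib
import Pool.Agent.R521.IS.Stm

/-!
Project IS, piece IS-FLIP: flipping the spins in `A`.
-/

set_option autoImplicit false
set_option linter.unusedVariables false

open Finset Matrix

namespace Pool.Agent.R521.IS.Flip

open Pool.Agent.R521.IS

noncomputable section
open Classical

/-- flip the spins in `A`. -/
def fl {V : Type} (A : Finset V) (σ : V → Bool) : V → Bool := fun v => if v ∈ A then !(σ v) else σ v

lemma fl_invol {V : Type} (A : Finset V) : Function.Involutive (fl A) := by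
  intro σ
  funext v
  unfold fl
  by_cases h : v ∈ A <;> simp [h]

lemma sp_not (b : Bool) : sp (!b) = - sp b := by
  cases b <;> simp [sp]

lemma sp_ne {a b : Bool} (h : a ≠ b) : sp a * sp b = -1 := by
  cases a <;> cases b <;> simp_all [sp]

lemma bd_eq {V : Type} [Fintype V] (G : SimpleGraph V) (A : Finset V) :
    (bd G A : ℝ) = ∑ u, ∑ v, if (u ∈ A ∧ v ∉ A ∧ G.Adj u v) then (1 : ℝ) else 0 := by
  unfold bd
  rw [Finset.card_filter]
  push_cast
  rw [Fintype.sum_prod_type]

lemma bd_eq' {V : Type} [Fintype V] (G : SimpleGraph V) (A : Finset V) :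
    (bd G A : ℝ) = ∑ u, ∑ v, if (v ∈ A ∧ u ∉ A ∧ G.Adj u v) then (1 : ℝ) else 0 := by
  rw [bd_eq, Finset.sum_comm]
  refine Finset.sum_congr rfl fun u _ => Finset.sum_congr rfl fun v _ => ?_
  simp only [G.adj_comm u v]

lemma term_eq {V : Type} [Fintype V] (G : SimpleGraph V) (A : Finset V) (σ : V → Bool)
    (h : ∀ u ∈ A, ∀ v, v ∉ A → G.Adj u v → σ u ≠ σ v) (u v : V) :
    (if G.Adj u v then sp (fl A σ u) * sp (fl A σ v) else 0) =
      (if G.Adj u v then sp (σ u) * sp (σ v) else 0)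
      + 2 * (if (u ∈ A ∧ v ∉ A ∧ G.Adj u v) then (1 : ℝ) else 0)
      + 2 * (if (v ∈ A ∧ u ∉ A ∧ G.Adj u v) then (1 : ℝ) else 0) := by
  by_cases huv : G.Adj u v
  · by_cases hu : u ∈ A <;> by_cases hv : v ∈ A
    · simp [fl, hu, hv, huv, sp_not]
    · have h1 := sp_ne (h u hu v hv huv)
      simp only [fl, hu, hv, huv, sp_not, if_true, if_false, not_true_eq_false, not_false_eq_true,
        and_true, true_and, and_false, false_and]
      linarith
    · have h1 := sp_ne (h v hv u hu huv.symm)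
      simp only [fl, hu, hv, huv, sp_not, if_true, if_false, not_true_eq_false, not_false_eq_true,
        and_true, true_and, and_false, false_and]
      linarith
    · simp [fl, hu, hv, huv]
  · simp [huv]

lemma wt_eq {V : Type} [Fintype V] (G : SimpleGraph V) (β : ℝ) (A : Finset V) (σ : V → Bool)
    (h : ∀ u ∈ A, ∀ v, v ∉ A → G.Adj u v → σ u ≠ σ v) :
    wt G β σ = Real.exp (-(2 * β * (bd G A : ℝ))) * wt G β (fl A σ) := by
  unfold wt
  rw [← Real.exp_add]
  congr 1
  have h1 : (∑ u, ∑ v, if G.Adj u v then sp (fl A σ u) * sp (fl A σ v) else 0) =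
      (∑ u, ∑ v, if G.Adj u v then sp (σ u) * sp (σ v) else 0) + 2 * (bd G A : ℝ)
        + 2 * (bd G A : ℝ) := by
    conv_rhs => rw [bd_eq]
    conv_rhs => arg 2; rw [← bd_eq, bd_eq']
    rw [Finset.mul_sum, Finset.mul_sum, ← Finset.sum_add_distrib, ← Finset.sum_add_distrib]
    refine Finset.sum_congr rfl fun u _ => ?_
    rw [Finset.mul_sum, Finset.mul_sum, ← Finset.sum_add_distrib, ← Finset.sum_add_distrib]
    exact Finset.sum_congr rfl fun v _ => term_eq G A σ h u v
  rw [h1]
  ring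

theorem flip : StmtFlip := by
  intro V _ G β A
  have h1 : (∑ σ ∈ (univ.filter (fun σ : V → Bool => ∀ u ∈ A, ∀ v, v ∉ A → G.Adj u v → σ u ≠ σ v)),
      wt G β σ) = Real.exp (-(2 * β * (bd G A : ℝ))) *
      ∑ σ ∈ (univ.filter (fun σ : V → Bool => ∀ u ∈ A, ∀ v, v ∉ A → G.Adj u v → σ u ≠ σ v)),
      wt G β (fl A σ) := by
    rw [Finset.mul_sum]
    refine Finset.sum_congr rfl fun σ hσ => wt_eq G β A σ ?_
    exact (Finset.mem_filter.1 hσ).2
  rw [h1]
  refine mul_le_mul_of_nonneg_left ?_ (Real.exp_pos _).le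
  calc _ ≤ ∑ σ : V → Bool, wt G β (fl A σ) :=
        Finset.sum_le_sum_of_subset_of_nonneg (Finset.filter_subset _ _)
          (fun σ _ _ => (Real.exp_pos _).le)
    _ = ∑ σ : V → Bool, wt G β σ :=
        Equiv.sum_comp (Function.Involutive.toPerm (fl A) (fl_invol A)) (fun σ => wt G β σ)

end

end Pool.Agent.R521.IS.Flip
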