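import Pool.Agent.R521.IS.Stm

/-!
Project IS, piece IS-GEX: existence and uniqueness of the Green function (maximum principle and finite dimension).
-/

set_option autoImplicit false

open Finset

namespace Pool.Agent.R521.IS.Gex

noncomputable section
open Classical

variable {V : Type} [Fintype V]

/-- the neighbours of a maximum where the mean value property holds -/
lemma nb (G : SimpleGraph V) (u : V → ℝ) (s v : V)
    (hs : u s = (∑ w, if G.Adj s w then u w else 0) / (∑ w, if G.Adj s w then (1 : ℝ) else 0))
    (hM : ∀ w, u w ≤ u s) (hv : G.Adj s v) : u v = u s := by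
  have hd : 0 < ∑ w, if G.Adj s w then (1 : ℝ) else 0 := by
    apply Finset.sum_pos'
    · intro w _
      split_ifs <;> norm_num
    · exact ⟨v, mem_univ v, by simp [hv]⟩
  rw [eq_div_iff hd.ne'] at hs
  have h0 : ∑ w, (if G.Adj s w then u s - u w else 0) = 0 := by
    have h1 : ∑ w, (if G.Adj s w then u s - u w else 0) =
        u s * (∑ w, if G.Adj s w then (1 : ℝ) else 0) - ∑ w, (if G.Adj s w then u w else 0) := by
      rw [Finset.mul_sum, ← Finset.sum_sub_distrib]
      apply Finset.sum_congr rfl
      intro w _
      split_ifs <;> ring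
    rw [h1, hs, sub_self]
  have h2 := (Finset.sum_eq_zero_iff_of_nonneg (fun w _ => by
    split_ifs
    · linarith [hM w]
    · exact le_rfl)).1 h0 v (mem_univ v)
  rw [if_pos hv] at h2
  linarith

lemma walk (G : SimpleGraph V) (u : V → ℝ) (j : V) (M : ℝ) (hM : ∀ w, u w ≤ M)
    (hs : ∀ s, s ≠ j → u s = (∑ w, if G.Adj s w then u w else 0) / (∑ w, if G.Adj s w then (1 : ℝ) else 0))
    (s : V) (p : G.Walk s j) (h : u s = M) : u j = M := by
  induction p with
  | nil => exact h
  | cons hadj p ih =>
    rename_i a b c
    by_cases hj : a = c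
    · rw [← hj]; exact h
    · apply ih hs
      rw [nb G u a b (hs a hj) (fun w => by rw [h]; exact hM w) hadj, h]

lemma maxp (G : SimpleGraph V) (hG : G.Connected) (u : V → ℝ) (j : V) (hj : u j = 0)
    (hs : ∀ s, s ≠ j → u s = (∑ w, if G.Adj s w then u w else 0) / (∑ w, if G.Adj s w then (1 : ℝ) else 0))
    (s : V) : u s ≤ 0 := by
  have : Nonempty V := ⟨j⟩
  obtain ⟨s0, hs0⟩ := Finite.exists_max u
  obtain ⟨p⟩ := hG.preconnected s0 j
  have h := walk G u j (u s0) hs0 hs s0 p rfl
  rw [← hj, h]
  exact hs0 s

/-- the linear map -/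
def T (G : SimpleGraph V) (j : V) : (V → ℝ) →ₗ[ℝ] (V → ℝ) where
  toFun u := fun s => if s = j then u j else
    u s - (∑ w, if G.Adj s w then u w else 0) / (∑ w, if G.Adj s w then (1 : ℝ) else 0)
  map_add' u v := by
    funext s
    simp only [Pi.add_apply]
    have h : (∑ w, if G.Adj s w then u w + v w else 0) =
        (∑ w, if G.Adj s w then u w else 0) + ∑ w, if G.Adj s w then v w else 0 := by
      rw [← Finset.sum_add_distrib]
      apply Finset.sum_congr rfl
      intro w _
      split_ifs <;> ring
    rw [h]
    split_ifs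
    · rfl
    · ring
  map_smul' c u := by
    funext s
    simp only [Pi.smul_apply, smul_eq_mul, RingHom.id_apply]
    have h : (∑ w, if G.Adj s w then c * u w else 0) = c * ∑ w, if G.Adj s w then u w else 0 := by
      rw [Finset.mul_sum]
      apply Finset.sum_congr rfl
      intro w _
      split_ifs <;> ring
    rw [h]
    split_ifs
    · rfl
    · ring

lemma T_inj (G : SimpleGraph V) (hG : G.Connected) (j : V) : Function.Injective (T G j) := by
  rw [← LinearMap.ker_eq_bot, LinearMap.ker_eq_bot']
  intro u hu
  have hj : u j = 0 := by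
    have := congrFun hu j
    simpa [T] using this
  have hs : ∀ s, s ≠ j → u s = (∑ w, if G.Adj s w then u w else 0) /
      (∑ w, if G.Adj s w then (1 : ℝ) else 0) := by
    intro s hsj
    have h1 := congrFun hu s
    have h2 : u s - (∑ w, if G.Adj s w then u w else 0) / (∑ w, if G.Adj s w then (1 : ℝ) else 0) = 0 := by
      have h3 : (T G j) u s = if s = j then u j else
        u s - (∑ w, if G.Adj s w then u w else 0) / (∑ w, if G.Adj s w then (1 : ℝ) else 0) := rfl
      rw [h3, if_neg hsj] at h1
      exact h1
    linarith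
  funext s
  have h1 := maxp G hG u j hj hs s
  have h2 := maxp G hG (fun v => - u v) j (by simp [hj]) (fun s hsj => by
    have h3 := hs s hsj
    have h4 : (∑ w, if G.Adj s w then - u w else 0) = - ∑ w, if G.Adj s w then u w else 0 := by
      rw [← Finset.sum_neg_distrib]
      apply Finset.sum_congr rfl
      intro w _
      split_ifs <;> ring
    show - u s = (∑ w, if G.Adj s w then - u w else 0) / _
    rw [h4, neg_div, ← h3]) s
  simp only [Pi.zero_apply]

  linarith

lemma green_iff (G : SimpleGraph V) (i j : V) (hij : i ≠ j) (u : V → ℝ) :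
    IsGreen G i j u ↔ T G j u = fun s => if s = i then 1 else 0 := by
  have h3 : ∀ s, (T G j) u s = if s = j then u j else
        u s - (∑ w, if G.Adj s w then u w else 0) / (∑ w, if G.Adj s w then (1 : ℝ) else 0) := fun s => rfl
  constructor
  · rintro ⟨h1, h2⟩
    funext s
    rw [h3]
    by_cases hs : s = j
    · rw [if_pos hs, h1, hs, if_neg (Ne.symm hij)]
    · rw [if_neg hs]
      have := h2 s hs
      linarith
  · intro h
    refine ⟨?_, fun s hs => ?_⟩
    · have := congrFun h j
      rw [h3, if_pos rfl, if_neg (Ne.symm hij)] at this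
      exact this
    · have := congrFun h s
      rw [h3, if_neg hs] at this
      linarith

theorem gex : StmtGex := by
  intro V _ G hG i j hij
  have hinj := T_inj G hG j
  obtain ⟨u, hu⟩ := (LinearMap.injective_iff_surjective (f := T G j)).1 hinj (fun s => if s = i then 1 else 0)
  refine ⟨u, (green_iff G i j hij u).2 hu, fun v hv => ?_⟩
  apply hinj
  rw [hu]
  exact (green_iff G i j hij v).1 hv

end

end Pool.Agent.R521.IS.Gex
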