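import Pool.Agent.R521.IS.Stm

set_option autoImplicit false

open Finset

namespace Pool.Agent.R521.IS.Gre

open Pool.Agent.R521.IS
open Classical

noncomputable section

/-- adjacency weights -/
def w {V : Type} (G : SimpleGraph V) (s v : V) : ℝ := if G.Adj s v then 1 else 0

theorem w_comm {V : Type} (G : SimpleGraph V) (s v : V) : w G s v = w G v s := by
  unfold w
  by_cases h : G.Adj s v
  · rw [if_pos h, if_pos h.symm]
  · rw [if_neg h, if_neg (fun h' => h h'.symm)]

theorem w_nonneg {V : Type} (G : SimpleGraph V) (s v : V) : 0 ≤ w G s v := by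
  unfold w
  split_ifs <;> norm_num

/-- Laplacian -/
def L {V : Type} [Fintype V] (G : SimpleGraph V) (g : V → ℝ) (s : V) : ℝ :=
  ∑ v, w G s v * (g s - g v)

theorem En_eq {V : Type} [Fintype V] (G : SimpleGraph V) (f : V → ℝ) :
    En G f = (1 / 2) * ∑ u, ∑ v, w G u v * (f u - f v) ^ 2 := by
  unfold En w
  congr 1
  refine Finset.sum_congr rfl fun u _ => Finset.sum_congr rfl fun v _ => ?_
  by_cases h : G.Adj u v
  · rw [if_pos h, if_pos h]; ring
  · rw [if_neg h, if_neg h]; ring

theorem En_nonneg {V : Type} [Fintype V] (G : SimpleGraph V) (f : V → ℝ) : 0 ≤ En G f := by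
  rw [En_eq]
  refine mul_nonneg (by norm_num) (Finset.sum_nonneg fun u _ => Finset.sum_nonneg fun v _ => ?_)
  exact mul_nonneg (w_nonneg G u v) (sq_nonneg _)

/-- the bilinear form -/
def B {V : Type} [Fintype V] (G : SimpleGraph V) (g f : V → ℝ) : ℝ :=
  ∑ u, ∑ v, w G u v * ((g u - g v) * (f u - f v))

theorem B_eq {V : Type} [Fintype V] (G : SimpleGraph V) (g f : V → ℝ) :
    B G g f = 2 * ∑ s, f s * L G g s := by
  have h1 : B G g f = ∑ u, ∑ v, w G u v * (g u - g v) * f u -
      ∑ u, ∑ v, w G u v * (g u - g v) * f v := by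
    unfold B
    rw [← Finset.sum_sub_distrib]
    refine Finset.sum_congr rfl fun u _ => ?_
    rw [← Finset.sum_sub_distrib]
    refine Finset.sum_congr rfl fun v _ => ?_
    ring
  have h2 : ∑ u, ∑ v, w G u v * (g u - g v) * f u = ∑ s, f s * L G g s := by
    refine Finset.sum_congr rfl fun u _ => ?_
    unfold L
    rw [Finset.mul_sum]
    refine Finset.sum_congr rfl fun v _ => ?_
    ring
  have h3 : ∑ u, ∑ v, w G u v * (g u - g v) * f v = - ∑ s, f s * L G g s := by
    rw [Finset.sum_comm, ← h2, ← Finset.sum_neg_distrib]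
    refine Finset.sum_congr rfl fun u _ => ?_
    rw [← Finset.sum_neg_distrib]
    refine Finset.sum_congr rfl fun v _ => ?_
    rw [w_comm G v u]
    ring
  rw [h1, h2, h3]
  ring

theorem En_sub {V : Type} [Fintype V] (G : SimpleGraph V) (f g : V → ℝ) (t : ℝ) :
    En G (fun s => f s - t * g s) = En G f - t * B G g f + t ^ 2 * En G g := by
  rw [En_eq, En_eq, En_eq]
  unfold B
  have : ∑ u, ∑ v, w G u v * ((f u - t * g u) - (f v - t * g v)) ^ 2 =
      ∑ u, ∑ v, w G u v * (f u - f v) ^ 2 - 2 * t * (∑ u, ∑ v, w G u v * ((g u - g v) * (f u - f v)))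
        + t ^ 2 * ∑ u, ∑ v, w G u v * (g u - g v) ^ 2 := by
    rw [Finset.mul_sum, Finset.mul_sum, ← Finset.sum_sub_distrib, ← Finset.sum_add_distrib]
    refine Finset.sum_congr rfl fun u _ => ?_
    rw [Finset.mul_sum, Finset.mul_sum, ← Finset.sum_sub_distrib, ← Finset.sum_add_distrib]
    refine Finset.sum_congr rfl fun v _ => ?_
    ring
  rw [this]
  ring

theorem gre (h : StmtGex) : StmtGre := by
  intro V _ G hG M hM hb x y f
  by_cases hxy : x = y
  · subst hxy
    have := mul_nonneg hM.le (En_nonneg G f)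
    simpa using this
  obtain ⟨u, ⟨hu0, hu⟩, _⟩ := h V G hG x y hxy
  have hux := hb x y hxy u ⟨hu0, hu⟩
  set dg : V → ℝ := fun s => ∑ v, if G.Adj s v then (1 : ℝ) else 0 with hdgdef
  have hdg : ∀ s, 0 < dg s := by
    intro s
    obtain ⟨t, ht⟩ : ∃ t, t ≠ s := by
      by_cases hs : x = s
      · exact ⟨y, fun h' => hxy (hs.trans h'.symm)⟩
      · exact ⟨x, hs⟩
    obtain ⟨p⟩ := hG.preconnected s t
    have hadj : ∃ v, G.Adj s v := by
      cases p with
      | nil => exact absurd rfl ht
      | cons hadj _ => exact ⟨_, hadj⟩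
    obtain ⟨v, hv⟩ := hadj
    have h1 : (if G.Adj s v then (1 : ℝ) else 0) ≤ dg s :=
      Finset.single_le_sum (f := fun v => if G.Adj s v then (1 : ℝ) else 0)
        (fun i _ => by split_ifs <;> norm_num) (Finset.mem_univ v)
    rw [if_pos hv] at h1
    linarith
  have hdx := hdg x
  have hLu : ∀ s, s ≠ y → L G u s = dg s * (if s = x then 1 else 0) := by
    intro s hs
    have h1 := hu s hs
    have h2 : (∑ v, if G.Adj s v then u v else 0) = ∑ v, w G s v * u v := by
      refine Finset.sum_congr rfl fun v _ => ?_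
      unfold w
      by_cases hv : G.Adj s v
      · rw [if_pos hv, if_pos hv, one_mul]
      · rw [if_neg hv, if_neg hv, zero_mul]
    have h3 : L G u s = dg s * u s - ∑ v, w G s v * u v := by
      unfold L
      rw [hdgdef]
      simp only [mul_sub, Finset.sum_sub_distrib, Finset.sum_mul]
      rfl
    have h4 : dg s ≠ 0 := (hdg s).ne'
    rw [h3, ← h2]
    change u s = (if s = x then 1 else 0) + (∑ v, if G.Adj s v then u v else 0) / dg s at h1
    have h5 : dg s * u s = dg s * (if s = x then 1 else 0) +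
        (∑ v, if G.Adj s v then u v else 0) := by
      conv_lhs => rw [h1]
      rw [mul_add, mul_div_cancel₀ _ h4]
    linarith
  -- the normalised Green function
  set g : V → ℝ := fun s => u s / dg x with hg
  have hLg : ∀ s, s ≠ y → L G g s = if s = x then 1 else 0 := by
    intro s hs
    have h1 : L G g s = L G u s / dg x := by
      unfold L
      rw [Finset.sum_div]
      refine Finset.sum_congr rfl fun v _ => ?_
      rw [hg]
      ring
    rw [h1, hLu s hs]
    by_cases hsx : s = x
    · rw [if_pos hsx, hsx, mul_one, div_self hdx.ne']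
    · rw [if_neg hsx, mul_zero, zero_div]
  have hgy : g y = 0 := by
    rw [hg]
    simp [hu0]
  have hB : ∀ k : V → ℝ, B G g k = 2 * (k x - k y) := by
    intro k
    have h1 : B G g k = B G g (fun s => k s - k y) := by
      unfold B
      refine Finset.sum_congr rfl fun a _ => Finset.sum_congr rfl fun b _ => ?_
      ring
    rw [h1, B_eq]
    congr 1
    rw [Finset.sum_eq_single x]
    · rw [hLg x hxy, if_pos rfl, mul_one]
    · intro s _ hs
      by_cases hsy : s = y
      · rw [hsy]; simp
      · rw [hLg s hsy, if_neg hs, mul_zero]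
    · intro hx
      exact absurd (Finset.mem_univ x) hx
  have hEg : En G g = g x := by
    have h1 : En G g = (1 / 2) * B G g g := by
      rw [En_eq]
      unfold B
      congr 1
      refine Finset.sum_congr rfl fun a _ => Finset.sum_congr rfl fun b _ => ?_
      ring
    rw [h1, hB g, hgy]
    ring
  have hgM : En G g ≤ M := by
    rw [hEg]
    exact hux
  have hfin := En_nonneg G (fun s => f s - ((f x - f y) / M) * g s)
  rw [En_sub, hB f] at hfin
  have h6 : ((f x - f y) / M) ^ 2 * En G g ≤ ((f x - f y) / M) ^ 2 * M :=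
    mul_le_mul_of_nonneg_left hgM (sq_nonneg _)
  have h7 : 0 ≤ En G f - ((f x - f y) / M) * (2 * (f x - f y)) + ((f x - f y) / M) ^ 2 * M := by
    linarith
  have h8 : ((f x - f y) / M) * (2 * (f x - f y)) - ((f x - f y) / M) ^ 2 * M =
      (f x - f y) ^ 2 / M := by
    field_simp
    ring
  have h9 : (f x - f y) ^ 2 / M ≤ En G f := by
    linarith
  rw [div_le_iff₀ hM] at h9
  linarith

end

end Pool.Agent.R521.IS.Gre
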