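import Pool.Agent.R521.IS.Stm

set_option autoImplicit false
set_option linter.unusedVariables false
set_option linter.unusedSectionVars false

open Finset Matrix

namespace Pool.Agent.R521.IS.Ind

noncomputable section
open Classical

variable {W : Type} [Fintype W]

/-- merged weights -/
def cm (c : W → W → ℝ) (a b : W) : {i : W // i ≠ b} → {i : W // i ≠ b} → ℝ :=
  fun i j => c i j + (if (i : W) = a then c b j else 0) + (if (j : W) = a then c i b else 0)
    + (if (i : W) = a ∧ (j : W) = a then c b b else 0)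

/-- merged killing rates -/
def km (κ : W → ℝ) (a b : W) : {i : W // i ≠ b} → ℝ :=
  fun i => κ i + (if (i : W) = a then κ b else 0)

theorem sum_split (F : W → ℝ) (b : W) : ∑ i, F i = F b + ∑ i : {i : W // i ≠ b}, F i :=
  Fintype.sum_eq_add_sum_subtype_ne F b

theorem sum_a (a b : W) (hab : a ≠ b) (F : {i : W // i ≠ b} → ℝ) :
    ∑ i : {i : W // i ≠ b}, (if (i : W) = a then F i else 0) = F ⟨a, hab⟩ := by
  rw [Finset.sum_eq_single (⟨a, hab⟩ : {i : W // i ≠ b})]
  · simp
  · intro i _ hi
    have : (i : W) ≠ a := fun h => hi (Subtype.ext h)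
    simp [this]
  · intro h
    exact absurd (Finset.mem_univ _) h

theorem sum_cm (c : W → W → ℝ) (a b : W) (hab : a ≠ b) (i : {i : W // i ≠ b}) :
    ∑ j, cm c a b i j = (∑ j, c i j) + (if (i : W) = a then ∑ j, c b j else 0) := by
  unfold cm
  rw [Finset.sum_add_distrib, Finset.sum_add_distrib, Finset.sum_add_distrib]
  rw [sum_a a b hab (fun _ => c i b)]
  rw [sum_split (fun j => c i j) b, sum_split (fun j => c b j) b]
  by_cases h : (i : W) = a
  · simp only [h, if_true, true_and]
    rw [sum_a a b hab (fun _ => c b b)]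
    ring
  · simp only [h, if_false, false_and, Finset.sum_const_zero]
    ring

theorem MK_apply' {V : Type} [Fintype V] (c : V → V → ℝ) (κ : V → ℝ) (i j : V) :
    MK c κ i j = (if i = j then ∑ k, c i k + κ i else 0) - c i j := by
  unfold MK Lap
  rw [Matrix.add_apply]
  by_cases h : i = j
  · subst h
    rw [Matrix.diagonal_apply_eq]
    simp
    ring
  · rw [Matrix.diagonal_apply_ne _ h]
    simp [h]

theorem mrg_MK (c : W → W → ℝ) (κ : W → ℝ) (a b : W) (hab : a ≠ b) :
    mrg (MK c κ) a b = MK (cm c a b) (km κ a b) := by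
  ext i j
  have hib : (i : W) ≠ b := i.2
  have hjb : (j : W) ≠ b := j.2
  have hbj : b ≠ (j : W) := fun h => hjb h.symm
  rw [MK_apply', sum_cm c a b hab]
  show MK c κ i j + (if (i : W) = a then MK c κ b j else 0) + (if (j : W) = a then MK c κ i b else 0)
    + (if (i : W) = a ∧ (j : W) = a then MK c κ b b else 0) = _
  rw [MK_apply', MK_apply', MK_apply', MK_apply', if_neg hbj, if_neg hib, if_pos rfl]
  by_cases hij : i = j
  · subst hij
    rw [if_pos rfl, if_pos rfl]
    by_cases hia : (i : W) = a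
    · simp only [cm, km, if_pos hia, if_pos (And.intro hia hia)]
      ring
    · have hn : ¬ ((i : W) = a ∧ (i : W) = a) := fun h => hia h.1
      simp only [cm, km, if_neg hia, if_neg hn]
      ring
  · have hij' : (i : W) ≠ (j : W) := fun h => hij (Subtype.ext h)
    rw [if_neg hij, if_neg hij']
    have hn : ¬ ((i : W) = a ∧ (j : W) = a) := fun h => hij' (h.1.trans h.2.symm)
    simp only [cm, if_neg hn]
    by_cases hia : (i : W) = a
    · have hja : ¬ (j : W) = a := fun h => hn ⟨hia, h⟩
      simp only [if_pos hia, if_neg hja]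
      ring
    · by_cases hja : (j : W) = a
      · simp only [if_neg hia, if_pos hja]
        ring
      · simp only [if_neg hia, if_neg hja]
        ring

theorem km_one (a b r : W) (hab : a ≠ b) (hbr : b ≠ r) :
    km (one r) a b = one (⟨r, fun h => hbr h.symm⟩ : {i : W // i ≠ b}) := by
  funext i
  unfold km one
  have h1 : (b = r) = False := by simp [hbr]
  have h2 : (i = (⟨r, fun h => hbr h.symm⟩ : {i : W // i ≠ b})) ↔ (i : W) = r := by
    constructor
    · intro h; rw [h]
    · intro h; exact Subtype.ext h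
  simp only [h1, if_false, ite_self, add_zero, h2]

theorem sum_km (κ : W → ℝ) (a b : W) (hab : a ≠ b) : ∑ i, km κ a b i = ∑ i, κ i := by
  unfold km
  rw [Finset.sum_add_distrib, sum_a a b hab (fun _ => κ b), sum_split κ b]
  ring

/-- extension of `f` -/
def ex (a b : W) (hab : a ≠ b) (f : {i : W // i ≠ b} → ℝ) : W → ℝ :=
  fun i => if h : i ≠ b then f ⟨i, h⟩ else f ⟨a, hab⟩

theorem ex_sub (a b : W) (hab : a ≠ b) (f : {i : W // i ≠ b} → ℝ) (i : {i : W // i ≠ b}) :
    ex a b hab f i = f i := by
  unfold ex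
  rw [dif_pos i.2]

theorem ex_b (a b : W) (hab : a ≠ b) (f : {i : W // i ≠ b} → ℝ) :
    ex a b hab f b = f ⟨a, hab⟩ := by
  unfold ex
  simp

theorem Ew_cm (c : W → W → ℝ) (a b : W) (hab : a ≠ b) (f : {i : W // i ≠ b} → ℝ) :
    Ew (cm c a b) f = Ew c (ex a b hab f) := by
  unfold Ew
  congr 1
  rw [sum_split (fun u => ∑ v, c u v * (ex a b hab f u - ex a b hab f v) ^ 2) b]
  have e1 : ∑ v, c b v * (ex a b hab f b - ex a b hab f v) ^ 2
      = ∑ v : {i : W // i ≠ b}, c b v * (f ⟨a, hab⟩ - f v) ^ 2 := by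
    rw [sum_split (fun v => c b v * (ex a b hab f b - ex a b hab f v) ^ 2) b]
    simp only [ex_b, ex_sub, sub_self]
    ring
  have e2 : ∀ u : {i : W // i ≠ b}, ∑ v, c u v * (ex a b hab f u - ex a b hab f v) ^ 2
      = c u b * (f u - f ⟨a, hab⟩) ^ 2 + ∑ v : {i : W // i ≠ b}, c u v * (f u - f v) ^ 2 := by
    intro u
    rw [sum_split (fun v => c u v * (ex a b hab f u - ex a b hab f v) ^ 2) b]
    simp only [ex_b, ex_sub]
  have e3 : ∀ u : {i : W // i ≠ b}, ∑ v, cm c a b u v * (f u - f v) ^ 2
      = c u b * (f u - f ⟨a, hab⟩) ^ 2 + (∑ v : {i : W // i ≠ b}, c u v * (f u - f v) ^ 2)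
        + (if (u : W) = a then ∑ v : {i : W // i ≠ b}, c b v * (f u - f v) ^ 2 else 0) := by
    intro u
    have : ∀ v : {i : W // i ≠ b}, cm c a b u v * (f u - f v) ^ 2
        = c u v * (f u - f v) ^ 2 + (if (v : W) = a then c u b * (f u - f v) ^ 2 else 0)
          + (if (u : W) = a then c b v * (f u - f v) ^ 2 else 0) := by
      intro v
      unfold cm
      by_cases hu : (u : W) = a <;> by_cases hv : (v : W) = a
      · have huv : u = v := Subtype.ext (hu.trans hv.symm)
        subst huv
        simp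
      · simp [hu, hv]; ring
      · simp [hu, hv]; ring
      · simp [hu, hv]
    simp only [this]
    rw [Finset.sum_add_distrib, Finset.sum_add_distrib, sum_a a b hab (fun v => c u b * (f u - f v) ^ 2)]
    by_cases hu : (u : W) = a
    · simp only [hu, if_true]
      ring
    · simp only [hu, if_false, Finset.sum_const_zero]
      ring
  simp only [e1, e2, e3]
  rw [Finset.sum_add_distrib,
    sum_a a b hab (fun u => ∑ v : {i : W // i ≠ b}, c b v * (f u - f v) ^ 2)]
  ring

theorem cut_cm (c : W → W → ℝ) (c0 : ℝ) (h : Cut0 c c0) (a b : W) (hab : a ≠ b) :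
    Cut0 (cm c a b) c0 := by
  intro f hf h0 h1
  rw [Ew_cm c a b hab]
  refine h _ ?_ ?_ ?_
  · intro i
    by_cases hi : i = b
    · subst hi
      rw [ex_b]
      exact hf _
    · have := ex_sub a b hab f ⟨i, hi⟩
      simp only at this
      rw [this]
      exact hf _
  · obtain ⟨i, hi⟩ := h0
    exact ⟨i, by rw [ex_sub, hi]⟩
  · obtain ⟨i, hi⟩ := h1
    exact ⟨i, by rw [ex_sub, hi]⟩

theorem cm_nonneg (c : W → W → ℝ) (hc : ∀ i j, 0 ≤ c i j) (a b : W) : ∀ i j, 0 ≤ cm c a b i j := by
  intro i j
  unfold cm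
  have h1 := hc i j
  have h2 : 0 ≤ (if (i : W) = a then c b j else 0) := by split_ifs; exacts [hc _ _, le_rfl]
  have h3 : 0 ≤ (if (j : W) = a then c i b else 0) := by split_ifs; exacts [hc _ _, le_rfl]
  have h4 : 0 ≤ (if (i : W) = a ∧ (j : W) = a then c b b else 0) := by
    split_ifs; exacts [hc _ _, le_rfl]
  linarith

theorem cm_symm (c : W → W → ℝ) (hs : ∀ i j, c i j = c j i) (a b : W) :
    ∀ i j, cm c a b i j = cm c a b j i := by
  intro i j
  unfold cm
  rw [hs i j, hs b j, hs b i]
  by_cases hi : (i : W) = a <;> by_cases hj : (j : W) = a <;> simp [hi, hj] <;> ring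

theorem km_ge (κ : W → ℝ) (hκ : ∀ i, 1 ≤ κ i) (a b : W) : ∀ i, 1 ≤ km κ a b i := by
  intro i
  unfold km
  have h1 := hκ i
  have h2 : 0 ≤ (if (i : W) = a then κ b else 0) := by
    split_ifs
    · linarith [hκ b]
    · exact le_rfl
  linarith

theorem const_of_cut (c : W → W → ℝ) (hc : ∀ i j, 0 ≤ c i j) (c0 : ℝ) (h0 : 0 < c0) (h : Cut0 c c0) :
    ∀ f : W → ℝ, Ew c f = 0 → ∀ u v, f u = f v := by
  intro f hf u v
  by_contra huv
  have hz : ∀ x y, c x y * (f x - f y) ^ 2 = 0 := by
    unfold Ew at hf
    have h1 : ∑ x, ∑ y, c x y * (f x - f y) ^ 2 = 0 := by linarith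
    have h2 := (Finset.sum_eq_zero_iff_of_nonneg (fun x _ => Finset.sum_nonneg
      (fun y _ => mul_nonneg (hc x y) (sq_nonneg _)))).1 h1
    intro x y
    have h3 := h2 x (Finset.mem_univ _)
    exact (Finset.sum_eq_zero_iff_of_nonneg
      (fun y _ => mul_nonneg (hc x y) (sq_nonneg _))).1 h3 y (Finset.mem_univ _)
  have hg := h (fun w => if f w = f u then 1 else 0)
    (by intro w; by_cases hw : f w = f u <;> simp [hw])
    ⟨v, by simp only [if_neg (fun h : f v = f u => huv h.symm)]⟩
    ⟨u, by simp⟩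
  have he : Ew c (fun w => if f w = f u then 1 else 0) = 0 := by
    unfold Ew
    have : ∀ x y, c x y * ((if f x = f u then (1:ℝ) else 0) - (if f y = f u then 1 else 0)) ^ 2 = 0 := by
      intro x y
      rcases mul_eq_zero.1 (hz x y) with h | h
      · rw [h, zero_mul]
      · have hxy : f x = f y := by
          have := pow_eq_zero_iff (two_ne_zero) |>.1 h
          linarith
        rw [hxy]
        simp
    simp only [this]
    simp
  rw [he] at hg
  linarith

theorem det_inst {V : Type} (i1 i2 : DecidableEq V) (j1 j2 : Fintype V) (M : Matrix V V ℝ) :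
    @Matrix.det V i1 j1 ℝ _ M = @Matrix.det V i2 j2 ℝ _ M := by
  have h1 : i1 = i2 := Subsingleton.elim _ _
  have h2 : j1 = j2 := Subsingleton.elim _ _
  subst h1
  subst h2
  rfl

theorem ind (h1 : StmtMerge) (h2 : StmtPos) (h3 : StmtPair) : StmtInd := by
  intro c0 hc0
  suffices H : ∀ n : ℕ, ∀ (W : Type) [Fintype W], Fintype.card W = n → ∀ (c : W → W → ℝ),
      (∀ i j, 0 ≤ c i j) → (∀ i j, c i j = c j i) → Cut0 c c0 → ∀ (κ : W → ℝ) (r : W),
      (∀ i, 1 ≤ κ i) → (MK c κ).det ≤ (∑ i, κ i) *
        (∏ j ∈ Finset.Icc 2 n, (1 + (∑ i, κ i) / ((c0 / (1 + c0)) * j))) * (MK c (one r)).det by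
    intro W _ c hc hs hcut κ r hκ
    exact H _ W rfl c hc hs hcut κ r hκ
  intro n
  induction n with
  | zero =>
    intro W _ hW c hc hs hcut κ r hκ
    exact ((Fintype.card_eq_zero_iff.1 hW).false r).elim
  | succ n ih =>
    intro W _ hW c hc hs hcut κ r hκ
    by_cases hn : n = 0
    · subst hn
      have hu : ∀ i : W, i = r := by
        obtain ⟨x, hx⟩ := Fintype.card_eq_one_iff.1 hW
        intro i
        rw [hx i, hx r]
      letI : Unique W := ⟨⟨r⟩, hu⟩
      have hsum : ∀ F : W → ℝ, ∑ i, F i = F r := by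
        intro F
        rw [Fintype.sum_unique]
        rfl
      have e1 : (MK c κ).det = κ r := by
        rw [Matrix.det_unique]
        show MK c κ r r = κ r
        rw [MK_apply', if_pos rfl, hsum (fun k => c r k)]
        ring
      have e2 : (MK c (one r)).det = 1 := by
        rw [Matrix.det_unique]
        show MK c (one r) r r = 1
        rw [MK_apply', if_pos rfl, hsum (fun k => c r k)]
        simp [one]
      rw [e1, e2, hsum κ]
      simp
    · have hcard : 2 ≤ Fintype.card W := by omega
      obtain ⟨a, b, hab, hbr, hq0, hq⟩ := h3 c0 hc0 W c hc hs hcard hcut κ r hκ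
      have hcon := const_of_cut c hc c0 hc0 hcut
      have hM : (MK c κ).PosDef := h2 W c hc hs hcon κ (fun i => by linarith [hκ i])
        ⟨r, by linarith [hκ r]⟩
      have hT : (MK c (one r)).PosDef := h2 W c hc hs hcon (one r)
        (fun i => by unfold one; split_ifs <;> norm_num) ⟨r, by simp [one]⟩
      have hMd : 0 < (MK c κ).det := hM.det_pos
      have hTd : 0 < (MK c (one r)).det := hT.det_pos
      have m1 := h1 W (MK c κ) a b hab hMd.ne'
      have m2 := h1 W (MK c (one r)) a b hab hTd.ne'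
      rw [mrg_MK c κ a b hab] at m1
      rw [mrg_MK c (one r) a b hab, km_one a b r hab hbr] at m2
      have hW' : Fintype.card {i : W // i ≠ b} = n := by
        have := Fintype.card_subtype_compl (fun i : W => i = b)
        rw [Fintype.card_subtype_eq] at this
        have e : Fintype.card {i : W // i ≠ b} = Fintype.card {i : W // ¬ i = b} := rfl
        rw [e, this, hW]
        omega
      have key := ih {i : W // i ≠ b} hW' (cm c a b) (cm_nonneg c hc a b) (cm_symm c hs a b)
        (cut_cm c c0 hcut a b hab) (km κ a b) ⟨r, fun h => hbr h.symm⟩ (km_ge κ hκ a b)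
      rw [sum_km κ a b hab] at key
      have key2 : (MK c κ).det * qf (MK c κ) a b ≤ (∑ i, κ i) *
          (∏ j ∈ Finset.Icc 2 n, (1 + (∑ i, κ i) / ((c0 / (1 + c0)) * j))) *
          ((MK c (one r)).det * qf (MK c (one r)) a b) := by
        have m1' : (MK c κ).det * qf (MK c κ) a b = (MK (cm c a b) (km κ a b)).det := m1.symm
        have m2' : (MK c (one r)).det * qf (MK c (one r)) a b
          = (MK (cm c a b) (one ⟨r, fun h => hbr h.symm⟩)).det := m2.symm
        rw [m1', m2']
        refine le_trans (le_of_eq (det_inst _ _ _ _ _)) (le_trans key (le_of_eq ?_))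
        exact congrArg _ (det_inst _ _ _ _ _)
      replace key := key2
      rw [Finset.prod_Icc_succ_top (by omega)]
      set m := ∑ i, κ i with hm
      have hm0 : 0 ≤ m := Finset.sum_nonneg fun i _ => by linarith [hκ i]
      set P := ∏ j ∈ Finset.Icc 2 n, (1 + m / ((c0 / (1 + c0)) * (j : ℝ))) with hP
      have hP0 : 0 ≤ P := Finset.prod_nonneg fun j _ => by positivity
      rw [hW] at hq
      set t := 1 + m / ((c0 / (1 + c0)) * ((n + 1 : ℕ) : ℝ)) with ht
      have ht0 : 0 < t := by positivity
      set D := (MK c κ).det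
      set E := (MK c (one r)).det
      set q1 := qf (MK c κ) a b
      set q2 := qf (MK c (one r)) a b
      have hq1 : 0 < q1 := by
        by_contra hneg
        push Not at hneg
        have := mul_nonpos_of_nonneg_of_nonpos ht0.le hneg
        linarith
      have s1 : D * q1 ≤ m * P * (E * (t * q1)) := by
        refine key.trans ?_
        gcongr
      have s2 : D * q1 ≤ (m * (P * t) * E) * q1 := by
        calc D * q1 ≤ m * P * (E * (t * q1)) := s1
          _ = (m * (P * t) * E) * q1 := by ring
      exact le_of_mul_le_mul_right s2 hq1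

end

end Pool.Agent.R521.IS.Ind
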