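import Pool.Agent.R521.IS.Stm

/-!
Project IS: the diagonal of the inverse of a Laplacian plus a diagonal matrix.
-/

set_option autoImplicit false

open Finset Matrix

namespace Pool.Agent.R521.IS.Inv

noncomputable section
open Classical

variable {W : Type} [Fintype W]

lemma mulVec_MK (c : W → W → ℝ) (κ f : W → ℝ) (i : W) :
    (MK c κ *ᵥ f) i = (∑ k, c i k) * f i - ∑ j, c i j * f j + κ i * f i := by
  unfold MK
  rw [Matrix.add_mulVec, Pi.add_apply, Matrix.mulVec_diagonal]
  congr 1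
  show ∑ j, Lap c i j * f j = _
  unfold Lap
  simp only [sub_mul, Finset.sum_sub_distrib, ite_mul, zero_mul, Finset.sum_ite_eq, mem_univ,
    if_true]

lemma quad (c : W → W → ℝ) (hs : ∀ i j, c i j = c j i) (κ f : W → ℝ) :
    ∑ i, f i * (MK c κ *ᵥ f) i = Ew c f + ∑ j, κ j * f j ^ 2 := by
  have h1 : ∑ i, f i * (MK c κ *ᵥ f) i =
      (∑ i, ∑ j, c i j * f i ^ 2) - (∑ i, ∑ j, c i j * (f i * f j)) + ∑ j, κ j * f j ^ 2 := by
    rw [← Finset.sum_sub_distrib, ← Finset.sum_add_distrib]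
    refine Finset.sum_congr rfl fun i _ => ?_
    rw [mulVec_MK, ← Finset.sum_mul]
    have : ∑ j, c i j * (f i * f j) = f i * ∑ j, c i j * f j := by
      rw [Finset.mul_sum]
      exact Finset.sum_congr rfl fun j _ => by ring
    rw [this]
    ring
  have h2 : ∑ i, ∑ j, c i j * f j ^ 2 = ∑ i, ∑ j, c i j * f i ^ 2 := by
    rw [Finset.sum_comm]
    exact Finset.sum_congr rfl fun i _ => Finset.sum_congr rfl fun j _ => by rw [hs]
  have h3 : Ew c f = (1 / 2) * ((∑ i, ∑ j, c i j * f i ^ 2) - 2 * (∑ i, ∑ j, c i j * (f i * f j)) +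
      ∑ i, ∑ j, c i j * f j ^ 2) := by
    unfold Ew
    congr 1
    rw [Finset.mul_sum, ← Finset.sum_sub_distrib, ← Finset.sum_add_distrib]
    refine Finset.sum_congr rfl fun i _ => ?_
    rw [Finset.mul_sum, ← Finset.sum_sub_distrib, ← Finset.sum_add_distrib]
    exact Finset.sum_congr rfl fun j _ => by ring
  rw [h1, h3, h2]
  ring

/-- the terms at `i` -/
lemma Ew_ge (c : W → W → ℝ) (h0 : ∀ i j, 0 ≤ c i j) (hs : ∀ i j, c i j = c j i) (f : W → ℝ)
    (i : W) : ∑ j ∈ univ.erase i, c i j * (f i - f j) ^ 2 ≤ Ew c f := by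
  unfold Ew
  have hpos : ∀ u v, 0 ≤ c u v * (f u - f v) ^ 2 := fun u v => mul_nonneg (h0 u v) (sq_nonneg _)
  rw [← Finset.add_sum_erase univ _ (mem_univ i)]
  have h1 : ∑ j ∈ univ.erase i, c i j * (f i - f j) ^ 2 ≤ ∑ v, c i v * (f i - f v) ^ 2 :=
    Finset.sum_le_sum_of_subset_of_nonneg (Finset.subset_univ _) fun v _ _ => hpos i v
  have h2 : ∑ u ∈ univ.erase i, c i u * (f i - f u) ^ 2 ≤
      ∑ u ∈ univ.erase i, ∑ v, c u v * (f u - f v) ^ 2 := by
    refine Finset.sum_le_sum fun u _ => ?_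
    have e : c i u * (f i - f u) ^ 2 = c u i * (f u - f i) ^ 2 := by
      rw [hs]; ring
    rw [e]
    exact Finset.single_le_sum (f := fun v => c u v * (f u - f v) ^ 2) (fun v _ => hpos u v)
      (mem_univ i)
  linarith

lemma Ew_one (c : W → W → ℝ) (hs : ∀ i j, c i j = c j i) (i : W) :
    Ew c (one i) = ∑ j ∈ univ.erase i, c i j := by
  unfold Ew
  rw [← Finset.add_sum_erase univ _ (mem_univ i)]
  have h1 : ∑ v, c i v * (one i i - one i v) ^ 2 = ∑ j ∈ univ.erase i, c i j := by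
    rw [← Finset.add_sum_erase univ _ (mem_univ i)]
    simp only [sub_self, ne_eq, OfNat.ofNat_ne_zero, not_false_eq_true, zero_pow, mul_zero,
      zero_add]
    refine Finset.sum_congr rfl fun j hj => ?_
    have : j ≠ i := Finset.ne_of_mem_erase hj
    simp [one, this]
  have h2 : ∑ u ∈ univ.erase i, ∑ v, c u v * (one i u - one i v) ^ 2 =
      ∑ j ∈ univ.erase i, c i j := by
    refine Finset.sum_congr rfl fun u hu => ?_
    have hu' : u ≠ i := Finset.ne_of_mem_erase hu
    rw [Finset.sum_eq_single i]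
    · simp [one, hu', hs i u]
    · intro v _ hv
      simp [one, hu', hv]
    · intro h; exact absurd (mem_univ i) h
  rw [h1, h2]
  ring

lemma conn (c : W → W → ℝ) (h0 : ∀ i j, 0 ≤ c i j) {c0 : ℝ} (hc0 : 0 < c0) (hcut : Cut0 c c0)
    (f : W → ℝ) (hf : Ew c f = 0) (u v : W) : f u = f v := by
  by_contra huv
  have hpos : ∀ a b, 0 ≤ c a b * (f a - f b) ^ 2 := fun a b => mul_nonneg (h0 a b) (sq_nonneg _)
  have hz : ∀ a b, c a b * (f a - f b) ^ 2 = 0 := by
    unfold Ew at hf
    have h1 : ∑ a, ∑ b, c a b * (f a - f b) ^ 2 = 0 := by linarith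
    have h2 := (Finset.sum_eq_zero_iff_of_nonneg fun a _ => Finset.sum_nonneg fun b _ => hpos a b).1 h1
    intro a b
    exact (Finset.sum_eq_zero_iff_of_nonneg fun b _ => hpos a b).1 (h2 a (mem_univ a)) b
      (mem_univ b)
  set g : W → ℝ := fun w => if f w = f u then 1 else 0 with hg
  have h3 := hcut g (fun b => by
      by_cases h : f b = f u
      · right; simp [hg, h]
      · left; simp [hg, h])
    ⟨v, by simp [hg, Ne.symm huv]⟩ ⟨u, by simp [hg]⟩
  have h4 : Ew c g = 0 := by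
    unfold Ew
    have : ∑ a, ∑ b, c a b * (g a - g b) ^ 2 = 0 := by
      refine Finset.sum_eq_zero fun a _ => Finset.sum_eq_zero fun b _ => ?_
      by_cases hab : g a = g b
      · rw [hab]; ring
      · have hne : f a ≠ f b := by
          intro h
          apply hab
          simp [hg, h]
        have h5 := hz a b
        rcases mul_eq_zero.1 h5 with h6 | h6
        · rw [h6, zero_mul]
        · exact absurd (sub_eq_zero.1 (pow_eq_zero_iff (two_ne_zero)|>.1 h6)) hne
    rw [this, mul_zero]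
  linarith

lemma term {c x y : ℝ} (hc : 0 ≤ c) : c / (1 + c) * x ^ 2 ≤ c * (x - y) ^ 2 + y ^ 2 := by
  have h1 : 0 < 1 + c := by linarith
  rw [div_mul_eq_mul_div, div_le_iff₀ h1]
  nlinarith [sq_nonneg (c * x - (1 + c) * y)]

/-- INV -/
theorem inv (h : StmtPos) : StmtInv := by
  intro c0 hc0 W _ c hc hs hcard hcut κ hκ i
  have hne : Nonempty W := ⟨i⟩
  have hpd := h W c hc hs (conn c hc hc0 hcut) κ (fun j => le_trans zero_le_one (hκ j))
    ⟨i, lt_of_lt_of_le one_pos (hκ i)⟩
  have hdet : IsUnit (MK c κ).det := isUnit_iff_ne_zero.2 hpd.det_pos.ne'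
  set f : W → ℝ := fun j => (MK c κ)⁻¹ j i with hf
  have hMf : ∀ j, (MK c κ *ᵥ f) j = if j = i then 1 else 0 := by
    intro j
    have h1 : (MK c κ * (MK c κ)⁻¹) j i = (1 : Matrix W W ℝ) j i := by
      rw [Matrix.mul_nonsing_inv _ hdet]
    rw [Matrix.mul_apply, Matrix.one_apply] at h1
    exact h1
  have hq := quad c hs κ f
  have h2 : ∑ j, f j * (MK c κ *ᵥ f) j = f i := by
    simp only [hMf, mul_ite, mul_one, mul_zero, Finset.sum_ite_eq', mem_univ, if_true]
  rw [h2] at hq
  -- lower bound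
  set S : ℝ := ∑ j ∈ univ.erase i, c i j with hS
  have hS0 : c0 ≤ S := by
    obtain ⟨j, hj⟩ : ∃ j, j ≠ i := by
      by_contra hno
      push Not at hno
      have : Fintype.card W ≤ 1 := Fintype.card_le_one_iff.2 fun a b => by rw [hno a, hno b]
      omega
    have := hcut (one i) (fun b => by
      by_cases hb : b = i
      · right; simp [one, hb]
      · left; simp [one, hb]) ⟨j, by simp [one, hj]⟩ ⟨i, by simp [one]⟩
    rwa [Ew_one c hs i] at this
  have hSpos : 0 < 1 + S := by linarith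
  have h3 := Ew_ge c hc hs f i
  have h4 : κ i * f i ^ 2 + ∑ j ∈ univ.erase i, f j ^ 2 ≤ ∑ j, κ j * f j ^ 2 := by
    rw [← Finset.add_sum_erase univ _ (mem_univ i)]
    have : ∑ j ∈ univ.erase i, f j ^ 2 ≤ ∑ j ∈ univ.erase i, κ j * f j ^ 2 := by
      refine Finset.sum_le_sum fun j _ => ?_
      have h5 := hκ j
      nlinarith [sq_nonneg (f j)]
    linarith
  have h5 : S / (1 + S) * f i ^ 2 ≤
      ∑ j ∈ univ.erase i, (c i j * (f i - f j) ^ 2 + f j ^ 2) := by
    rw [hS, Finset.sum_div, Finset.sum_mul, ← hS]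
    refine Finset.sum_le_sum fun j hj => ?_
    refine le_trans ?_ (term (hc i j))
    refine mul_le_mul_of_nonneg_right ?_ (sq_nonneg _)
    have h6 : c i j ≤ S := Finset.single_le_sum (f := fun j => c i j) (fun k _ => hc i k) hj
    exact div_le_div_of_nonneg_left (hc i j) (by linarith [hc i j]) (by linarith)
  rw [Finset.sum_add_distrib] at h5
  have h6 : c0 / (1 + c0) ≤ S / (1 + S) := by
    rw [div_le_div_iff₀ (by linarith) hSpos]
    nlinarith
  have h7 : (κ i + c0 / (1 + c0)) * f i ^ 2 ≤ f i := by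
    have h8 : c0 / (1 + c0) * f i ^ 2 ≤ S / (1 + S) * f i ^ 2 :=
      mul_le_mul_of_nonneg_right h6 (sq_nonneg _)
    nlinarith
  have hspos : 0 < κ i + c0 / (1 + c0) := by
    have : 0 < c0 / (1 + c0) := by positivity
    linarith [hκ i]
  show f i ≤ _
  rw [le_div_iff₀ hspos]
  by_cases hfi : f i ≤ 0
  · nlinarith
  · push Not at hfi
    by_contra hlt
    push Not at hlt
    nlinarith

end

end Pool.Agent.R521.IS.Inv
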