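import Mathlib

open Matrix Finset

namespace Pool.Agent.R521.IS.Merge

variable {W : Type*} [Fintype W] [DecidableEq W]

/-- The determinant of the block off `b` is an entry of the adjugate. -/
lemma det_off (N : Matrix W W ℝ) (b : W) :
    (N.submatrix (fun i : {i // i ≠ b} => (i : W)) (fun i : {i // i ≠ b} => (i : W))).det
      = N.adjugate b b := by
  rw [adjugate_apply, twoBlockTriangular_det (N.updateRow b (Pi.single b 1)) (fun i => i ≠ b) ?_]
  · have h1 : (toSquareBlockProp (N.updateRow b (Pi.single b 1)) fun i => ¬ i ≠ b).det = 1 := by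
      have hu : ∀ x : {i // ¬ i ≠ b}, (x : W) = b := fun x => not_not.1 x.2
      have hs : Subsingleton {i // ¬ i ≠ b} := ⟨fun x y => Subtype.ext ((hu x).trans (hu y).symm)⟩
      rw [det_eq_elem_of_subsingleton _ (⟨b, by simp⟩ : {i // ¬ i ≠ b})]
      show (N.updateRow b (Pi.single b 1)) b b = 1
      simp
    rw [h1, mul_one]
    congr 1
    ext i j
    show N i j = (N.updateRow b (Pi.single b 1)) i j
    rw [updateRow_ne i.2]
  · intro i hi j hj
    have hib : i = b := not_not.1 hi
    subst hib
    rw [updateRow_self, Pi.single_apply, if_neg hj]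

/-- General form: merging `a` and `b`. -/
theorem merge_gen (M : Matrix W W ℝ) (hM : M.det ≠ 0) (a b : W) (hab : a ≠ b)
    (Q : Matrix W {i // i ≠ b} ℝ)
    (hQ : ∀ w i, Q w i = (if w = (i : W) then 1 else 0) + if w = b ∧ (i : W) = a then 1 else 0) :
    (Qᵀ * M * Q).det = M.det * (M⁻¹ a a - M⁻¹ a b - M⁻¹ b a + M⁻¹ b b) := by
  set R : Matrix W W ℝ := transvection b a 1 with hR
  set R' : Matrix W W ℝ := transvection b a (-1) with hR'
  have hdR : R.det = 1 := det_transvection_of_ne b a hab.symm 1
  have hRR' : R * R' = 1 := by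
    rw [hR, hR', transvection_mul_transvection_same b a hab.symm]
    simp [transvection_zero]
  have hRinv : R⁻¹ = R' := inv_eq_right_inv hRR'
  set N : Matrix W W ℝ := Rᵀ * M * R with hN
  have hdN : N.det = M.det := by
    rw [hN, det_mul, det_mul, det_transpose, hdR]
    ring
  have hRQ : R.submatrix id (fun i : {i // i ≠ b} => (i : W)) = Q := by
    ext w i
    rw [hQ]
    show (1 + Matrix.single b a (1 : ℝ)) w i = _
    rw [Matrix.add_apply, one_apply, Matrix.single_apply]
    congr 1
    by_cases h1 : w = b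
    · by_cases h2 : (i : W) = a
      · simp [h1, h2]
      · have h3 : ¬ (b = w ∧ a = (i : W)) := fun h => h2 h.2.symm
        have h4 : ¬ (w = b ∧ (i : W) = a) := fun h => h2 h.2
        rw [if_neg h3, if_neg h4]
    · have h3 : ¬ (b = w ∧ a = (i : W)) := fun h => h1 h.1.symm
      have h4 : ¬ (w = b ∧ (i : W) = a) := fun h => h1 h.1
      rw [if_neg h3, if_neg h4]
  have hsub : N.submatrix (fun i : {i // i ≠ b} => (i : W)) (fun i : {i // i ≠ b} => (i : W))
      = Qᵀ * M * Q := by
    rw [← hRQ]
    ext i j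
    simp only [hN, submatrix_apply, mul_apply, transpose_apply, id_eq]
  rw [← hsub, det_off]
  have h1 : N⁻¹ b b = N.det⁻¹ * N.adjugate b b := by
    rw [Matrix.inv_def, Ring.inverse_eq_inv', Matrix.smul_apply, smul_eq_mul]
  have h2 : N⁻¹ = R' * M⁻¹ * R'ᵀ := by
    rw [hN, Matrix.mul_inv_rev, Matrix.mul_inv_rev, ← transpose_nonsing_inv, hRinv, ← mul_assoc]
  have h3 : N⁻¹ b b = M⁻¹ a a - M⁻¹ a b - M⁻¹ b a + M⁻¹ b b := by
    have hrow : ∀ j, R' b j = (if b = j then 1 else 0) - if a = j then 1 else 0 := by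
      intro j
      show (1 + Matrix.single b a (-1 : ℝ)) b j = _
      rw [Matrix.add_apply, one_apply, Matrix.single_apply]
      by_cases h : a = j
      · simp [h]
        ring
      · simp [h]
    rw [h2]
    simp only [mul_apply, transpose_apply, hrow]
    simp only [sub_mul, mul_sub, sum_sub_distrib, ite_mul, mul_ite, one_mul, zero_mul, mul_one,
      mul_zero, sum_ite_eq, mem_univ, if_true]
    ring
  have h4 : N.adjugate b b = N.det * N⁻¹ b b := by
    rw [h1, hdN]
    field_simp
  rw [h4, h3, hdN]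

end Pool.Agent.R521.IS.Merge
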