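import Mathlib
import Pool.Agent.R521.IS.Stm
import Pool.Agent.Helper428.MatrixTree

set_option autoImplicit false

/-! Piece MT: matrix tree theorem with a ghost root. -/

namespace Pool.Agent.R521.IS.Mt

open Finset Matrix Classical Pool.Agent.Helper428.MatrixTree

/-- the weights on `Option W` -/
noncomputable def ww {W : Type} (c : W → W → ℝ) (κ : W → ℝ) : Option W → Option W → ℝ
  | none, _ => 0
  | some i, none => κ i
  | some i, some j => c i j

theorem det_eq {W : Type} [Fintype W] (c : W → W → ℝ) (κ : W → ℝ) :
    (Mr none (ww c κ)).det = (MK c κ).det := by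
  have h1 : (Mr none (ww c κ)).submatrix (Equiv.optionEquivSumPUnit.{0} W).symm
      (Equiv.optionEquivSumPUnit.{0} W).symm =
      Matrix.fromBlocks (MK c κ) (Matrix.of fun i _ => -κ i) 0 1 := by
    ext a b
    rcases a with a | a <;> rcases b with b | b
    · simp only [Matrix.submatrix_apply, Matrix.fromBlocks_apply₁₁, Mr, MK, Lap, ww,
        Equiv.optionEquivSumPUnit_symm_inl, Matrix.add_apply, Matrix.diagonal_apply,
        Fintype.sum_option, Option.some.injEq]
      simp only [reduceCtorEq, if_false]
      by_cases h : a = b
      · subst h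
        simp only [if_true]
        ring
      · rw [if_neg (fun hh => h hh.symm), if_neg h, if_neg h]
        ring
    · simp only [Matrix.submatrix_apply, Matrix.fromBlocks_apply₁₂, Mr, ww,
        Equiv.optionEquivSumPUnit_symm_inl, Equiv.optionEquivSumPUnit_symm_inr, Matrix.of_apply]
      simp
    · simp only [Matrix.submatrix_apply, Matrix.fromBlocks_apply₂₁, Mr,
        Equiv.optionEquivSumPUnit_symm_inl, Equiv.optionEquivSumPUnit_symm_inr]
      simp
    · simp only [Matrix.submatrix_apply, Matrix.fromBlocks_apply₂₂, Mr,
        Equiv.optionEquivSumPUnit_symm_inr]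
      simp
  rw [← Matrix.det_submatrix_equiv_self (Equiv.optionEquivSumPUnit.{0} W).symm, h1,
    Matrix.det_fromBlocks_zero₂₁, Matrix.det_one, mul_one]

theorem mt : StmtMT := by
  intro W _ c κ
  rw [← det_eq, det_Mr]
  refine Finset.sum_nbij' (fun f i => f (some i)) (fun g o => o.elim none g) ?_ ?_ ?_ ?_ ?_
  · intro f hf
    obtain ⟨-, hf0, d, hd⟩ := Finset.mem_filter.1 hf
    refine Finset.mem_filter.2 ⟨Finset.mem_univ _, fun v => d (some v), fun v w hvw => ?_⟩
    have := hd (some v) (by simp)
    have hvw' : f (some v) = some w := hvw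
    rw [hvw'] at this
    exact this
  · intro g hg
    obtain ⟨-, d, hd⟩ := Finset.mem_filter.1 hg
    refine Finset.mem_filter.2 ⟨Finset.mem_univ _, rfl,
      fun o => o.elim 0 (fun v => d v + 1), fun o ho => ?_⟩
    rcases o with _ | v
    · exact absurd rfl ho
    · show (g v).elim 0 (fun v => d v + 1) < d v + 1
      rcases hgv : g v with _ | w
      · exact Nat.succ_pos _
      · have := hd v w hgv
        show d w + 1 < d v + 1
        omega
  · intro f hf
    obtain ⟨-, hf0, -⟩ := Finset.mem_filter.1 hf
    funext o
    rcases o with _ | v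
    · exact hf0.symm
    · rfl
  · intro g _
    rfl
  · intro f hf
    have h1 : (Finset.univ.erase (none : Option W)) =
        (Finset.univ : Finset W).map Function.Embedding.some := by
      ext o
      rcases o with _ | v
      · simp
      · simp
    have h2 : (∏ i ∈ Finset.univ.erase (none : Option W), ww c κ i (f i)) =
        ∏ i : W, ww c κ (some i) (f (some i)) := by
      rw [h1, Finset.prod_map]
      rfl
    rw [h2]
    refine Finset.prod_congr rfl fun i _ => ?_
    show ww c κ (some i) (f (some i)) =
      (match f (some i) with | none => κ i | some j => c i j)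
    rcases f (some i) with _ | w
    · rfl
    · rfl

end Pool.Agent.R521.IS.Mt
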