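import Pool.Agent.R521.IS.Stm

open Finset

namespace Pool.Agent.R521.IS.Nest

open Classical

noncomputable section

def idx {V : Type} (S : Finset (Finset V)) (u : V) : ℕ := (S.filter fun A => u ∉ A).card

lemma attained {V : Type} [Fintype V] (S : Finset (Finset V))
    (hS : ∀ A ∈ S, ∀ B ∈ S, A ⊆ B ∨ B ⊆ A)
    (t : ℕ) (ht0 : 0 < t) (ht : t < S.card) : ∃ u, idx S u = t := by
  let ρ : Finset V → ℕ := fun A => (S.filter (fun B => B ⊂ A)).card
  have hlt : ∀ A ∈ S, ∀ B ∈ S, A ⊂ B → ρ A < ρ B := by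
    intro A hA B hB hAB
    apply Finset.card_lt_card
    rw [Finset.ssubset_iff_of_subset]
    · refine ⟨A, ?_, ?_⟩
      · simp only [mem_filter]; exact ⟨hA, hAB⟩
      · simp only [mem_filter, not_and]; exact fun _ => (ssubset_irrefl A)
    · intro C hC
      simp only [mem_filter] at hC ⊢
      exact ⟨hC.1, hC.2.trans hAB⟩
  have hinj : Set.InjOn ρ S := by
    intro A hA B hB h
    by_contra hne
    rcases hS A hA B hB with h1 | h1
    · exact (hlt A hA B hB (h1.ssubset_of_ne hne)).ne h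
    · exact (hlt B hB A hA (h1.ssubset_of_ne (Ne.symm hne))).ne h.symm
  have himg : S.image ρ = range S.card := by
    apply Finset.eq_of_subset_of_card_le
    · intro m hm
      simp only [mem_image] at hm
      obtain ⟨A, hA, rfl⟩ := hm
      rw [mem_range]
      apply Finset.card_lt_card
      rw [Finset.ssubset_iff_of_subset (Finset.filter_subset _ _)]
      exact ⟨A, hA, by simp only [mem_filter, not_and]; exact fun _ => (ssubset_irrefl A)⟩
    · rw [card_range, Finset.card_image_of_injOn hinj]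
  have htm : t ∈ S.image ρ := by rw [himg]; exact mem_range.2 ht
  obtain ⟨A, hA, hAt⟩ := mem_image.1 htm
  have hne : (S.filter (fun B => B ⊂ A)).Nonempty := by
    rw [← Finset.card_pos]; change 0 < ρ A; omega
  obtain ⟨B0, hB0, hmax⟩ := Finset.exists_max_image _ Finset.card hne
  simp only [mem_filter] at hB0
  obtain ⟨u, huA, huB⟩ := Finset.exists_of_ssubset hB0.2
  refine ⟨u, ?_⟩
  rw [← hAt]
  unfold idx
  change _ = (S.filter (fun B => B ⊂ A)).card
  congr 1
  ext C
  simp only [mem_filter]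
  constructor
  · rintro ⟨hC, hu⟩
    refine ⟨hC, ?_⟩
    rcases hS C hC A hA with h | h
    · exact h.ssubset_of_ne (fun h' => hu (h' ▸ huA))
    · exact absurd (h huA) hu
  · rintro ⟨hC, hCA⟩
    refine ⟨hC, fun hu => ?_⟩
    have h3 := hmax C (by simp only [mem_filter]; exact ⟨hC, hCA⟩)
    rcases hS C hC B0 hB0.1 with h | h
    · exact huB (h hu)
    · have := Finset.eq_of_subset_of_card_le h h3
      exact huB (this ▸ hu)

def psi (L t a : ℕ) : ℝ := max (1 - |(a : ℝ) - t| / L) 0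

lemma psi_nonneg (L t a : ℕ) : 0 ≤ psi L t a := le_max_right _ _

lemma psi_le_one (L t a : ℕ) : psi L t a ≤ 1 := by
  have : 0 ≤ |(a : ℝ) - t| / L := by positivity
  exact max_le (by linarith) (by norm_num)

lemma psi_lip (L t a b : ℕ) : |psi L t a - psi L t b| ≤ |(a : ℝ) - b| / L := by
  unfold psi
  refine (abs_max_sub_max_le_abs _ _ _).trans ?_
  have h1 : (1 - |(a : ℝ) - t| / L) - (1 - |(b : ℝ) - t| / L)
      = (|(b : ℝ) - t| - |(a : ℝ) - t|) / L := by ring
  rw [h1, abs_div, Nat.abs_cast]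
  apply div_le_div_of_nonneg_right _ (Nat.cast_nonneg L)
  refine (abs_abs_sub_abs_le_abs_sub _ _).trans ?_
  have h2 : (b : ℝ) - t - (a - t) = -(a - b) := by ring
  rw [h2, abs_neg]

lemma psi_zero {L t a : ℕ} (hL : 1 ≤ L) (h : t + L ≤ a ∨ a + L ≤ t) : psi L t a = 0 := by
  unfold psi
  apply max_eq_right
  have hL' : (0 : ℝ) < L := by exact_mod_cast hL
  have h1 : (L : ℝ) ≤ |(a : ℝ) - t| := by
    rcases h with h | h
    · have : ((t + L : ℕ) : ℝ) ≤ (a : ℝ) := by exact_mod_cast h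
      push_cast at this
      exact le_trans (by linarith) (le_abs_self _)
    · have : ((a + L : ℕ) : ℝ) ≤ (t : ℝ) := by exact_mod_cast h
      push_cast at this
      exact le_trans (by linarith) (neg_le_abs _)
  have h2 : 1 ≤ |(a : ℝ) - t| / L := by rwa [le_div_iff₀ hL', one_mul]
  linarith

lemma psi_self (L t : ℕ) : psi L t t = 1 := by
  unfold psi
  simp

lemma psi_sum {L : ℕ} (hL : 1 ≤ L) (a b : ℕ) (R : Finset ℕ) (c : ℝ)
    (hc : ∀ t, (psi L t a - psi L t b) ^ 2 ≤ c) (hc0 : 0 ≤ c) :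
    ∑ t ∈ R, (psi L t a - psi L t b) ^ 2 ≤ 4 * L * c := by
  set N : Finset ℕ := Finset.Ico (a + 1 - L) (a + L) ∪ Finset.Ico (b + 1 - L) (b + L) with hN
  have hNc : N.card ≤ 4 * L := by
    refine (Finset.card_union_le _ _).trans ?_
    rw [Nat.card_Ico, Nat.card_Ico]
    omega
  have hz : ∀ t, t ∉ N → (psi L t a - psi L t b) ^ 2 = 0 := by
    intro t ht
    simp only [hN, mem_union, mem_Ico, not_or, not_and, not_lt] at ht
    have h1 : t + L ≤ a ∨ a + L ≤ t := by
      by_cases h : a + 1 - L ≤ t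
      · exact Or.inr (ht.1 h)
      · left; omega
    have h2 : t + L ≤ b ∨ b + L ≤ t := by
      by_cases h : b + 1 - L ≤ t
      · exact Or.inr (ht.2 h)
      · left; omega
    rw [psi_zero hL h1, psi_zero hL h2]
    norm_num
  calc ∑ t ∈ R, (psi L t a - psi L t b) ^ 2
      = ∑ t ∈ R.filter (fun t => t ∈ N), (psi L t a - psi L t b) ^ 2 := by
        rw [Finset.sum_filter]
        apply Finset.sum_congr rfl
        intro t _
        by_cases h : t ∈ N
        · rw [if_pos h]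
        · rw [if_neg h, hz t h]
    _ ≤ ∑ t ∈ R.filter (fun t => t ∈ N), c := Finset.sum_le_sum fun t _ => hc t
    _ = (R.filter (fun t => t ∈ N)).card * c := by rw [Finset.sum_const, nsmul_eq_mul]
    _ ≤ (4 * L : ℝ) * c := by
        apply mul_le_mul_of_nonneg_right _ hc0
        have h1 : (R.filter (fun t => t ∈ N)).card ≤ N.card :=
          Finset.card_le_card (fun t ht => (mem_filter.1 ht).2)
        have h2 := h1.trans hNc
        exact_mod_cast h2

lemma psi_sum1 {L : ℕ} (hL : 1 ≤ L) (a b : ℕ) (R : Finset ℕ) :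
    ∑ t ∈ R, (psi L t a - psi L t b) ^ 2 ≤ 4 * L := by
  have := psi_sum hL a b R 1 (fun t => by
    have h1 := psi_nonneg L t a
    have h2 := psi_nonneg L t b
    have h3 := psi_le_one L t a
    have h4 := psi_le_one L t b
    nlinarith) (by norm_num)
  linarith

lemma psi_sum2 {L : ℕ} (hL : 1 ≤ L) (a b : ℕ) (R : Finset ℕ) :
    ∑ t ∈ R, (psi L t a - psi L t b) ^ 2 ≤ 4 * (|(a : ℝ) - b| ^ 2 / L) := by
  have hL' : (0 : ℝ) < L := by exact_mod_cast hL
  have := psi_sum hL a b R ((|(a : ℝ) - b| / L) ^ 2) (fun t => by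
    rw [← sq_abs]
    exact pow_le_pow_left₀ (abs_nonneg _) (psi_lip L t a b) 2) (by positivity)
  refine this.trans (le_of_eq ?_)
  field_simp

lemma dyadic (x : ℝ) (hx : 0 ≤ x) (g : ℕ → ℝ) (h1 : ∀ j, g j ≤ 2 ^ j) (h2 : ∀ j, g j ≤ x ^ 2 / 2 ^ j)
    (J : ℕ) : ∑ j ∈ range J, g j ≤ 4 * x := by
  have key : ∀ J : ℕ, ∑ j ∈ range J, g j ≤ 2 ^ J - 1 ∧
      (x ≤ 2 ^ J → ∑ j ∈ range J, g j ≤ 4 * x - 2 * x ^ 2 / 2 ^ J) := by
    intro J
    induction J with
    | zero =>
      refine ⟨by simp, fun h => ?_⟩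
      simp only [range_zero, sum_empty, pow_zero, div_one] at h ⊢
      nlinarith
    | succ J ih =>
      have hp : (0 : ℝ) < 2 ^ J := by positivity
      rw [sum_range_succ]
      have hA : ∑ j ∈ range J, g j + g J ≤ 2 ^ (J + 1) - 1 := by
        have := h1 J
        rw [pow_succ]
        linarith [ih.1]
      refine ⟨hA, fun h => ?_⟩
      by_cases hxJ : x ≤ 2 ^ J
      · have h4 := ih.2 hxJ
        have h5 := h2 J
        have h6 : 2 * x ^ 2 / 2 ^ (J + 1) = x ^ 2 / 2 ^ J := by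
          rw [pow_succ]; field_simp
          try ring
        have h7 : 2 * x ^ 2 / 2 ^ J = 2 * (x ^ 2 / 2 ^ J) := by ring
        rw [h6]
        linarith
      · have h8 : (2 : ℝ) ^ J < x := not_le.1 hxJ
        refine hA.trans ?_
        set y : ℝ := 2 ^ (J + 1) with hy
        have hy0 : 0 < y := by positivity
        have hy2 : y < 2 * x := by
          rw [hy, pow_succ]; linarith
        have h9 : 2 * x ^ 2 / y ≤ 4 * x - y := by
          rw [div_le_iff₀ hy0]
          nlinarith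
        linarith
  by_cases hxJ : x ≤ 2 ^ J
  · have := (key J).2 hxJ
    have h5 : 0 ≤ 2 * x ^ 2 / 2 ^ J := by positivity
    linarith
  · have := (key J).1
    have h8 := not_le.1 hxJ
    linarith

lemma sum_idx {V : Type} [Fintype V] (G : SimpleGraph V) (S : Finset (Finset V)) :
    ∑ u, ∑ v, (if G.Adj u v then |(idx S u : ℝ) - idx S v| else 0)
      ≤ 2 * ∑ A ∈ S, (bd G A : ℝ) := by
  have h1 : ∀ u v : V, |(idx S u : ℝ) - idx S v| ≤
      ∑ A ∈ S, ((if u ∈ A ∧ v ∉ A then (1 : ℝ) else 0) + if v ∈ A ∧ u ∉ A then 1 else 0) := by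
    intro u v
    have h2 : ∀ w : V, (idx S w : ℝ) = ∑ A ∈ S, (if w ∉ A then (1 : ℝ) else 0) := by
      intro w
      unfold idx
      rw [Finset.card_filter]
      push_cast
      rfl
    rw [h2, h2, ← Finset.sum_sub_distrib]
    refine (Finset.abs_sum_le_sum_abs _ _).trans (Finset.sum_le_sum fun A _ => ?_)
    by_cases hu : u ∈ A <;> by_cases hv : v ∈ A <;> simp [hu, hv]
  have h3 : ∀ A : Finset V, (bd G A : ℝ) = ∑ u, ∑ v, (if G.Adj u v then (if u ∈ A ∧ v ∉ A then (1 : ℝ) else 0) else 0) := by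
    intro A
    unfold bd
    rw [Finset.card_filter, Fintype.sum_prod_type]
    push_cast
    apply Finset.sum_congr rfl
    intro u _
    apply Finset.sum_congr rfl
    intro v _
    by_cases h : G.Adj u v <;> by_cases hu : u ∈ A <;> by_cases hv : v ∈ A <;> simp [h, hu, hv]
  have h4 : ∀ A : Finset V, (bd G A : ℝ) = ∑ u, ∑ v, (if G.Adj u v then (if v ∈ A ∧ u ∉ A then (1 : ℝ) else 0) else 0) := by
    intro A
    rw [h3 A, Finset.sum_comm]
    apply Finset.sum_congr rfl
    intro u _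
    apply Finset.sum_congr rfl
    intro v _
    simp only [G.adj_comm v u]
  calc ∑ u, ∑ v, (if G.Adj u v then |(idx S u : ℝ) - idx S v| else 0)
      ≤ ∑ u, ∑ v, ∑ A ∈ S, ((if G.Adj u v then (if u ∈ A ∧ v ∉ A then (1 : ℝ) else 0) else 0)
          + (if G.Adj u v then (if v ∈ A ∧ u ∉ A then (1 : ℝ) else 0) else 0)) := by
        refine Finset.sum_le_sum fun u _ => Finset.sum_le_sum fun v _ => ?_
        by_cases h : G.Adj u v
        · simp only [h, if_true]
          exact h1 u v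
        · simp [h]
    _ = ∑ A ∈ S, ∑ u, ∑ v, ((if G.Adj u v then (if u ∈ A ∧ v ∉ A then (1 : ℝ) else 0) else 0)
          + (if G.Adj u v then (if v ∈ A ∧ u ∉ A then (1 : ℝ) else 0) else 0)) := by
        exact (Finset.sum_congr rfl fun u _ => Finset.sum_comm).trans Finset.sum_comm
    _ = 2 * ∑ A ∈ S, (bd G A : ℝ) := by
        rw [Finset.mul_sum]
        apply Finset.sum_congr rfl
        intro A _
        simp only [Finset.sum_add_distrib]
        rw [← h3 A, ← h4 A]
        ring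

lemma swap3 {ι V : Type} [Fintype V] (s : Finset ι) (f : ι → V → V → ℝ) :
    ∑ i ∈ s, ∑ u, ∑ v, f i u v = ∑ u, ∑ v, ∑ i ∈ s, f i u v := by
  rw [Finset.sum_comm]
  exact Finset.sum_congr rfl fun u _ => Finset.sum_comm

lemma edge_bound (a b r J : ℕ) :
    ∑ j ∈ range J, ∑ t ∈ Icc (2 ^ j) (r - 2 ^ j), (psi (2 ^ j) t a - psi (2 ^ j) t b) ^ 2
      ≤ 16 * |(a : ℝ) - b| := by
  have h := dyadic |(a : ℝ) - b| (abs_nonneg _)
    (fun j => (1 / 4) * ∑ t ∈ Icc (2 ^ j) (r - 2 ^ j), (psi (2 ^ j) t a - psi (2 ^ j) t b) ^ 2)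
    (fun j => by
      have h1 := psi_sum1 (L := 2 ^ j) Nat.one_le_two_pow a b (Icc (2 ^ j) (r - 2 ^ j))
      push_cast at h1
      linarith)
    (fun j => by
      have h1 := psi_sum2 (L := 2 ^ j) Nat.one_le_two_pow a b (Icc (2 ^ j) (r - 2 ^ j))
      push_cast at h1
      linarith) J
  rw [← Finset.mul_sum] at h
  linarith

theorem nest : StmtNest := by
  intro M hM
  refine ⟨2 ^ (⌈32 * M⌉₊ + 2), Nat.one_le_two_pow, ?_⟩
  intro V _ G hres x y n hn S hSxy hS
  set r := S.card with hr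
  have hJ : ∀ J : ℕ, 2 ^ (J + 1) ≤ r → (J : ℝ) ≤ 32 * M * n := by
    intro J hJr
    have hr0 : 0 < r := lt_of_lt_of_le (by positivity) hJr
    have hr0' : (0 : ℝ) < r := by exact_mod_cast hr0
    have hsc : ∀ j ∈ range J, (r : ℝ) / 2 ≤
        M * ∑ t ∈ Icc (2 ^ j) (r - 2 ^ j), En G (fun u => psi (2 ^ j) t (idx S u)) := by
      intro j hj
      have hjJ := mem_range.1 hj
      have h1 : 1 ≤ 2 ^ j := Nat.one_le_two_pow
      have h2 : 4 * 2 ^ j ≤ r := by
        calc 4 * 2 ^ j = 2 ^ (j + 2) := by ring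
          _ ≤ 2 ^ (J + 1) := Nat.pow_le_pow_right (by norm_num) (by omega)
          _ ≤ r := hJr
      have h3 : ∀ t ∈ Icc (2 ^ j) (r - 2 ^ j),
          (1 : ℝ) ≤ M * En G (fun u => psi (2 ^ j) t (idx S u)) := by
        intro t ht
        obtain ⟨ht1, ht2⟩ := mem_Icc.1 ht
        obtain ⟨u, hu⟩ := attained S hS t (by omega) (by omega)
        have h4 := hres u x (fun u => psi (2 ^ j) t (idx S u))
        have h5 : idx S x = 0 := by
          unfold idx
          rw [Finset.card_eq_zero, Finset.filter_eq_empty_iff]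
          intro A hA hxA
          exact hxA (hSxy A hA).1
        simp only [hu, h5] at h4
        rw [psi_self, psi_zero h1 (Or.inr (by omega))] at h4
        linarith
      calc (r : ℝ) / 2 ≤ ((Icc (2 ^ j) (r - 2 ^ j)).card : ℝ) := by
            rw [Nat.card_Icc]
            have h6 : r ≤ 2 * (r - 2 ^ j + 1 - 2 ^ j) := by omega
            have h7 : (r : ℝ) ≤ 2 * ((r - 2 ^ j + 1 - 2 ^ j : ℕ) : ℝ) := by exact_mod_cast h6
            linarith
        _ = ∑ t ∈ Icc (2 ^ j) (r - 2 ^ j), (1 : ℝ) := by simp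
        _ ≤ ∑ t ∈ Icc (2 ^ j) (r - 2 ^ j), M * En G (fun u => psi (2 ^ j) t (idx S u)) :=
            Finset.sum_le_sum h3
        _ = _ := by rw [Finset.mul_sum]
    have htot : ∑ j ∈ range J, ∑ t ∈ Icc (2 ^ j) (r - 2 ^ j),
        En G (fun u => psi (2 ^ j) t (idx S u)) ≤ 16 * (r * n) := by
      have h7 : ∑ j ∈ range J, ∑ t ∈ Icc (2 ^ j) (r - 2 ^ j),
          En G (fun u => psi (2 ^ j) t (idx S u)) =
          (1 / 2) * ∑ u, ∑ v, ∑ j ∈ range J, ∑ t ∈ Icc (2 ^ j) (r - 2 ^ j),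
            (if G.Adj u v then (psi (2 ^ j) t (idx S u) - psi (2 ^ j) t (idx S v)) ^ 2 else 0) := by
        unfold En
        rw [← swap3]
        simp only [← swap3, Finset.mul_sum]
      rw [h7]
      have h8 : ∀ u v : V, ∑ j ∈ range J, ∑ t ∈ Icc (2 ^ j) (r - 2 ^ j),
            (if G.Adj u v then (psi (2 ^ j) t (idx S u) - psi (2 ^ j) t (idx S v)) ^ 2 else 0)
          ≤ 16 * (if G.Adj u v then |(idx S u : ℝ) - idx S v| else 0) := by
        intro u v
        by_cases h : G.Adj u v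
        · simp only [h, if_true]
          exact edge_bound _ _ _ _
        · simp [h]
      have h9 : ∑ u, ∑ v, ∑ j ∈ range J, ∑ t ∈ Icc (2 ^ j) (r - 2 ^ j),
            (if G.Adj u v then (psi (2 ^ j) t (idx S u) - psi (2 ^ j) t (idx S v)) ^ 2 else 0)
          ≤ 16 * ∑ u, ∑ v, (if G.Adj u v then |(idx S u : ℝ) - idx S v| else 0) := by
        rw [Finset.mul_sum]
        refine Finset.sum_le_sum fun u _ => ?_
        rw [Finset.mul_sum]
        exact Finset.sum_le_sum fun v _ => h8 u v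
      have h10 := sum_idx G S
      have h11 : ∑ A ∈ S, (bd G A : ℝ) ≤ r * n := by
        calc ∑ A ∈ S, (bd G A : ℝ) ≤ ∑ A ∈ S, (n : ℝ) :=
              Finset.sum_le_sum fun A hA => by exact_mod_cast (hSxy A hA).2.2
          _ = r * n := by rw [Finset.sum_const, nsmul_eq_mul]
      linarith
    have hfin : (J : ℝ) * (r / 2) ≤ M * (16 * (r * n)) := by
      calc (J : ℝ) * (r / 2) = ∑ j ∈ range J, (r : ℝ) / 2 := by
            rw [Finset.sum_const, card_range, nsmul_eq_mul]
        _ ≤ ∑ j ∈ range J, M * ∑ t ∈ Icc (2 ^ j) (r - 2 ^ j),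
              En G (fun u => psi (2 ^ j) t (idx S u)) := Finset.sum_le_sum hsc
        _ = M * ∑ j ∈ range J, ∑ t ∈ Icc (2 ^ j) (r - 2 ^ j),
              En G (fun u => psi (2 ^ j) t (idx S u)) := by rw [Finset.mul_sum]
        _ ≤ _ := mul_le_mul_of_nonneg_left htot hM.le
    have h12 : (J : ℝ) * r ≤ (32 * M * n) * r := by linarith
    exact le_of_mul_le_mul_right h12 hr0'
  by_contra hcon
  have hcon' : (2 ^ (⌈32 * M⌉₊ + 2)) ^ n < r := not_le.1 hcon
  have h13 : 2 ^ ((n * ⌈32 * M⌉₊ + 1) + 1) ≤ r := by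
    refine le_trans ?_ hcon'.le
    rw [← pow_mul]
    apply Nat.pow_le_pow_right (by norm_num)
    nlinarith
  have h14 := hJ _ h13
  have h15 : 32 * M ≤ (⌈32 * M⌉₊ : ℝ) := Nat.le_ceil _
  push_cast at h14
  have h16 : 32 * M * n ≤ (⌈32 * M⌉₊ : ℝ) * n := mul_le_mul_of_nonneg_right h15 (Nat.cast_nonneg n)
  linarith

end

end Pool.Agent.R521.IS.Nest
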