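import Pool.Agent.R521.IS.Stm

set_option autoImplicit false
set_option linter.unusedVariables false

/-! IS-PAIR: a good pair to merge. -/

open Finset Matrix

namespace Pool.Agent.R521.IS.Pair

noncomputable section
open Classical

theorem one_nonneg' {W : Type} (r : W) (i : W) : 0 ≤ one r i := by
  unfold one; split_ifs <;> norm_num

/-- Cut condition gives connectivity. -/
theorem conn {W : Type} [Fintype W] (c : W → W → ℝ) (hc : ∀ i j, 0 ≤ c i j) (c0 : ℝ) (h0 : 0 < c0)
    (hcut : Cut0 c c0) (f : W → ℝ) (hf : Ew c f = 0) (u v : W) : f u = f v := by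
  by_contra hne
  have hterm : ∀ i j, c i j * (f i - f j) ^ 2 = 0 := by
    have h1 : ∑ u, ∑ v, c u v * (f u - f v) ^ 2 = 0 := by
      unfold Ew at hf
      linarith
    have h2 : ∀ i ∈ (univ : Finset W), 0 ≤ ∑ v, c i v * (f i - f v) ^ 2 := fun i _ =>
      Finset.sum_nonneg fun j _ => mul_nonneg (hc i j) (sq_nonneg _)
    intro i j
    have h3 := (Finset.sum_eq_zero_iff_of_nonneg h2).mp h1 i (mem_univ i)
    exact (Finset.sum_eq_zero_iff_of_nonneg
      (fun j _ => mul_nonneg (hc i j) (sq_nonneg (f i - f j)))).mp h3 j (mem_univ j)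
  have hg : c0 ≤ Ew c (fun w => if f w = f u then 1 else 0) := by
    apply hcut
    · intro b
      by_cases hb : f b = f u
      · right; simp [hb]
      · left; simp [hb]
    · exact ⟨v, by simp [Ne.symm hne]⟩
    · exact ⟨u, by simp⟩
  have hz : Ew c (fun w => if f w = f u then (1 : ℝ) else 0) = 0 := by
    unfold Ew
    rw [Finset.sum_eq_zero, mul_zero]
    intro i _
    apply Finset.sum_eq_zero
    intro j _
    rcases mul_eq_zero.mp (hterm i j) with h | h
    · rw [h, zero_mul]
    · have h2 : f i = f j := by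
        have := pow_eq_zero_iff (two_ne_zero) |>.mp h
        linarith
      simp [h2]
  linarith

/-- diagonal entries of `MK c κ * Q`. -/
theorem diag_mul {W : Type} [Fintype W] (c : W → W → ℝ) (κ : W → ℝ) (Q : Matrix W W ℝ) (i : W) :
    (MK c κ * Q) i i = (∑ k, c i k) * Q i i - ∑ j, c i j * Q j i + κ i * Q i i := by
  unfold MK
  rw [add_mul, Matrix.add_apply, Matrix.mul_apply]
  have h1 : (Matrix.diagonal κ * Q) i i = κ i * Q i i := by
    rw [Matrix.diagonal_mul]
  rw [h1]
  congr 1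
  unfold Lap
  simp only [sub_mul, Finset.sum_sub_distrib, ite_mul, zero_mul, Finset.sum_ite_eq,
    Finset.mem_univ, if_true]

/-- trace identity. -/
theorem trace_id {W : Type} [Fintype W] (c : W → W → ℝ) (hs : ∀ i j, c i j = c j i) (κ : W → ℝ)
    (hM : IsUnit (MK c κ).det) :
    (1 / 2) * ∑ a, ∑ b, c a b * qf (MK c κ) a b =
      Fintype.card W - ∑ i, κ i * (MK c κ)⁻¹ i i := by
  set Q := (MK c κ)⁻¹ with hQ
  have h1 : MK c κ * Q = 1 := Matrix.mul_nonsing_inv _ hM
  have h2 : ∀ i, (∑ k, c i k) * Q i i - ∑ j, c i j * Q j i + κ i * Q i i = 1 := by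
    intro i
    rw [← diag_mul, h1, Matrix.one_apply_eq]
  have h3 : ∑ i, ((∑ k, c i k) * Q i i - ∑ j, c i j * Q j i + κ i * Q i i) = Fintype.card W := by
    rw [Finset.sum_congr rfl fun i _ => h2 i]
    simp
  rw [Finset.sum_add_distrib, Finset.sum_sub_distrib] at h3
  have h4 : ∑ a, ∑ b, c a b * qf (MK c κ) a b = ∑ a, ∑ b, c a b * Q a a - ∑ a, ∑ b, c a b * Q a b
      - ∑ a, ∑ b, c a b * Q b a + ∑ a, ∑ b, c a b * Q b b := by
    simp only [← Finset.sum_sub_distrib, ← Finset.sum_add_distrib]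
    refine Finset.sum_congr rfl fun a _ => Finset.sum_congr rfl fun b _ => ?_
    unfold qf
    rw [← hQ]
    ring
  have h5 : ∑ a, ∑ b, c a b * Q b b = ∑ a, ∑ b, c a b * Q a a := by
    rw [Finset.sum_comm]
    refine Finset.sum_congr rfl fun a _ => Finset.sum_congr rfl fun b _ => ?_
    rw [hs b a]
  have h6 : ∑ a, ∑ b, c a b * Q a b = ∑ a, ∑ b, c a b * Q b a := by
    rw [Finset.sum_comm]
    refine Finset.sum_congr rfl fun a _ => Finset.sum_congr rfl fun b _ => ?_
    rw [hs b a]
  have h7 : ∑ i, (∑ k, c i k) * Q i i = ∑ a, ∑ b, c a b * Q a a :=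
    Finset.sum_congr rfl fun i _ => by rw [Finset.sum_mul]
  rw [h4, h5, h6]
  rw [h7] at h3
  linarith

/-- `T⁻¹ r r = 1` for `T = MK c (one r)`. -/
theorem inv_rr {W : Type} [Fintype W] (c : W → W → ℝ) (r : W)
    (hT : IsUnit (MK c (one r)).det) : (MK c (one r))⁻¹ r r = 1 := by
  have h1 : (MK c (one r))⁻¹ * MK c (one r) = 1 := Matrix.nonsing_inv_mul _ hT
  have h2 : MK c (one r) *ᵥ (fun _ => (1 : ℝ)) = one r := by
    funext i
    unfold MK
    rw [Matrix.add_mulVec, Pi.add_apply, Matrix.mulVec_diagonal, mul_one]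
    have h3 : (Lap c *ᵥ fun _ => (1 : ℝ)) i = 0 := by
      simp only [Matrix.mulVec, dotProduct, Lap, mul_one, Finset.sum_sub_distrib,
        Finset.sum_ite_eq, Finset.mem_univ, if_true, sub_self]
    rw [h3, zero_add]
  have h3 : (MK c (one r))⁻¹ *ᵥ one r = fun _ => (1 : ℝ) := by
    calc (MK c (one r))⁻¹ *ᵥ one r
        = (MK c (one r))⁻¹ *ᵥ (MK c (one r) *ᵥ (fun _ => (1 : ℝ))) := by rw [h2]
      _ = fun _ => (1 : ℝ) := by rw [Matrix.mulVec_mulVec, h1, Matrix.one_mulVec]
  have h4 := congrFun h3 r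
  simp only [Matrix.mulVec, dotProduct, one, mul_ite, mul_one, mul_zero, Finset.sum_ite_eq',
    Finset.mem_univ, if_true] at h4
  exact h4

theorem qf_self {W : Type} [Fintype W] (M : Matrix W W ℝ) (a : W) : qf M a a = 0 := by
  unfold qf; ring

theorem qf_comm {W : Type} [Fintype W] (M : Matrix W W ℝ) (a b : W) : qf M a b = qf M b a := by
  unfold qf; ring

theorem qf_pos {W : Type} [Fintype W] (M : Matrix W W ℝ) (hM : M.PosDef) (a b : W) (hab : a ≠ b) :
    0 < qf M a b := by
  have h1 : M⁻¹.PosDef := hM.inv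
  have hx : (Pi.single a 1 - Pi.single b 1 : W → ℝ) ≠ 0 := by
    intro h
    have := congrFun h a
    simp [hab] at this
  have h2 := h1.dotProduct_mulVec_pos hx
  have h3 : star (Pi.single a 1 - Pi.single b 1 : W → ℝ) ⬝ᵥ
      (M⁻¹ *ᵥ (Pi.single a 1 - Pi.single b 1 : W → ℝ)) = qf M a b := by
    rw [star_trivial, Matrix.mulVec_sub, sub_dotProduct, dotProduct_sub, dotProduct_sub,
      single_one_dotProduct, single_one_dotProduct, single_one_dotProduct, single_one_dotProduct,
      Matrix.mulVec_single_one, Matrix.mulVec_single_one]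
    unfold qf
    simp only [Matrix.col_apply]
    ring
  rwa [h3] at h2

theorem pair (h1 : StmtPos) (h2 : StmtInv) : StmtPair := by
  intro c0 h0 W _ c hc hs hcard hcut κ r hκ
  have hconn := conn c hc c0 h0 hcut
  have hk : (0 : ℝ) < Fintype.card W := by
    have : 0 < Fintype.card W := by omega
    exact_mod_cast this
  have hpM : (MK c κ).PosDef :=
    h1 W c hc hs hconn κ (fun i => by linarith [hκ i]) ⟨r, by linarith [hκ r]⟩
  have hpT : (MK c (one r)).PosDef :=
    h1 W c hc hs hconn (one r) (one_nonneg' r) ⟨r, by simp [one]⟩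
  have huM : IsUnit (MK c κ).det := (Matrix.isUnit_iff_isUnit_det _).mp hpM.isUnit
  have huT : IsUnit (MK c (one r)).det := (Matrix.isUnit_iff_isUnit_det _).mp hpT.isUnit
  set c1 : ℝ := c0 / (1 + c0) with hc1
  have hc1pos : 0 < c1 := by positivity
  set k : ℝ := (Fintype.card W : ℝ) with hkdef
  set m : ℝ := ∑ i, κ i with hm
  have hmpos : 0 < m := Finset.sum_pos (fun i _ => by linarith [hκ i]) ⟨r, mem_univ r⟩
  set θ : ℝ := c1 * k / (c1 * k + m) with hθ
  have hθpos : 0 < θ := by positivity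
  have hS1 := trace_id c hs κ huM
  have hS2 := trace_id c hs (one r) huT
  have hrr : ∑ i, one r i * (MK c (one r))⁻¹ i i = 1 := by
    simp only [one, ite_mul, one_mul, zero_mul, Finset.sum_ite_eq', Finset.mem_univ, if_true]
    exact inv_rr c r huT
  rw [hrr] at hS2
  -- lower bound for the first sum
  have hlow : θ * k ≤ (1 / 2) * ∑ a, ∑ b, c a b * qf (MK c κ) a b := by
    rw [hS1]
    have hb : ∑ i, κ i * (MK c κ)⁻¹ i i ≤ ∑ i, (1 - c1 * (1 ^ 2 / (κ i + c1))) := by
      refine Finset.sum_le_sum fun i _ => ?_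
      have h3 := h2 c0 h0 W c hc hs hcard hcut κ hκ i
      rw [← hc1] at h3
      have hpos : 0 < κ i + c1 := by linarith [hκ i]
      calc κ i * (MK c κ)⁻¹ i i ≤ κ i * (1 / (κ i + c1)) :=
            mul_le_mul_of_nonneg_left h3 (by linarith [hκ i])
        _ = 1 - c1 * (1 ^ 2 / (κ i + c1)) := by field_simp; ring
    have hcs := Finset.sq_sum_div_le_sum_sq_div (univ : Finset W) (fun _ => (1 : ℝ))
      (g := fun i => κ i + c1) (fun i _ => by linarith [hκ i])
    have hsum1 : ∑ i : W, (1 : ℝ) = k := by simp [hkdef]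
    have hsum2 : ∑ i : W, (κ i + c1) = m + k * c1 := by
      rw [Finset.sum_add_distrib]; simp [hkdef, hm]
    rw [hsum1, hsum2] at hcs
    rw [Finset.sum_sub_distrib, hsum1, ← Finset.mul_sum] at hb
    have h4 : θ * k = c1 * (k ^ 2 / (m + k * c1)) := by
      rw [hθ]
      have : c1 * k + m = m + k * c1 := by ring
      rw [this]
      ring
    have h5 : c1 * (k ^ 2 / (m + k * c1)) ≤ c1 * ∑ i, 1 ^ 2 / (κ i + c1) :=
      mul_le_mul_of_nonneg_left hcs hc1pos.le
    rw [h4]
    linarith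
  -- existence of a good pair
  have hex : ∃ a b : W, a ≠ b ∧ θ * qf (MK c (one r)) a b ≤ qf (MK c κ) a b := by
    by_contra hcon
    push Not at hcon
    have h3 : ∑ a, ∑ b, c a b * qf (MK c κ) a b ≤
        ∑ a, ∑ b, c a b * (θ * qf (MK c (one r)) a b) := by
      refine Finset.sum_le_sum fun a _ => Finset.sum_le_sum fun b _ => ?_
      refine mul_le_mul_of_nonneg_left ?_ (hc a b)
      by_cases hab : a = b
      · subst hab
        rw [qf_self, qf_self, mul_zero]
      · exact (hcon a b hab).le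
    have h4 : ∑ a, ∑ b, c a b * (θ * qf (MK c (one r)) a b) =
        θ * ∑ a, ∑ b, c a b * qf (MK c (one r)) a b := by
      simp only [Finset.mul_sum]
      refine Finset.sum_congr rfl fun a _ => Finset.sum_congr rfl fun b _ => ?_
      ring
    have h5 : θ * k ≤ θ * (k - 1) := by
      calc θ * k ≤ (1 / 2) * ∑ a, ∑ b, c a b * qf (MK c κ) a b := hlow
        _ ≤ (1 / 2) * (θ * ∑ a, ∑ b, c a b * qf (MK c (one r)) a b) := by
            rw [← h4]; linarith
        _ = θ * ((1 / 2) * ∑ a, ∑ b, c a b * qf (MK c (one r)) a b) := by ring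
        _ = θ * (k - 1) := by rw [hS2]
    nlinarith
  have hfin : ∀ a b : W, θ * qf (MK c (one r)) a b ≤ qf (MK c κ) a b →
      qf (MK c (one r)) a b ≤ (1 + m / (c1 * k)) * qf (MK c κ) a b := by
    intro a b h
    have h3 : (1 + m / (c1 * k)) * θ = 1 := by
      rw [hθ]
      have h6 : c1 * k ≠ 0 := by positivity
      have h7 : c1 * k + m ≠ 0 := by positivity
      field_simp
    have h4 : 0 < 1 + m / (c1 * k) := by positivity
    calc qf (MK c (one r)) a b = ((1 + m / (c1 * k)) * θ) * qf (MK c (one r)) a b := by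
          rw [h3, one_mul]
      _ = (1 + m / (c1 * k)) * (θ * qf (MK c (one r)) a b) := by ring
      _ ≤ (1 + m / (c1 * k)) * qf (MK c κ) a b := mul_le_mul_of_nonneg_left h h4.le
  obtain ⟨a, b, hab, hle⟩ := hex
  by_cases hbr : b = r
  · refine ⟨b, a, hab.symm, fun h => hab (h.trans hbr.symm), qf_pos _ hpT b a hab.symm, ?_⟩
    rw [qf_comm _ b a, qf_comm _ b a]
    exact hfin a b hle
  · exact ⟨a, b, hab, hbr, qf_pos _ hpT a b hab, hfin a b hle⟩

end

end Pool.Agent.R521.IS.Pair
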