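import Pool.Agent.R521.IS.Stm

/-! Piece IS-PEI: the Peierls bound. -/

set_option autoImplicit false

open Finset

namespace Pool.Agent.R521.IS.Pei

open Classical in
theorem pei (h1 : StmtSep) (h2 : StmtFlip) : StmtPei := by
  intro V _ G hG β x y
  set Z : ℝ := ∑ σ : V → Bool, wt G β σ with hZ
  have hw : ∀ σ : V → Bool, 0 < wt G β σ := fun σ => Real.exp_pos _
  have hZ0 : 0 < Z := Finset.sum_pos (fun σ _ => hw σ) ⟨fun _ => true, Finset.mem_univ _⟩
  set C : Finset (Finset V) := univ.filter (fun A : Finset V => IsCut G x y A) with hC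
  set D : Finset (V → Bool) := univ.filter (fun σ : V → Bool => σ x ≠ σ y) with hD
  have e : ∑ σ : V → Bool, sp (σ x) * sp (σ y) * wt G β σ = Z - 2 * ∑ σ ∈ D, wt G β σ := by
    rw [hD, Finset.sum_filter, Finset.mul_sum, hZ, ← Finset.sum_sub_distrib]
    refine Finset.sum_congr rfl fun σ _ => ?_
    cases hx : σ x <;> cases hy : σ y <;> simp [sp] <;> ring
  have b : ∑ σ ∈ D, wt G β σ ≤ ∑ A ∈ C, Real.exp (-(2 * β * (bd G A : ℝ))) * Z := by
    calc ∑ σ ∈ D, wt G β σ
        ≤ ∑ σ ∈ D, ∑ A ∈ C, (if ∀ u ∈ A, ∀ v, v ∉ A → G.Adj u v → σ u ≠ σ v then wt G β σ else 0) := by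
          refine Finset.sum_le_sum fun σ hσ => ?_
          obtain ⟨A, hA, hs⟩ := h1 V G hG x y σ (Finset.mem_filter.1 hσ).2
          have hAC : A ∈ C := Finset.mem_filter.2 ⟨Finset.mem_univ _, hA⟩
          have h3 := Finset.single_le_sum (f := fun A : Finset V =>
            (if ∀ u ∈ A, ∀ v, v ∉ A → G.Adj u v → σ u ≠ σ v then wt G β σ else 0))
            (fun B _ => by
              show 0 ≤ (if ∀ u ∈ B, ∀ v, v ∉ B → G.Adj u v → σ u ≠ σ v then wt G β σ else 0)
              split_ifs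
              · exact (hw σ).le
              · exact le_rfl) hAC
          refine le_trans ?_ h3
          show wt G β σ ≤ (if ∀ u ∈ A, ∀ v, v ∉ A → G.Adj u v → σ u ≠ σ v then wt G β σ else 0)
          rw [if_pos hs]
      _ ≤ ∑ σ : V → Bool, ∑ A ∈ C,
            (if ∀ u ∈ A, ∀ v, v ∉ A → G.Adj u v → σ u ≠ σ v then wt G β σ else 0) := by
          refine Finset.sum_le_univ_sum_of_nonneg fun σ => Finset.sum_nonneg fun A _ => ?_
          split_ifs
          · exact (hw σ).le
          · exact le_rfl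
      _ = ∑ A ∈ C, ∑ σ : V → Bool,
            (if ∀ u ∈ A, ∀ v, v ∉ A → G.Adj u v → σ u ≠ σ v then wt G β σ else 0) :=
          Finset.sum_comm
      _ ≤ ∑ A ∈ C, Real.exp (-(2 * β * (bd G A : ℝ))) * Z := by
          refine Finset.sum_le_sum fun A _ => ?_
          rw [← Finset.sum_filter]
          exact h2 V G β A
  have hc : corr G β x y = 1 - 2 * ((∑ σ ∈ D, wt G β σ) / Z) := by
    unfold corr
    rw [e, ← hZ]
    field_simp
  rw [hc]
  have h4 : (∑ σ ∈ D, wt G β σ) / Z ≤ ∑ A ∈ C, Real.exp (-(2 * β * (bd G A : ℝ))) := by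
    rw [div_le_iff₀ hZ0, Finset.sum_mul]
    exact b
  linarith

end Pool.Agent.R521.IS.Pei
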