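import Pool.Agent.R521.IS.Stm

set_option autoImplicit false

/-!
# Piece IS-POS (helper507): Laplacian plus nonnegative diagonal is positive definite
-/

open Finset Matrix

namespace Pool.Agent.R521.IS.Pos

noncomputable section
open Classical

theorem lap_quad {W : Type} [Fintype W] (c : W → W → ℝ) (hs : ∀ i j, c i j = c j i) (x : W → ℝ) :
    x ⬝ᵥ (Lap c *ᵥ x) = Ew c x := by
  have h1 : x ⬝ᵥ (Lap c *ᵥ x) = ∑ i, ∑ j, (c i j * x i ^ 2 - c i j * (x i * x j)) := by
    unfold dotProduct
    refine Finset.sum_congr rfl fun i _ => ?_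
    have h2 : (Lap c *ᵥ x) i = (∑ k, c i k) * x i - ∑ j, c i j * x j := by
      unfold mulVec dotProduct Lap
      simp only [sub_mul, ite_mul, zero_mul, Finset.sum_sub_distrib, Finset.sum_ite_eq,
        Finset.mem_univ, if_true]
    rw [h2, Finset.sum_sub_distrib, mul_sub, ← Finset.sum_mul, Finset.mul_sum]
    congr 1
    · ring
    · refine Finset.sum_congr rfl fun j _ => ?_
      ring
  have h3 : ∑ i, ∑ j, c i j * x j ^ 2 = ∑ i, ∑ j, c i j * x i ^ 2 := by
    rw [Finset.sum_comm]
    refine Finset.sum_congr rfl fun i _ => Finset.sum_congr rfl fun j _ => ?_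
    rw [hs]
  rw [h1]
  unfold Ew
  have h4 : ∀ u v, c u v * (x u - x v) ^ 2 =
      (c u v * x u ^ 2 + c u v * x v ^ 2) - 2 * (c u v * (x u * x v)) := by
    intro u v
    ring
  simp only [h4, Finset.sum_sub_distrib, Finset.sum_add_distrib, ← Finset.mul_sum]
  rw [h3]
  ring

theorem Ew_nonneg {W : Type} [Fintype W] (c : W → W → ℝ) (h0 : ∀ i j, 0 ≤ c i j) (x : W → ℝ) :
    0 ≤ Ew c x := by
  unfold Ew
  have := Finset.sum_nonneg (s := (univ : Finset W)) fun u _ =>
    Finset.sum_nonneg (s := (univ : Finset W)) fun v _ => mul_nonneg (h0 u v) (sq_nonneg (x u - x v))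
  linarith

theorem diag_quad {W : Type} [Fintype W] (κ x : W → ℝ) :
    x ⬝ᵥ (Matrix.diagonal κ *ᵥ x) = ∑ i, κ i * x i ^ 2 := by
  unfold dotProduct
  refine Finset.sum_congr rfl fun i _ => ?_
  rw [mulVec_diagonal]
  ring

end

end Pool.Agent.R521.IS.Pos

namespace Pool.Agent.R521.IS.Pos

noncomputable section
open Classical

theorem pos : StmtPos := by
  intro W _ c h0 hs hconn κ hκ ⟨i0, hi0⟩
  refine Matrix.PosDef.of_dotProduct_mulVec_pos ?_ ?_
  · ext i j
    rw [conjTranspose_apply, star_trivial]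
    have e : ∀ i j, MK c κ i j = ((if i = j then ∑ k, c i k else 0) - c i j) +
        Matrix.diagonal κ i j := fun _ _ => rfl
    rw [e, e]
    by_cases h : i = j
    · subst h
      rfl
    · rw [if_neg h, if_neg (fun e => h e.symm), Matrix.diagonal_apply_ne _ h,
        Matrix.diagonal_apply_ne _ (fun e => h e.symm), hs]
  · intro x hx
    rw [star_trivial]
    unfold MK
    rw [Matrix.add_mulVec, dotProduct_add, lap_quad c hs, diag_quad]
    have hE := Ew_nonneg c h0 x
    have hD : 0 ≤ ∑ i, κ i * x i ^ 2 :=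
      Finset.sum_nonneg fun i _ => mul_nonneg (hκ i) (sq_nonneg _)
    rcases hE.lt_or_eq with h | h
    · linarith
    · rcases hD.lt_or_eq with h' | h'
      · linarith
      · exfalso
        apply hx
        have hc := hconn x h.symm
        have h5 := (Finset.sum_eq_zero_iff_of_nonneg
          (fun i _ => mul_nonneg (hκ i) (sq_nonneg (x i)))).1 h'.symm i0 (Finset.mem_univ _)
        have h6 : x i0 = 0 := by
          rcases mul_eq_zero.1 h5 with h7 | h7
          · exact absurd h7 hi0.ne'
          · exact pow_eq_zero_iff (by norm_num) |>.1 h7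
        ext i
        rw [hc i i0, h6]
        rfl

end

end Pool.Agent.R521.IS.Pos
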