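import Pool.Agent.R521.IS.Stm

set_option autoImplicit false
set_option linter.unusedVariables false

open Finset Matrix

namespace Pool.Agent.R521.IS.Ratio

open Pool.Agent.R521.IS
open Classical

theorem quad {W : Type} [Fintype W] (c : W → W → ℝ) (hs : ∀ i j, c i j = c j i) (κ x : W → ℝ) :
    x ⬝ᵥ (MK c κ *ᵥ x) = Ew c x + ∑ i, κ i * x i ^ 2 := by
  have e1 : x ⬝ᵥ (MK c κ *ᵥ x) = ∑ i, ∑ j, x i * (MK c κ i j * x j) := by
    simp only [dotProduct, mulVec, Finset.mul_sum]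
  have e2 : ∀ i j, x i * (MK c κ i j * x j) =
      (if i = j then x i * x j * (∑ k, c i k) else 0) - c i j * (x i * x j)
        + (if i = j then κ i * (x i * x j) else 0) := by
    intro i j
    simp only [MK, Lap, Matrix.add_apply, Matrix.diagonal_apply]
    split_ifs with h <;> ring
  rw [e1]
  simp only [e2, Finset.sum_add_distrib, Finset.sum_sub_distrib, Finset.sum_ite_eq,
    Finset.mem_univ, if_true]
  have e3 : Ew c x = ∑ i, x i * x i * (∑ k, c i k) - ∑ i, ∑ j, c i j * (x i * x j) := by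
    unfold Ew
    have e4 : ∀ u v, c u v * (x u - x v) ^ 2 = c u v * (x u * x u) + c u v * (x v * x v)
        - 2 * (c u v * (x u * x v)) := by intro u v; ring
    simp only [e4, Finset.sum_add_distrib, Finset.sum_sub_distrib, ← Finset.mul_sum]
    have e5 : ∑ u, ∑ v, c u v * (x v * x v) = ∑ u, ∑ v, c u v * (x u * x u) := by
      rw [Finset.sum_comm]
      refine Finset.sum_congr rfl fun u _ => Finset.sum_congr rfl fun v _ => ?_
      rw [hs]
    have e6 : ∑ u, ∑ v, c u v * (x u * x u) = ∑ i, x i * x i * (∑ k, c i k) := by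
      refine Finset.sum_congr rfl fun u _ => ?_
      rw [Finset.mul_sum]
      exact Finset.sum_congr rfl fun v _ => by ring
    rw [e5, e6]
    ring
  rw [e3]
  congr 1
  exact Finset.sum_congr rfl fun i _ => by ring

theorem det_nonneg {W : Type} [Fintype W] (c : W → W → ℝ) (h0 : ∀ i j, 0 ≤ c i j)
    (hs : ∀ i j, c i j = c j i) (κ : W → ℝ) (hκ : ∀ i, 0 ≤ κ i) : 0 ≤ (MK c κ).det := by
  have hH : (MK c κ).IsHermitian := by
    ext i j
    simp only [MK, Lap, Matrix.conjTranspose_apply, Matrix.add_apply, Matrix.diagonal_apply,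
      star_trivial]
    by_cases h : i = j
    · subst h; rfl
    · have h' : j ≠ i := fun e => h e.symm
      simp only [if_neg h, if_neg h', hs i j]
  have hP : (MK c κ).PosSemidef := by
    refine Matrix.PosSemidef.of_dotProduct_mulVec_nonneg hH fun x => ?_
    simp only [star_trivial]
    rw [quad c hs κ x]
    have h1 : 0 ≤ Ew c x := by
      unfold Ew
      refine mul_nonneg (by norm_num) (Finset.sum_nonneg fun u _ => Finset.sum_nonneg fun v _ =>
        mul_nonneg (h0 u v) (sq_nonneg _))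
    have h2 : 0 ≤ ∑ i, κ i * x i ^ 2 := Finset.sum_nonneg fun i _ => mul_nonneg (hκ i) (sq_nonneg _)
    exact add_nonneg h1 h2
  exact hP.det_nonneg

theorem cG_nonneg {V : Type} (G : SimpleGraph V) (A : Finset V) (i j : {v : V // v ∈ A}) :
    0 ≤ cG G A i j := by unfold cG; split_ifs <;> norm_num

theorem cG_symm {V : Type} (G : SimpleGraph V) (A : Finset V) (i j : {v : V // v ∈ A}) :
    cG G A i j = cG G A j i := by
  unfold cG
  simp only [G.adj_comm]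

theorem cG_conn {V : Type} [Fintype V] (G : SimpleGraph V) (A : Finset V)
    (hc : (G.induce (A : Set V)).Connected) (f : {v : V // v ∈ A} → ℝ) (hf : Ew (cG G A) f = 0) :
    ∀ u v, f u = f v := by
  have hterm : ∀ u v : {v : V // v ∈ A}, G.Adj u v → f u = f v := by
    intro u v huv
    have h1 : ∑ u, ∑ v, cG G A u v * (f u - f v) ^ 2 = 0 := by
      unfold Ew at hf; linarith
    have h2 : ∀ u ∈ (Finset.univ : Finset {v : V // v ∈ A}), ∑ v, cG G A u v * (f u - f v) ^ 2 = 0 := by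
      rw [Finset.sum_eq_zero_iff_of_nonneg] at h1
      · exact h1
      · intro u _
        exact Finset.sum_nonneg fun v _ => mul_nonneg (cG_nonneg G A u v) (sq_nonneg _)
    have h3 := h2 u (Finset.mem_univ _)
    rw [Finset.sum_eq_zero_iff_of_nonneg] at h3
    · have h4 := h3 v (Finset.mem_univ _)
      unfold cG at h4
      rw [if_pos huv, one_mul] at h4
      have := pow_eq_zero_iff (two_ne_zero) |>.1 h4
      linarith
    · intro v _
      exact mul_nonneg (cG_nonneg G A u v) (sq_nonneg _)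
  intro u v
  have hr := hc.preconnected (⟨u.1, u.2⟩ : (A : Set V)) (⟨v.1, v.2⟩ : (A : Set V))
  obtain ⟨w⟩ := hr
  have key : ∀ (a b : (A : Set V)), (G.induce (A : Set V)).Walk a b →
      f ⟨a.1, a.2⟩ = f ⟨b.1, b.2⟩ := by
    intro a b w
    induction w with
    | nil => rfl
    | cons h p ih =>
      rw [← ih]
      exact hterm _ _ h
  exact key _ _ w

theorem Ew_ext {V : Type} [Fintype V] (G : SimpleGraph V) (A : Finset V) (f : {v : V // v ∈ A} → ℝ)
    (F : V → ℝ) (hF : ∀ v (h : v ∈ A), F v = f ⟨v, h⟩) :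
    (1 / 2) * ∑ u ∈ A, ∑ v ∈ A, (if G.Adj u v then (F u - F v) ^ 2 else 0) = Ew (cG G A) f := by
  unfold Ew
  congr 1
  rw [← Finset.sum_coe_sort A]
  refine Finset.sum_congr rfl fun u _ => ?_
  rw [← Finset.sum_coe_sort A]
  refine Finset.sum_congr rfl fun v _ => ?_
  rw [hF u.1 u.2, hF v.1 v.2]
  unfold cG
  split_ifs <;> simp

theorem side {V : Type} [Fintype V] (G : SimpleGraph V) {M c0 : ℝ}
    (hres : ∀ (A : Finset V) (z : V), z ∉ A → (G.induce (A : Set V)).Connected →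
      ∀ (B : Finset V), B ⊆ A → (∀ u ∈ A, ∀ v, v ∉ A → G.Adj u v → u ∈ B) →
      ∀ (f : V → ℝ), (∀ b ∈ B, f b = 0 ∨ f b = 1) → (∃ b ∈ B, f b = 0) → (∃ b ∈ B, f b = 1) →
        c0 ≤ (1 / 2) * ∑ u ∈ A, ∑ v ∈ A, if G.Adj u v then (f u - f v) ^ 2 else 0)
    (A : Finset V) (z : V) (hz : z ∉ A) (hc : (G.induce (A : Set V)).Connected)
    (κ : {v : V // v ∈ A} → ℕ) (hκ : ∀ u : {v : V // v ∈ A}, kG G A (u : V) ≤ κ u) (f : {v : V // v ∈ A} → ℝ)
    (h1 : ∀ b, 1 ≤ κ b → (f b = 0 ∨ f b = 1)) (h2 : ∃ b, 1 ≤ κ b ∧ f b = 0)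
    (h3 : ∃ b, 1 ≤ κ b ∧ f b = 1) : c0 ≤ Ew (cG G A) f := by
  let F : V → ℝ := fun v => if h : v ∈ A then f ⟨v, h⟩ else 0
  have hF : ∀ v (h : v ∈ A), F v = f ⟨v, h⟩ := fun v h => by simp only [F]; rw [dif_pos h]
  rw [← Ew_ext G A f F hF]
  let B : Finset V := A.filter (fun u => ∃ h : u ∈ A, 1 ≤ κ ⟨u, h⟩)
  refine hres A z hz hc B (Finset.filter_subset _ _) ?_ F ?_ ?_ ?_
  · intro u hu v hv huv
    refine Finset.mem_filter.2 ⟨hu, hu, le_trans ?_ (hκ ⟨u, hu⟩)⟩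
    unfold kG
    exact Finset.card_pos.2 ⟨v, Finset.mem_filter.2 ⟨Finset.mem_univ _, hv, huv⟩⟩
  · intro b hb
    obtain ⟨hbA, h, hb1⟩ := Finset.mem_filter.1 hb
    rw [hF b h]
    exact h1 _ hb1
  · obtain ⟨b, hb1, hb2⟩ := h2
    exact ⟨b.1, Finset.mem_filter.2 ⟨b.2, b.2, hb1⟩, by rw [hF b.1 b.2]; exact hb2⟩
  · obtain ⟨b, hb1, hb2⟩ := h3
    exact ⟨b.1, Finset.mem_filter.2 ⟨b.2, b.2, hb1⟩, by rw [hF b.1 b.2]; exact hb2⟩

theorem sum_kG {V : Type} [Fintype V] (G : SimpleGraph V) (A : Finset V) :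
    ∑ u : {v : V // v ∈ A}, kG G A u = bd G A := by
  unfold bd kG
  rw [Finset.card_filter, Fintype.sum_prod_type]
  rw [Finset.sum_coe_sort A (fun u => (Finset.univ.filter (fun v => v ∉ A ∧ G.Adj u v)).card)]
  have : ∀ u : V, (∑ v : V, if (u ∈ A ∧ v ∉ A ∧ G.Adj u v) then 1 else 0)
      = if u ∈ A then (Finset.univ.filter (fun v => v ∉ A ∧ G.Adj u v)).card else 0 := by
    intro u
    by_cases hu : u ∈ A
    · rw [if_pos hu, Finset.card_filter]
      simp [hu]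
    · rw [if_neg hu]; simp [hu]
  simp only [this]
  rw [← Finset.sum_filter]
  simp

theorem bd_compl {V : Type} [Fintype V] (G : SimpleGraph V) (A : Finset V) :
    bd G Aᶜ = bd G A := by
  unfold bd
  refine Finset.card_bij (fun p _ => (p.2, p.1)) ?_ ?_ ?_
  · rintro ⟨u, v⟩ h
    simp only [Finset.mem_filter, Finset.mem_univ, true_and, Finset.mem_compl, not_not] at h ⊢
    exact ⟨h.2.1, h.1, h.2.2.symm⟩
  · rintro ⟨u, v⟩ _ ⟨u', v'⟩ _ h
    simp only [Prod.mk.injEq] at h ⊢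
    exact ⟨h.2, h.1⟩
  · rintro ⟨u, v⟩ h
    simp only [Finset.mem_filter, Finset.mem_univ, true_and, Finset.mem_compl, not_not] at h ⊢
    exact ⟨(v, u), ⟨h.2.1, h.1, h.2.2.symm⟩, rfl⟩

theorem det_inst {W : Type} [Fintype W] (i1 i2 : DecidableEq W) (M : Matrix W W ℝ) :
    @Matrix.det W i1 _ ℝ _ M = @Matrix.det W i2 _ ℝ _ M := by
  have : i1 = i2 := Subsingleton.elim _ _
  subst this
  rfl

/-- the final computation. -/
theorem fin_calc {K t D1 D2 E1 E2 c : ℝ} {n : ℕ} (hK : 1 ≤ K) (hn : 1 ≤ n) (ht : t ≤ D1 * D2)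
    (hd1 : D1 ≤ K ^ n * E1) (hd2 : D2 ≤ K ^ (n + 1) * E2) (hl : E1 * E2 ≤ c)
    (hn1 : 0 ≤ E1) (hn2 : 0 ≤ D2) (hc : 0 ≤ c) : t ≤ (K ^ 3) ^ n * c := by
  have hK0 : 0 ≤ K := by linarith
  refine ht.trans ((mul_le_mul hd1 hd2 hn2 (mul_nonneg (pow_nonneg hK0 _) hn1)).trans ?_)
  have e : K ^ n * E1 * (K ^ (n + 1) * E2) = K ^ (2 * n + 1) * (E1 * E2) := by ring
  rw [e, ← pow_mul]
  calc K ^ (2 * n + 1) * (E1 * E2) ≤ K ^ (2 * n + 1) * c :=
        mul_le_mul_of_nonneg_left hl (pow_nonneg hK0 _)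
    _ ≤ K ^ (3 * n) * c := mul_le_mul_of_nonneg_right (pow_le_pow_right₀ hK (by omega)) hc

theorem ratio (h1 : StmtDet) (h2 : StmtTup) (h3 : StmtTlow) (h4 : StmtRes) : StmtRatio := by
  intro M hM
  obtain ⟨c0, hc0, hres⟩ := h4 M hM
  obtain ⟨K, hK, hdet⟩ := h1 c0 hc0
  refine ⟨K ^ 3, one_le_pow₀ hK, ?_⟩
  intro V _ G hG hR x y A hA
  obtain ⟨hx, hy, hcA, hcAc⟩ := hA
  have hyc : y ∈ (Aᶜ : Finset V) := Finset.mem_compl.2 hy
  have hxc : x ∉ (Aᶜ : Finset V) := fun h => Finset.mem_compl.1 h hx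
  -- a crossing edge
  obtain ⟨a, ha, b, hb, hab⟩ : ∃ a ∈ A, ∃ b, b ∉ A ∧ G.Adj a b := by
    obtain ⟨p⟩ := hG.preconnected x y
    obtain ⟨d, -, hd1, hd2⟩ := p.exists_boundary_dart (A : Set V) hx hy
    exact ⟨d.fst, hd1, d.snd, hd2, d.adj⟩
  have hres' := hres V G hR
  have hd1 := hdet {v : V // v ∈ A} (cG G A) (cG_nonneg G A) (cG_symm G A) (cG_conn G A hcA)
    (fun u => kG G A u) ⟨a, ha⟩ (by
      unfold kG
      exact Finset.card_pos.2 ⟨b, Finset.mem_filter.2 ⟨Finset.mem_univ _, hb, hab⟩⟩)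
    (fun f g1 g2 g3 => side G (M := M) hres' A y hy hcA (fun u => kG G A u) (fun u => le_rfl) f g1 g2 g3)
  have hd2 := hdet {v : V // v ∈ Aᶜ} (cG G Aᶜ) (cG_nonneg G Aᶜ) (cG_symm G Aᶜ) (cG_conn G Aᶜ hcAc)
    (fun u => kG G Aᶜ u + if (u : V) = y then 1 else 0) ⟨y, hyc⟩ (by simp)
    (fun f g1 g2 g3 => side G (M := M) hres' Aᶜ x hxc hcAc
      (fun u => kG G Aᶜ u + if (u : V) = y then 1 else 0) (fun u => Nat.le_add_right _ _) f g1 g2 g3)
  have hs1 : ∑ u : {v : V // v ∈ A}, kG G A u = bd G A := sum_kG G A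
  have hs2 : ∑ u : {v : V // v ∈ Aᶜ}, (kG G Aᶜ u + if (u : V) = y then 1 else 0) = bd G A + 1 := by
    rw [Finset.sum_add_distrib, sum_kG G Aᶜ, bd_compl]
    congr 1
    rw [Finset.sum_coe_sort (Aᶜ) (fun u => if u = y then 1 else 0)]
    rw [Finset.sum_ite_eq' Aᶜ y]
    simp [hy]
  rw [hs1] at hd1
  rw [hs2] at hd2
  have ht := h2 V G A y hy
  have hl := h3 V G A y hyc a ha b hb hab
  rw [det_inst _ (fun a b => Classical.propDecidable (a = b)) (MK (cG G A) _),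
    det_inst _ (fun a b => Classical.propDecidable (a = b)) (MK (cG G Aᶜ) _)] at ht
  rw [det_inst _ (fun a b => Classical.propDecidable (a = b)) (MK (cG G A) _),
    det_inst _ (fun a b => Classical.propDecidable (a = b)) (MK (cG G Aᶜ) _)] at hl
  have hn1 := det_nonneg (cG G A) (cG_nonneg G A) (cG_symm G A)
    (one (⟨a, ha⟩ : {v : V // v ∈ A})) (fun i => by unfold one; split_ifs <;> norm_num)
  have hn2 := det_nonneg (cG G Aᶜ) (cG_nonneg G Aᶜ) (cG_symm G Aᶜ)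
    (fun u => ((kG G Aᶜ u + if (u : V) = y then 1 else 0 : ℕ) : ℝ)) (fun i => Nat.cast_nonneg _)
  have hbd : 1 ≤ bd G A := by
    unfold bd
    exact Finset.card_pos.2 ⟨(a, b), Finset.mem_filter.2 ⟨Finset.mem_univ _, ha, hb, hab⟩⟩
  exact fin_calc hK hbd ht hd1 hd2 hl hn1 hn2 (Nat.cast_nonneg _)

end Pool.Agent.R521.IS.Ratio
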