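import Pool.Agent.R521.IS.Stm

set_option autoImplicit false

open Finset

namespace Pool.Agent.R521.IS.Res

noncomputable section
open Classical

/-- the tent function `4 min(t, 1 - t)` clipped at `0`. -/
def tent (t : ℝ) : ℝ := max 0 (min (4 * t) (4 * (1 - t)))

lemma tent_zero : tent 0 = 0 := by simp [tent]

lemma tent_one : tent 1 = 0 := by simp [tent]

lemma tent_ge {t : ℝ} (h1 : 1 / 4 ≤ t) (h2 : t ≤ 3 / 4) : 1 ≤ tent t := by
  unfold tent
  apply le_max_of_le_right
  apply le_min <;> linarith

lemma tent_up (s t : ℝ) : tent s ≤ tent t + 4 * |s - t| := by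
  have ha : s - t ≤ |s - t| := le_abs_self _
  have hb : -(s - t) ≤ |s - t| := neg_le_abs _
  have hc : 0 ≤ |s - t| := abs_nonneg _
  have h0 : 0 ≤ tent t := le_max_left _ _
  have h1 : min (4 * t) (4 * (1 - t)) ≤ tent t := le_max_right _ _
  unfold tent
  apply max_le
  · change 0 ≤ tent t + _
    linarith
  · change min (4 * s) (4 * (1 - s)) ≤ tent t + _
    rcases min_choice (4 * t) (4 * (1 - t)) with h | h
    · rw [h] at h1
      have := min_le_left (4 * s) (4 * (1 - s))
      linarith
    · rw [h] at h1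
      have := min_le_right (4 * s) (4 * (1 - s))
      linarith

lemma tent_sq (s t : ℝ) : (tent s - tent t) ^ 2 ≤ 16 * (s - t) ^ 2 := by
  have h1 := tent_up s t
  have h2 := tent_up t s
  rw [abs_sub_comm t s] at h2
  have h3 : |tent s - tent t| ≤ 4 * |s - t| := abs_le.2 ⟨by linarith, by linarith⟩
  calc (tent s - tent t) ^ 2 = |tent s - tent t| ^ 2 := (sq_abs _).symm
    _ ≤ (4 * |s - t|) ^ 2 := pow_le_pow_left₀ (abs_nonneg _) h3 2
    _ = 16 * (s - t) ^ 2 := by rw [mul_pow, sq_abs]; norm_num

theorem res : StmtRes := by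
  intro M hM
  refine ⟨min (1 / 4) (1 / (16 * M)), by positivity, ?_⟩
  intro V _ G hR A z hz hconn B hBA hB f hf h0 h1
  by_contra hlt
  rw [not_le] at hlt
  set E : ℝ := (1 / 2) * ∑ u ∈ A, ∑ v ∈ A, (if G.Adj u v then (f u - f v) ^ 2 else 0) with hE
  have hE4 : E < 1 / 4 := lt_of_lt_of_le hlt (min_le_left _ _)
  have hE16 : E < 1 / (16 * M) := lt_of_lt_of_le hlt (min_le_right _ _)
  have hterm : ∀ u v, (0 : ℝ) ≤ (if G.Adj u v then (f u - f v) ^ 2 else 0) := by
    intro u v
    split_ifs
    · positivity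
    · exact le_refl _
  have hrow : ∀ u, (0 : ℝ) ≤ ∑ v ∈ A, (if G.Adj u v then (f u - f v) ^ 2 else 0) :=
    fun u => Finset.sum_nonneg (fun v _ => hterm u v)
  have hrowge : ∀ u, ∀ v ∈ A, G.Adj u v →
      (f u - f v) ^ 2 ≤ ∑ v ∈ A, (if G.Adj u v then (f u - f v) ^ 2 else 0) := by
    intro u v hv hadj
    have := Finset.single_le_sum (f := fun v => (if G.Adj u v then (f u - f v) ^ 2 else 0))
      (fun v _ => hterm u v) hv
    simpa [hadj] using this
  have hedge : ∀ u ∈ A, ∀ v ∈ A, G.Adj u v → (f u - f v) ^ 2 ≤ E := by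
    intro u hu v hv hadj
    have hne : u ≠ v := hadj.ne
    have hsub : ({u, v} : Finset V) ⊆ A := by
      intro w hw
      rcases Finset.mem_insert.1 hw with h | h
      · rw [h]; exact hu
      · rw [Finset.mem_singleton.1 h]; exact hv
    have h2 := Finset.sum_le_sum_of_subset_of_nonneg
      (f := fun u => ∑ v ∈ A, (if G.Adj u v then (f u - f v) ^ 2 else 0)) hsub
      (fun u _ _ => hrow u)
    rw [Finset.sum_pair hne] at h2
    have h3 := hrowge u v hv hadj
    have h4 := hrowge v u hu hadj.symm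
    have h5 : (f v - f u) ^ 2 = (f u - f v) ^ 2 := by ring
    rw [hE]
    linarith
  -- a middle point
  have hmid : ∃ m ∈ A, 1 / 4 ≤ f m ∧ f m ≤ 3 / 4 := by
    by_contra hno
    push Not at hno
    obtain ⟨b0, hb0, hf0⟩ := h0
    obtain ⟨b1, hb1, hf1⟩ := h1
    have key : ∀ (x y : (A : Set V)) (_p : (G.induce (A : Set V)).Walk x y),
        f x < 1 / 4 → f y < 1 / 4 := by
      intro x y p
      induction p with
      | nil => exact id
      | @cons u v w h p ih =>
        intro hu
        apply ih
        by_contra hge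
        rw [not_lt] at hge
        have hvA : (v : V) ∈ A := v.2
        have huA : (u : V) ∈ A := u.2
        have h34 := hno v hvA hge
        have hadj : G.Adj (u : V) (v : V) := h
        have he := hedge u huA v hvA hadj
        nlinarith
    have hwalk := hconn.preconnected ⟨b0, hBA hb0⟩ ⟨b1, hBA hb1⟩
    obtain ⟨p⟩ := hwalk
    have := key _ _ p (by rw [hf0]; norm_num)
    change f b1 < 1 / 4 at this
    rw [hf1] at this
    norm_num at this
  obtain ⟨m, hmA, hm1, hm2⟩ := hmid
  set ψ : V → ℝ := fun v => if v ∈ A then tent (f v) else 0 with hψ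
  have hψB : ∀ b ∈ B, ψ b = 0 := by
    intro b hb
    simp only [hψ]
    rw [if_pos (hBA hb)]
    rcases hf b hb with h | h
    · rw [h, tent_zero]
    · rw [h, tent_one]
  have hψout : ∀ v, v ∉ A → ψ v = 0 := by
    intro v hv
    simp only [hψ]
    rw [if_neg hv]
  have hψin : ∀ v, v ∈ A → ψ v = tent (f v) := by
    intro v hv
    simp only [hψ]
    rw [if_pos hv]
  have hEn : En G ψ ≤ 16 * E := by
    have hz1 : ∀ u v, (u ∉ A ∨ v ∉ A) → (if G.Adj u v then (ψ u - ψ v) ^ 2 else 0) = (0 : ℝ) := by
      intro u v huv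
      split_ifs with hadj
      · have hu0 : ψ u = 0 := by
          by_cases hu : u ∈ A
          · rcases huv with h | h
            · exact absurd hu h
            · exact hψB u (hB u hu v h hadj)
          · exact hψout u hu
        have hv0 : ψ v = 0 := by
          by_cases hv : v ∈ A
          · rcases huv with h | h
            · exact hψB v (hB v hv u h hadj.symm)
            · exact absurd hv h
          · exact hψout v hv
        rw [hu0, hv0]; norm_num
      · rfl
    have hs : ∑ u, ∑ v, (if G.Adj u v then (ψ u - ψ v) ^ 2 else 0) =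
        ∑ u ∈ A, ∑ v ∈ A, (if G.Adj u v then (ψ u - ψ v) ^ 2 else 0) := by
      symm
      rw [← Finset.sum_subset (Finset.subset_univ A)]
      · refine Finset.sum_congr rfl (fun u _ => ?_)
        exact Finset.sum_subset (Finset.subset_univ A) (fun v _ hv => hz1 u v (Or.inr hv))
      · intro u _ hu
        exact Finset.sum_eq_zero (fun v _ => hz1 u v (Or.inl hu))
    unfold En
    rw [hs, hE]
    have hle : ∑ u ∈ A, ∑ v ∈ A, (if G.Adj u v then (ψ u - ψ v) ^ 2 else 0) ≤
        16 * ∑ u ∈ A, ∑ v ∈ A, (if G.Adj u v then (f u - f v) ^ 2 else 0) := by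
      rw [Finset.mul_sum]
      refine Finset.sum_le_sum (fun u hu => ?_)
      rw [Finset.mul_sum]
      refine Finset.sum_le_sum (fun v hv => ?_)
      split_ifs
      · rw [hψin u hu, hψin v hv]
        exact tent_sq _ _
      · norm_num
    linarith
  have hfin := hR m z ψ
  rw [hψin m hmA, hψout z hz, sub_zero] at hfin
  have hge := tent_ge hm1 hm2
  have h1le : (1 : ℝ) ≤ M * En G ψ := by nlinarith
  have h2le : M * En G ψ ≤ M * (16 * E) := mul_le_mul_of_nonneg_left hEn hM.le
  rw [lt_div_iff₀ (by positivity)] at hE16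
  linarith

end

end Pool.Agent.R521.IS.Res
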