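import Pool.Agent.R521.IS.Stm

set_option autoImplicit false

open Finset

namespace Pool.Agent.R521.IS.Sep

open Pool.Agent.R521.IS
open Classical

/-- reachable vertices within an induced subgraph, from a base point -/
theorem conn_of_base {V : Type} (G : SimpleGraph V) (S : Set V) (x : V) (hx : x ∈ S)
    (h : ∀ w (hw : w ∈ S), (G.induce S).Reachable ⟨x, hx⟩ ⟨w, hw⟩) :
    (G.induce S).Connected := by
  haveI : Nonempty S := ⟨⟨x, hx⟩⟩
  refine SimpleGraph.Connected.mk ?_
  rintro ⟨a, ha⟩ ⟨b, hb⟩
  exact (h a ha).symm.trans (h b hb)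

theorem sep : StmtSep := by
  intro V _ G hG x y σ hxy
  set rC : V → V → Prop := fun a b => G.Adj a b ∧ σ b = σ x with hrC
  set C : Set V := {v | Relation.ReflTransGen rC x v} with hC
  have hCσ : ∀ v ∈ C, σ v = σ x := by
    intro v hv
    rcases Relation.ReflTransGen.cases_tail hv with h | ⟨c, _, hc⟩
    · rw [h]
    · exact hc.2
  have hCstep : ∀ u ∈ C, ∀ v, G.Adj u v → σ v = σ x → v ∈ C := by
    intro u hu v huv hv
    exact Relation.ReflTransGen.tail hu ⟨huv, hv⟩
  have hxC : x ∈ C := Relation.ReflTransGen.refl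
  have hyC : y ∉ C := fun h => hxy (hCσ y h).symm
  set rD : V → V → Prop := fun a b => G.Adj a b ∧ b ∉ C with hrD
  set D : Set V := {v | Relation.ReflTransGen rD y v} with hD
  have hyD : y ∈ D := Relation.ReflTransGen.refl
  have hDC : ∀ v ∈ D, v ∉ C := by
    intro v hv
    rcases Relation.ReflTransGen.cases_tail hv with h | ⟨c, _, hc⟩
    · rw [h]; exact hyC
    · exact hc.2
  have hDstep : ∀ u ∈ D, ∀ v, G.Adj u v → v ∉ C → v ∈ D := by
    intro u hu v huv hv
    exact Relation.ReflTransGen.tail hu ⟨huv, hv⟩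
  let A : Finset V := univ.filter (fun v => v ∉ D)
  have hA : ∀ v, v ∈ A ↔ v ∉ D := by
    intro v
    simp [A]
  have hxD : x ∉ D := fun h => hDC x h hxC
  have hxA : x ∈ A := (hA x).2 hxD
  have hAS : ∀ v, v ∈ (A : Set V) ↔ v ∉ D := by
    intro v
    rw [Finset.mem_coe, hA]
  have hAcS : ∀ v, v ∈ ((Aᶜ : Finset V) : Set V) ↔ v ∈ D := by
    intro v
    rw [Finset.mem_coe, Finset.mem_compl, hA, not_not]
  -- `C` is connected inside `A`
  have hCA : ∀ v, v ∈ C → v ∈ (A : Set V) := fun v hv => (hAS v).2 (fun h => hDC v h hv)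
  have hreachC : ∀ w, Relation.ReflTransGen rC x w → ∀ hw : w ∈ (A : Set V),
      (G.induce (A : Set V)).Reachable ⟨x, Finset.mem_coe.2 hxA⟩ ⟨w, hw⟩ := by
    intro w h
    induction h with
    | refl => intro hw; exact SimpleGraph.Reachable.refl _
    | tail hab hbc ih =>
      intro hw
      have hb := hCA _ hab
      refine (ih hb).trans (SimpleGraph.Adj.reachable ?_)
      exact hbc.1
  have hwalk : ∀ (w x' : V) (p : G.Walk w x') (_ : x' = x) (hw : w ∈ (A : Set V)),
      (G.induce (A : Set V)).Reachable ⟨x, Finset.mem_coe.2 hxA⟩ ⟨w, hw⟩ := by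
    intro w x' p
    induction p with
    | nil =>
      intro hx' hw
      subst hx'
      exact SimpleGraph.Reachable.refl _
    | @cons u v z huv q ih =>
      intro hx' hw
      by_cases huC : u ∈ C
      · exact hreachC u huC hw
      · have hvD : v ∉ D := by
          intro hv
          exact (hAS u).1 hw (hDstep v hv u huv.symm huC)
        have hv : v ∈ (A : Set V) := (hAS v).2 hvD
        refine (ih hx' hv).trans (SimpleGraph.Adj.reachable ?_)
        exact huv.symm
  have hreachD : ∀ w, Relation.ReflTransGen rD y w → ∀ hw : w ∈ ((Aᶜ : Finset V) : Set V),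
      (G.induce ((Aᶜ : Finset V) : Set V)).Reachable ⟨y, (hAcS y).2 hyD⟩ ⟨w, hw⟩ := by
    intro w h
    induction h with
    | refl => intro hw; exact SimpleGraph.Reachable.refl _
    | tail hab hbc ih =>
      intro hw
      have hb := (hAcS _).2 hab
      refine (ih hb).trans (SimpleGraph.Adj.reachable ?_)
      exact hbc.1
  refine ⟨A, ⟨hxA, fun h => (hA y).1 h hyD, ?_, ?_⟩, ?_⟩
  · refine conn_of_base G _ x (Finset.mem_coe.2 hxA) fun w hw => ?_
    obtain ⟨p⟩ := hG.preconnected w x
    exact hwalk w x p rfl hw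
  · exact conn_of_base G _ y ((hAcS y).2 hyD) fun w hw => hreachD w ((hAcS w).1 hw) hw
  · intro u hu v hv huv
    have huD := (hA u).1 hu
    have hvD : v ∈ D := by
      by_contra h
      exact hv ((hA v).2 h)
    have huC : u ∈ C := by
      by_contra h
      exact huD (hDstep v hvD u huv.symm h)
    intro h
    exact hDC v hvD (hCstep u huC v huv (h ▸ hCσ u huC))

end Pool.Agent.R521.IS.Sep
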