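import Pool.Agent.R521.IS.Stm

/-! Piece TLOW of project IS (helper521), by helper188. -/

set_option autoImplicit false
set_option linter.unusedVariables false

open Finset Matrix

namespace Pool.Agent.R521.IS.Tlow

noncomputable section
open Classical

/-- ghost trees with only root `r` and steps along edges of `G` -/
def TT {V : Type} [Fintype V] (G : SimpleGraph V) (A : Finset V) (r : {v : V // v ∈ A}) :
    Finset ({v : V // v ∈ A} → Option {v : V // v ∈ A}) :=
  GT.filter (fun g => ∀ i, (g i = none → i = r) ∧ ∀ j, g i = some j → G.Adj i j)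

theorem det_inst {V : Type} (i1 i2 : DecidableEq V) (j1 j2 : Fintype V) (M : Matrix V V ℝ) :
    @Matrix.det V i1 j1 ℝ _ M = @Matrix.det V i2 j2 ℝ _ M := by
  have h1 : i1 = i2 := Subsingleton.elim _ _
  have h2 : j1 = j2 := Subsingleton.elim _ _
  subst h1
  subst h2
  rfl

lemma det_eq (h : StmtMT) {V : Type} [Fintype V] (G : SimpleGraph V) (A : Finset V)
    (r : {v : V // v ∈ A}) :
    (MK (cG G A) (one r)).det = ((TT G A r).card : ℝ) := by
  have e := h {v : V // v ∈ A} (cG G A) (one r)
  have e' : (MK (cG G A) (one r)).det = ∑ g ∈ (GT : Finset ({v : V // v ∈ A} → Option {v : V // v ∈ A})),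
      ∏ i, (g i).elim (one r i) (fun j => cG G A i j) := by
    have e2 : (∑ g ∈ (GT : Finset ({v : V // v ∈ A} → Option {v : V // v ∈ A})),
      ∏ i, (g i).elim (one r i) (fun j => cG G A i j)) = _ :=
      (Finset.sum_congr rfl fun g _ => Finset.prod_congr rfl fun i _ => by
        rcases g i with _ | j <;> rfl).trans e.symm
    rw [e2]
    exact det_inst _ _ _ _ _
  rw [e', TT, Finset.card_filter]
  push_cast
  refine Finset.sum_congr rfl fun g _ => ?_
  · split_ifs with hg
    · refine Finset.prod_eq_one fun i _ => ?_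
      rcases hgi : g i with _ | j
      · simp [one, (hg i).1 hgi]
      · simp [cG, (hg i).2 j hgi]
    · have : ∃ i, (g i).elim (one r i) (fun j => cG G A i j) = 0 := by
        by_contra hc
        push Not at hc
        apply hg
        intro i
        have hi := hc i
        constructor
        · intro hgi
          rw [hgi] at hi
          by_contra hne
          exact hi (by simp [one, hne])
        · intro j hgi
          rw [hgi] at hi
          by_contra hne
          exact hi (by simp [cG, hne])
      obtain ⟨i, hi⟩ := this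
      exact Finset.prod_eq_zero (Finset.mem_univ i) hi

/-- glueing -/
def Phi {V : Type} [Fintype V] (A : Finset V) (b y : V)
    (g : {v : V // v ∈ A} → Option {v : V // v ∈ A})
    (g' : {v : V // v ∈ Aᶜ} → Option {v : V // v ∈ Aᶜ}) : V → V :=
  fun v => if h : v ∈ A then (g ⟨v, h⟩).elim b (fun w => w.1)
    else (g' ⟨v, Finset.mem_compl.2 h⟩).elim y (fun w => w.1)

lemma root_none {V : Type} [Fintype V] {G : SimpleGraph V} {A : Finset V} {r : {v : V // v ∈ A}}
    {g : {v : V // v ∈ A} → Option {v : V // v ∈ A}} (hg : g ∈ TT G A r) : g r = none := by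
  obtain ⟨h1, h2⟩ := Finset.mem_filter.1 hg
  obtain ⟨_, d, hd⟩ := Finset.mem_filter.1 h1
  obtain ⟨v, _, hv⟩ := Finset.exists_min_image (Finset.univ : Finset {v : V // v ∈ A}) d
    ⟨r, Finset.mem_univ r⟩
  have h3 : g v = none := by
    rcases hgv : g v with _ | w
    · rfl
    · exact absurd (hd v w hgv) (not_lt.2 (hv w (Finset.mem_univ w)))
  rw [← (h2 v).1 h3]
  exact h3

theorem tlow (h : StmtMT) : StmtTlow := by
  intro V _ G A y hy a ha b hb hab
  rw [det_eq h, det_eq h, ← Nat.cast_mul, Nat.cast_le, ← Finset.card_product]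
  have hyA : y ∉ A := Finset.mem_compl.1 hy
  refine Finset.card_le_card_of_injOn (fun p => Phi A b y p.1 p.2) ?_ ?_
  · rintro ⟨g, g'⟩ hp
    obtain ⟨hg, hg'⟩ := Finset.mem_product.1 (Finset.mem_coe.1 hp)
    obtain ⟨h1, h2⟩ := Finset.mem_filter.1 hg
    obtain ⟨_, d, hd⟩ := Finset.mem_filter.1 h1
    obtain ⟨h1', h2'⟩ := Finset.mem_filter.1 hg'
    obtain ⟨_, d', hd'⟩ := Finset.mem_filter.1 h1'
    have ra := root_none hg
    have ry := root_none hg'
    simp only at h2 h2' hd hd' ra ry
    obtain ⟨M, hM⟩ : ∃ M : ℕ, ∀ v, d' v ≤ M :=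
      ⟨Finset.univ.sup d', fun v => Finset.le_sup (Finset.mem_univ v)⟩
    -- values of the glued function
    have fA : ∀ (v : V) (hv : v ∈ A), (v = a ∧ Phi A b y g g' v = b) ∨
        (∃ w : {v : V // v ∈ A}, g ⟨v, hv⟩ = some w ∧ Phi A b y g g' v = w.1) := by
      intro v hv
      rcases hgv : g ⟨v, hv⟩ with _ | w
      · left
        refine ⟨congrArg Subtype.val ((h2 _).1 hgv), ?_⟩
        simp [Phi, hv, hgv]
      · right
        exact ⟨w, rfl, by simp [Phi, hv, hgv]⟩
    have fB : ∀ (v : V) (hv : v ∉ A), (v = y ∧ Phi A b y g g' v = y) ∨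
        (∃ w : {v : V // v ∈ Aᶜ}, g' ⟨v, Finset.mem_compl.2 hv⟩ = some w ∧
          Phi A b y g g' v = w.1) := by
      intro v hv
      rcases hgv : g' ⟨v, Finset.mem_compl.2 hv⟩ with _ | w
      · left
        refine ⟨congrArg Subtype.val ((h2' _).1 hgv), ?_⟩
        simp [Phi, hv, hgv]
      · right
        exact ⟨w, rfl, by simp [Phi, hv, hgv]⟩
    have fa : Phi A b y g g' a = b := by simp [Phi, ha, ra]
    have fy : Phi A b y g g' y = y := by simp [Phi, hyA, ry]
    show Phi A b y g g' ∈ ((Tre G y).filter (fun f => crs A f = 1) : Finset (V → V))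
    refine Finset.mem_filter.2 ⟨Finset.mem_filter.2 ⟨Finset.mem_univ _, fy, ?_, ?_⟩, ?_⟩
    · intro v hvy
      by_cases hv : v ∈ A
      · rcases fA v hv with ⟨e1, e2⟩ | ⟨w, e1, e2⟩
        · rw [e2, e1]; exact hab
        · rw [e2]; exact (h2 _).2 w e1
      · rcases fB v hv with ⟨e1, e2⟩ | ⟨w, e1, e2⟩
        · exact absurd e1 hvy
        · rw [e2]; exact (h2' _).2 w e1
    · refine ⟨fun v => if hv : v ∈ A then d ⟨v, hv⟩ + 1 + M
        else d' ⟨v, Finset.mem_compl.2 hv⟩, ?_⟩
      intro v hvy
      by_cases hv : v ∈ A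
      · rcases fA v hv with ⟨e1, e2⟩ | ⟨w, e1, e2⟩
        · rw [e2]
          have hb' := hM ⟨b, Finset.mem_compl.2 hb⟩
          simp only [hv, hb, dif_pos, dif_neg, not_false_eq_true]
          omega
        · rw [e2]
          have := hd _ w e1
          simp only [hv, w.2, dif_pos, Subtype.coe_eta]
          omega
      · rcases fB v hv with ⟨e1, e2⟩ | ⟨w, e1, e2⟩
        · exact absurd e1 hvy
        · rw [e2]
          have := hd' _ w e1
          have hw : (w : V) ∉ A := Finset.mem_compl.1 w.2
          simp only [hv, hw, dif_neg, not_false_eq_true, Subtype.coe_eta]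
          exact this
    · show crs A (Phi A b y g g') = 1
      rw [crs, Finset.card_eq_one]
      refine ⟨a, ?_⟩
      ext v
      rw [Finset.mem_filter, Finset.mem_singleton]
      constructor
      · rintro ⟨_, hv2⟩
        by_contra hne
        apply hv2
        by_cases hv : v ∈ A
        · rcases fA v hv with ⟨e1, e2⟩ | ⟨w, e1, e2⟩
          · exact absurd e1 hne
          · rw [e2]; exact ⟨fun _ => w.2, fun _ => hv⟩
        · rcases fB v hv with ⟨e1, e2⟩ | ⟨w, e1, e2⟩
          · rw [e2]; exact ⟨fun h => absurd h hv, fun h => absurd h hyA⟩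
          · rw [e2]; exact ⟨fun h => absurd h hv, fun h => absurd h (Finset.mem_compl.1 w.2)⟩
      · rintro rfl
        refine ⟨Finset.mem_univ _, ?_⟩
        rw [fa]
        exact fun h => hb (h.1 ha)
  · rintro ⟨g, g'⟩ hp ⟨k, k'⟩ hq hpq
    obtain ⟨hg, hg'⟩ := Finset.mem_product.1 (Finset.mem_coe.1 hp)
    obtain ⟨hk, hk'⟩ := Finset.mem_product.1 (Finset.mem_coe.1 hq)
    have hfun : Phi A b y g g' = Phi A b y k k' := hpq
    have ra := root_none hg
    have ry := root_none hg'
    have sa := root_none hk
    have sy := root_none hk'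
    have h2 := (Finset.mem_filter.1 hg).2
    have h2' := (Finset.mem_filter.1 hg').2
    have k2 := (Finset.mem_filter.1 hk).2
    have k2' := (Finset.mem_filter.1 hk').2
    simp only at ra ry sa sy h2 h2' k2 k2'
    have e1 : g = k := by
      funext v
      have hv := congrFun hfun v.1
      simp only [Phi, v.2, dif_pos, Subtype.coe_eta] at hv
      rcases hgv : g v with _ | w
      · rw [(h2 v).1 hgv, sa]
      · rcases hkv : k v with _ | w'
        · have := (k2 v).1 hkv
          rw [this, ra] at hgv
          exact absurd hgv (by simp)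
        · rw [hgv, hkv] at hv
          simp only [Option.elim_some] at hv
          rw [Subtype.ext hv]
    have e2 : g' = k' := by
      funext v
      have hv := congrFun hfun v.1
      have hvA : (v : V) ∉ A := Finset.mem_compl.1 v.2
      simp only [Phi, hvA, dif_neg, not_false_eq_true, Subtype.coe_eta] at hv
      rcases hgv : g' v with _ | w
      · rw [(h2' v).1 hgv, sy]
      · rcases hkv : k' v with _ | w'
        · have := (k2' v).1 hkv
          rw [this, ry] at hgv
          exact absurd hgv (by simp)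
        · rw [hgv, hkv] at hv
          simp only [Option.elim_some] at hv
          rw [Subtype.ext hv]
    rw [e1, e2]

end

end Pool.Agent.R521.IS.Tlow
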