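import Mathlib
import Pool.Agent.R521.IS.Stm

set_option autoImplicit false

/-! Piece TUP: the number of rooted spanning trees is at most the product of two determinants. -/

namespace Pool.Agent.R521.IS.Tup

open Finset Matrix Classical

/-- restriction of a parent function to `A` -/
noncomputable def gA {V : Type} (A : Finset V) (f : V → V) : {v : V // v ∈ A} → Option {v : V // v ∈ A} :=
  fun v => if h : f v ∈ A then some ⟨f v, h⟩ else none

/-- restriction of a parent function to the complement of `A` -/
noncomputable def gB {V : Type} (B : Finset V) (y : V) (f : V → V) :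
    {v : V // v ∈ B} → Option {v : V // v ∈ B} :=
  fun v => if (v : V) = y then none else if h : f v ∈ B then some ⟨f v, h⟩ else none

/-- the possible values of the parent function -/
noncomputable def SS {V : Type} [Fintype V] (G : SimpleGraph V) (A : Finset V) (y : V)
    (g : {v : V // v ∈ A} → Option {v : V // v ∈ A})
    (g' : {v : V // v ∈ (Aᶜ : Finset V)} → Option {v : V // v ∈ (Aᶜ : Finset V)}) (v : V) : Finset V :=
  if hv : v ∈ A then
    (match g ⟨v, hv⟩ with
      | some j => univ.filter (fun u => u = j ∧ G.Adj v u)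
      | none => univ.filter (fun u => u ∉ A ∧ G.Adj v u))
  else
    (match g' ⟨v, Finset.mem_compl.2 hv⟩ with
      | some j => univ.filter (fun u => u = j ∧ G.Adj v u)
      | none => if v = y then {y} else univ.filter (fun u => u ∉ (Aᶜ : Finset V) ∧ G.Adj v u))

theorem card_one {V : Type} [Fintype V] (G : SimpleGraph V) (v j : V) :
    (((univ.filter (fun u => u = j ∧ G.Adj v u)).card : ℕ) : ℝ) = if G.Adj v j then 1 else 0 := by
  by_cases h : G.Adj v j
  · rw [if_pos h]
    have : univ.filter (fun u => u = j ∧ G.Adj v u) = {j} := by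
      ext u
      simp only [Finset.mem_filter, Finset.mem_univ, true_and, Finset.mem_singleton]
      constructor
      · exact fun h => h.1
      · rintro rfl; exact ⟨rfl, h⟩
    rw [this]; simp
  · rw [if_neg h]
    have : univ.filter (fun u => u = j ∧ G.Adj v u) = ∅ := by
      ext u
      simp only [Finset.mem_filter, Finset.mem_univ, true_and, Finset.notMem_empty, iff_false]
      rintro ⟨rfl, h'⟩; exact h h'
    rw [this]; simp

theorem mem_GT {W : Type} [Fintype W] (g : W → Option W)
    (h : ∃ d : W → ℕ, ∀ v w, g v = some w → d w < d v) : g ∈ (GT : Finset (W → Option W)) :=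
  Finset.mem_filter.2 ⟨Finset.mem_univ _, h⟩

theorem det_inst {V : Type} (i1 i2 : DecidableEq V) (j1 j2 : Fintype V) (M : Matrix V V ℝ) :
    @Matrix.det V i1 j1 ℝ _ M = @Matrix.det V i2 j2 ℝ _ M := by
  have h1 : i1 = i2 := Subsingleton.elim _ _
  have h2 : j1 = j2 := Subsingleton.elim _ _
  subst h1
  subst h2
  rfl

theorem tup (h : StmtMT) : StmtTup := by
  intro V _ G A y hy
  have hd : ∀ (W : Type) [Fintype W] [DecidableEq W] (c : W → W → ℝ) (κ : W → ℝ),
      (MK c κ).det = ∑ g ∈ (GT : Finset (W → Option W)),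
        ∏ i, (g i).elim (κ i) (fun j => c i j) := by
    intro W _ _ c κ
    refine Eq.trans ?_ ((h W c κ).trans ?_)
    · exact det_inst _ _ _ _ _
    · exact Finset.sum_congr rfl fun g _ => Finset.prod_congr rfl fun i _ => by
        rcases g i <;> rfl
  rw [hd, hd, Finset.sum_mul_sum, ← Finset.sum_product']
  have hmaps : Set.MapsTo (fun f : V → V => (gA A f, gB (Aᶜ : Finset V) y f)) (Tre G y : Set (V → V))
      ((GT ×ˢ GT : Finset (({v : V // v ∈ A} → Option {v : V // v ∈ A}) ×
        ({v : V // v ∈ (Aᶜ : Finset V)} → Option {v : V // v ∈ (Aᶜ : Finset V)}))) : Set _) := by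
    intro f hf
    obtain ⟨-, hfy, hadj, d, hd⟩ := Finset.mem_filter.1 (Finset.mem_coe.1 hf)
    refine Finset.mem_coe.2 (Finset.mem_product.2 ⟨?_, ?_⟩)
    · refine mem_GT _ ⟨fun v => d v, fun v w hvw => ?_⟩
      have hvy : (v : V) ≠ y := fun h => hy (h ▸ v.2)
      have hvw' : (if h : f v ∈ A then some (⟨f v, h⟩ : {v : V // v ∈ A}) else none) = some w := hvw
      split_ifs at hvw' with hA
      have := Option.some.inj hvw'
      rw [← this]
      exact hd v hvy
    · refine mem_GT _ ⟨fun v => d v, fun v w hvw => ?_⟩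
      have hvw' : (if (v : V) = y then none else
        if h : f v ∈ (Aᶜ : Finset V) then some (⟨f v, h⟩ : {v : V // v ∈ (Aᶜ : Finset V)}) else none) =
          some w := hvw
      split_ifs at hvw' with hvy hA
      have := Option.some.inj hvw'
      rw [← this]
      exact hd v hvy
  rw [Finset.card_eq_sum_card_fiberwise hmaps, Nat.cast_sum]
  refine Finset.sum_le_sum ?_
  rintro ⟨g, g'⟩ -
  have hfib : (Tre G y).filter (fun f => (gA A f, gB (Aᶜ : Finset V) y f) = (g, g')) ⊆
      Fintype.piFinset (SS G A y g g') := by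
    intro f hf
    obtain ⟨hf1, hf2⟩ := Finset.mem_filter.1 hf
    obtain ⟨-, hfy, hadj, -⟩ := Finset.mem_filter.1 hf1
    have e1 : gA A f = g := congrArg Prod.fst hf2
    have e2 : gB (Aᶜ : Finset V) y f = g' := congrArg Prod.snd hf2
    rw [Fintype.mem_piFinset]
    intro v
    unfold SS
    by_cases hv : v ∈ A
    · rw [dif_pos hv]
      have hvy : v ≠ y := fun h => hy (h ▸ hv)
      rw [← e1]
      by_cases hfA : f v ∈ A
      · have : gA A f ⟨v, hv⟩ = some ⟨f v, hfA⟩ := by
          unfold gA; rw [dif_pos hfA]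
        rw [this]
        exact Finset.mem_filter.2 ⟨Finset.mem_univ _, rfl, hadj v hvy⟩
      · have : gA A f ⟨v, hv⟩ = none := by
          unfold gA; rw [dif_neg hfA]
        rw [this]
        exact Finset.mem_filter.2 ⟨Finset.mem_univ _, hfA, hadj v hvy⟩
    · rw [dif_neg hv]
      rw [← e2]
      by_cases hvy : v = y
      · have : gB (Aᶜ : Finset V) y f ⟨v, Finset.mem_compl.2 hv⟩ = none := by
          unfold gB; rw [if_pos hvy]
        rw [this]
        show f v ∈ (if v = y then {y} else _)
        rw [if_pos hvy, hvy, hfy]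
        exact Finset.mem_singleton_self y
      · by_cases hfA : f v ∈ (Aᶜ : Finset V)
        · have : gB (Aᶜ : Finset V) y f ⟨v, Finset.mem_compl.2 hv⟩ = some ⟨f v, hfA⟩ := by
            unfold gB; rw [if_neg hvy, dif_pos hfA]
          rw [this]
          exact Finset.mem_filter.2 ⟨Finset.mem_univ _, rfl, hadj v hvy⟩
        · have : gB (Aᶜ : Finset V) y f ⟨v, Finset.mem_compl.2 hv⟩ = none := by
            unfold gB; rw [if_neg hvy, dif_neg hfA]
          rw [this]
          show f v ∈ (if v = y then {y} else _)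
          rw [if_neg hvy]
          exact Finset.mem_filter.2 ⟨Finset.mem_univ _, hfA, hadj v hvy⟩
  have hcard := Finset.card_le_card hfib
  rw [Fintype.card_piFinset] at hcard
  refine (Nat.cast_le.2 hcard).trans ?_
  rw [Nat.cast_prod, ← Finset.prod_mul_prod_compl A (fun v => ((SS G A y g g' v).card : ℝ)),
    Finset.prod_subtype A (p := fun v => v ∈ A) (fun x => Iff.rfl),
    Finset.prod_subtype (Aᶜ : Finset V) (p := fun v => v ∈ (Aᶜ : Finset V)) (fun x => Iff.rfl)]
  refine mul_le_mul ?_ ?_ (Finset.prod_nonneg fun _ _ => Nat.cast_nonneg _) ?_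
  · refine Finset.prod_le_prod (fun _ _ => Nat.cast_nonneg _) fun v _ => ?_
    show (((SS G A y g g' v).card : ℕ) : ℝ) ≤
      (g v).elim ((kG G A v : ℕ) : ℝ) (fun j => cG G A v j)
    unfold SS
    rw [dif_pos v.2]
    rcases hg : g v with _ | j
    · exact le_rfl
    · exact (card_one G v j).le
  · refine Finset.prod_le_prod (fun _ _ => Nat.cast_nonneg _) fun v _ => ?_
    show (((SS G A y g g' v).card : ℕ) : ℝ) ≤
      (g' v).elim ((kG G Aᶜ v + if (v : V) = y then 1 else 0 : ℕ) : ℝ)
        (fun j => cG G Aᶜ v j)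
    unfold SS
    rw [dif_neg (Finset.mem_compl.1 v.2)]
    rcases hg : g' v with _ | j
    · show ((((if (v : V) = y then {y} else univ.filter (fun u => u ∉ (Aᶜ : Finset V) ∧ G.Adj v u)) :
        Finset V).card : ℕ) : ℝ) ≤ _
      by_cases hvy : (v : V) = y
      · rw [if_pos hvy, if_pos hvy, Finset.card_singleton]
        show ((1 : ℕ) : ℝ) ≤ ((kG G Aᶜ v + 1 : ℕ) : ℝ)
        exact Nat.cast_le.2 (Nat.le_add_left 1 _)
      · rw [if_neg hvy, if_neg hvy]
        exact le_rfl
    · exact (card_one G v j).le
  · refine Finset.prod_nonneg fun v _ => ?_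
    show 0 ≤ (g v).elim ((kG G A v : ℕ) : ℝ) (fun j => cG G A v j)
    rcases g v with _ | j
    · exact Nat.cast_nonneg _
    · show 0 ≤ cG G A v j
      unfold cG
      split_ifs <;> norm_num

end Pool.Agent.R521.IS.Tup
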